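import Mathlib

section

/-! The abstract rules of the tree. -/

namespace Pool.Agent.MP_c26281_pr

/-- `1 / sqrt T` -/
noncomputable def rs (T : ℕ) : ℝ := (Real.sqrt T)⁻¹

/-- relative error allowed at each step -/
noncomputable def ep : ℝ := 1 / 10 ^ 9

/-- second order coefficient -/
noncomputable def bq (p : ℝ) : ℝ := 199 / 100 - 269 / 100 * p + 136 / 100 * p ^ 2

/-- first order coefficient -/
noncomputable def aq (p : ℝ) : ℝ := 5399 / 10000 - 2 / 3 * p

/-- source term -/
noncomputable def srcG (M k1 k0 k2 B : ℝ) : ℝ :=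
  (1 - ep) * ((1 + B) * M + min (B * aq (B / (1 + B)) * k1) (B * aq (B / (1 + B)) * k0) / 2
    - B * bq (B / (1 + B)) * k2 / 2)

/-- source term of the step from `T` to `T + J^2` -/
noncomputable def srcF (T J : ℕ) (B : ℝ) : ℝ :=
  srcG (rs T - rs (T + J * J)) (rs (T + J * J) / (T + J * J : ℕ) * J ^ 4 * (1 - ep) / 150)
    (rs T / T * J ^ 4 * (1 + ep) / 150) (rs T / T * J ^ 6 * (1 + ep) / 16875) B

/-- the three rules -/
def Rules (Good : ℕ → ℝ → ℝ → Prop) : Prop :=
  (∀ T B B' w w', Good T B w → 0 ≤ B → B ≤ B' → w' ≤ w → Good T B' w') ∧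
  (∀ T B w, 1 ≤ T → T ≤ 10 ^ 12 → 0 ≤ B → 0 ≤ w →
    w ^ 3 ≤ ((1 - ep) * (rs T - rs (10 ^ 12))) ^ 2 → Good T B w) ∧
  (∀ (T J : ℕ) (B b x w y a s o : ℝ), 1 ≤ T → 1 ≤ J → J ≤ 4 → T + J * J ≤ 10 ^ 12 → 0 ≤ b → b ≤ B →
    Good (T + J * J) (B * Real.exp (-(146 / 7500) * (J * J)) * Real.exp (2 / 5 * J)) x →
    Good (T + J * J) (B * Real.exp (-(146 / 7500) * (J * J))) w →
    Good (T + J * J) (B * Real.exp (-(146 / 7500) * (J * J)) * Real.exp (-(2 / 5) * J)) y →
    0 ≤ x → 0 ≤ w → 0 ≤ y → 0 ≤ a → a ^ 2 ≤ ((1 - ep) * ((x + 4 * w + y) / 6)) ^ 3 →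
    0 ≤ s → s ≤ max 0 (srcF T J b) → 0 ≤ o → o ^ 3 ≤ (s + a) ^ 2 → Good T B o)

/-- what the tree gives -/
def Concl (Good : ℕ → ℝ → ℝ → Prop) : Prop :=
  ∃ x w y : ℝ, 0 ≤ x ∧ 0 ≤ w ∧ 0 ≤ y ∧
    Good 1 (Real.exp (-(146 / 7500)) * Real.exp (2 / 5)) x ∧ Good 1 (Real.exp (-(146 / 7500))) w ∧
    Good 1 (Real.exp (-(146 / 7500)) * Real.exp (-(2 / 5))) y ∧ 15862 / 10000 ≤ (x + 4 * w + y) / 6

theorem ep_pos : 0 < ep := by unfold ep; norm_num
theorem ep_le : ep ≤ 1 / 1000 := by unfold ep; norm_num

theorem rs_pos {T : ℕ} (h : 1 ≤ T) : 0 < rs T := by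
  unfold rs
  have : (0 : ℝ) < T := by exact_mod_cast h
  positivity

theorem rs_sq {T : ℕ} (h : 1 ≤ T) : rs T ^ 2 * T = 1 := by
  unfold rs
  have : (0 : ℝ) < T := by exact_mod_cast h
  rw [inv_pow, Real.sq_sqrt this.le]; field_simp

theorem rs_anti {T U : ℕ} (h : 1 ≤ T) (h2 : T ≤ U) : rs U ≤ rs T := by
  unfold rs
  have : (0 : ℝ) < T := by exact_mod_cast h
  exact inv_anti₀ (Real.sqrt_pos.2 this) (Real.sqrt_le_sqrt (by exact_mod_cast h2))

theorem bq_nonneg (p : ℝ) : 0 ≤ bq p := by unfold bq; nlinarith [sq_nonneg (p - 1)]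

end Pool.Agent.MP_c26281_pr

end

section

/-! Integer programs for the trinomial tree. Scale `2^48`. -/

namespace Pool.Agent.MP_c26281_pr.Num

/-- force -/
def frc {β : Type} (c : ℕ) (f : ℕ → β) : β :=
  Nat.rec (motive := fun _ => β) (f 0) (fun m _ => f (Nat.succ m)) c

theorem frc_eq {β : Type} (c : ℕ) (f : ℕ → β) : frc c f = f c := by cases c <;> rfl

/-- force a list -/
noncomputable def fl {β : Type} (l : List ℕ) (k : List ℕ → β) : β :=
  List.rec (motive := fun _ => (List ℕ → β) → β) (fun k => k [])
    (fun x _ ih k => frc x fun x => ih fun t => k (x :: t)) l k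

theorem fl_eq {β : Type} (l : List ℕ) (k : List ℕ → β) : fl l k = k l := by
  induction l generalizing k with
  | nil => rfl
  | cons x l ih =>
    show frc x (fun x => fl l fun t => k (x :: t)) = _
    rw [frc_eq, ih]

/-- Newton for the square root -/
noncomputable def sq (it x r : ℕ) : ℕ :=
  Nat.rec (motive := fun _ => ℕ → ℕ) (fun r => r)
    (fun _ ih r => frc (Nat.shiftRight (Nat.add r (Nat.div x r)) 1) ih) it r

/-- Newton for the cube root -/
noncomputable def cb (it x w : ℕ) : ℕ :=
  Nat.rec (motive := fun _ => ℕ → ℕ) (fun w => w)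
    (fun _ ih w => frc (Nat.div (Nat.add (Nat.add w w) (Nat.div x (Nat.mul w w))) 3) ih) it w

/-- checked cube root -/
noncomputable def cub (it x g : ℕ) : ℕ :=
  frc (cb it x g) fun w => frc (Nat.sub w (Nat.succ (Nat.shiftRight w 26))) fun w =>
    cond (Nat.ble (Nat.mul (Nat.mul w w) w) x) w 0

/-- checked power `3/2` -/
noncomputable def p32 (a r : ℕ) : ℕ :=
  frc (Nat.div (Nat.mul a (Nat.div (Nat.mul a 281474976710656) (Nat.add r 2))) 281474976710656)
    fun v => cond (Nat.ble (Nat.mul (Nat.mul v v) 281474976710656) (Nat.mul (Nat.mul a a) a)) v 0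

/-- the source term -/
noncomputable def srcN (b m0 c1 c0 c2 : ℕ) : ℕ :=
  frc (Nat.add 281474976710656 b) fun sb =>
  frc (Nat.div (Nat.mul b b) sb) fun u =>
  frc (Nat.div (Nat.mul 5399 b) 10000) fun pos =>
  frc (Nat.succ (Nat.div (Nat.mul 2 (Nat.succ u)) 3)) fun neg =>
  frc (Nat.sub (Nat.succ (Nat.div (Nat.add (Nat.mul 199 b)
    (Nat.mul 136 (Nat.succ (Nat.div (Nat.mul (Nat.succ u) b) sb)))) 100))
    (Nat.div (Nat.mul 269 u) 100)) fun quad =>
  Nat.div (Nat.mul (Nat.sub
    (Nat.add (Nat.mul sb m0) (Nat.div (Nat.mul (Nat.sub pos neg) c1) 2))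
    (Nat.add (Nat.succ (Nat.div (Nat.mul (Nat.sub neg pos) c0) 2))
      (Nat.succ (Nat.div (Nat.mul quad c2) 2)))) 999999999) 281474976710656000000000

/-- the average -/
def avg (x w y : ℕ) : ℕ :=
  Nat.div (Nat.mul (Nat.add (Nat.add x (Nat.mul 4 w)) y) 999999999) 6000000000

/-- value of a node -/
noncomputable def val (it a r s pv : ℕ) : ℕ :=
  frc (p32 a r) fun av => frc (Nat.add s av) fun v =>
  frc (Nat.add a (Nat.div (Nat.mul (Nat.mul 2 a) s) (Nat.mul 3 av))) fun g =>
  cub (Nat.succ it) (Nat.mul (Nat.mul v v) 281474976710656) (cond (Nat.ble g pv) g pv)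

/-- one time step, along the nodes -/
noncomputable def go (m0 c1 c0 c2 : ℕ) (l : List ℕ) :
    List ℕ → List ℕ → ℕ → ℕ → ℕ → ℕ → List ℕ :=
  List.rec (motive := fun _ => List ℕ → List ℕ → ℕ → ℕ → ℕ → ℕ → List ℕ)
    (fun _ _ _ _ _ _ => [])
    (fun w _ ih wl wr b r pv it =>
      List.casesOn (motive := fun _ => List ℕ) wl [] fun x wl =>
      List.casesOn (motive := fun _ => List ℕ) wr [] fun y wr =>
      frc b fun b => frc (avg x w y) fun a =>
      frc (sq it (Nat.mul a 281474976710656) r) fun r =>
      frc (srcN b m0 c1 c0 c2) fun s =>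
      frc (val it a r s pv) fun o =>
      o :: ih wl wr (Nat.div (Nat.mul b 670320046035638) 1000000000000000) r o 3) l

/-- upper bound of `2^48 / sqrt T` -/
noncomputable def hi (T : ℕ) : ℕ :=
  frc (Nat.add (sq 60 (Nat.div 79228162514264337593543950336 T) 281474976710656) 2) fun h =>
    cond (Nat.ble 79228162514264337593543950336 (Nat.mul (Nat.mul h h) T)) h 281474976710656

/-- lower bound of `2^48 / sqrt T` -/
noncomputable def lo (T : ℕ) : ℕ :=
  frc (Nat.sub (hi T) 4) fun h =>
    cond (Nat.ble (Nat.mul (Nat.mul h h) T) 79228162514264337593543950336) h 0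

/-- value of the positive excursions alone -/
noncomputable def plus (T : ℕ) : ℕ :=
  frc (Nat.div (Nat.mul (Nat.sub (lo T) 281474977) 999999999) 1000000000) fun v =>
    cub 14 (Nat.mul (Nat.mul v v) 281474976710656) 281474976710656

/-- one time step -/
noncomputable def step (W : List ℕ) (T J L : ℕ) : List ℕ :=
  frc (Nat.add T (Nat.mul J J)) fun T1 => frc (lo T1) fun l1 => frc (hi T) fun h0 =>
  frc (Nat.sub (lo T) (hi T1)) fun m0 =>
  frc (Nat.div (Nat.mul (Nat.mul l1 (Nat.pow J 4)) 999999999) (Nat.mul T1 150000000000)) fun c1 =>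
  frc (Nat.succ (Nat.div (Nat.mul (Nat.mul h0 (Nat.pow J 4)) 1000000001)
    (Nat.mul T 150000000000))) fun c0 =>
  frc (Nat.succ (Nat.div (Nat.mul (Nat.mul h0 (Nat.pow J 6)) 1000000001)
    (Nat.mul T 16875000000000))) fun c2 =>
  frc (plus T1) fun P =>
  frc (Nat.div (Nat.mul (Nat.mul 281474976710656 (Nat.pow 980721585363338 T))
    (Nat.pow 1491824697641269 L)) (Nat.pow 1000000000000000 (Nat.add T L))) fun b =>
  frc (W.headD 0) fun w0 =>
  go m0 c1 c0 c2 W (List.replicate J w0 ++ W) (W.drop J ++ List.replicate J P) b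
    (Nat.add w0 281474976710656) (Nat.mul 2 (Nat.add 281474976710656 b)) 140

/-- `c` time steps backwards from time `T` -/
noncomputable def grp (c J L : ℕ) : ℕ → List ℕ → List ℕ :=
  Nat.rec (motive := fun _ => ℕ → List ℕ → List ℕ) (fun _ W => W)
    (fun _ ih T W => frc (Nat.sub T (Nat.mul J J)) fun T' => fl (step W T' J L) fun W' => ih T' W') c

/-- componentwise comparison, the first list may be shorter -/
noncomputable def leL (l : List ℕ) : List ℕ → Bool :=
  List.rec (motive := fun _ => List ℕ → Bool) (fun _ => true)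
    (fun x _ ih m => List.casesOn (motive := fun _ => Bool) m false fun y m =>
      cond (Nat.ble x y) (ih m) false) l

end Pool.Agent.MP_c26281_pr.Num

end

section

/-! Soundness of the arithmetic of a node. -/

namespace Pool.Agent.MP_c26281_pr.Num

/-- the scale -/
noncomputable def SR : ℝ := 281474976710656

theorem SR_pos : 0 < SR := by unfold SR; norm_num

theorem ndiv (a b : ℕ) : Nat.div a b = a / b := rfl
theorem npow (a b : ℕ) : Nat.pow a b = a ^ b := rfl

theorem div_le' (a b : ℕ) : ((a / b : ℕ) : ℝ) ≤ a / b := Nat.cast_div_le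

theorem le_div' (a b : ℕ) (hb : 0 < b) : (a : ℝ) / b ≤ ((a / b : ℕ) : ℝ) + 1 := by
  have h : a < b * (a / b + 1) := Nat.lt_mul_div_succ a hb
  have hb' : (0 : ℝ) < b := by exact_mod_cast hb
  rw [div_le_iff₀ hb']
  have : (a : ℝ) < b * (((a / b : ℕ) : ℝ) + 1) := by exact_mod_cast h
  linarith

theorem sub_ge (a b : ℕ) : (a : ℝ) - b ≤ ((a - b : ℕ) : ℝ) := by
  rcases le_total b a with h | h
  · rw [Nat.cast_sub h]
  · rw [Nat.sub_eq_zero_of_le h]
    have : (a : ℝ) ≤ b := by exact_mod_cast h
    simp; linarith

theorem sub_le_max (a b : ℕ) : ((a - b : ℕ) : ℝ) ≤ max 0 ((a : ℝ) - b) := by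
  rcases le_total b a with h | h
  · rw [Nat.cast_sub h]; exact le_max_right _ _
  · rw [Nat.sub_eq_zero_of_le h]; simp

theorem cond_ble (a b v d : ℕ) :
    (cond (Nat.ble a b) v d = v ∧ a ≤ b) ∨ cond (Nat.ble a b) v d = d := by
  cases h : Nat.ble a b
  · right; rfl
  · left; exact ⟨rfl, Nat.le_of_ble_eq_true h⟩

theorem cmul (a b : ℕ) : ((Nat.mul a b : ℕ) : ℝ) = a * b := Nat.cast_mul a b

theorem cub_le (it x g : ℕ) : ((cub it x g : ℕ) : ℝ) ^ 3 ≤ x := by
  unfold cub
  rw [frc_eq, frc_eq]
  generalize Nat.sub _ _ = w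
  rcases cond_ble (Nat.mul (Nat.mul w w) w) x w 0 with ⟨e, h⟩ | e <;> rw [e]
  · have h2 := (Nat.cast_le (α := ℝ)).2 h
    rw [cmul, cmul] at h2
    linarith
  · simp

theorem p32_le (a r : ℕ) : ((p32 a r : ℕ) : ℝ) ^ 2 * SR ≤ (a : ℝ) ^ 3 := by
  unfold p32
  rw [frc_eq]
  generalize Nat.div _ 281474976710656 = v
  rcases cond_ble (Nat.mul (Nat.mul v v) 281474976710656) (Nat.mul (Nat.mul a a) a) v 0
    with ⟨e, h⟩ | e <;> rw [e]
  · have h2 := (Nat.cast_le (α := ℝ)).2 h
    rw [cmul, cmul, cmul, cmul, Nat.cast_ofNat] at h2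
    unfold SR; linarith
  · rw [Nat.cast_zero, zero_pow two_ne_zero, zero_mul]; positivity

theorem hi_ge {T : ℕ} (hT : 1 ≤ T) : SR * rs T ≤ hi T := by
  unfold hi
  rw [frc_eq]
  generalize Nat.add _ 2 = h
  have h1 := rs_pos hT
  have h2 := rs_sq hT
  have hT' : (1 : ℝ) ≤ T := by exact_mod_cast hT
  rcases cond_ble 79228162514264337593543950336 (Nat.mul (Nat.mul h h) T) h 281474976710656
    with ⟨e, h3⟩ | e <;> rw [e]
  · have h3 := (Nat.cast_le (α := ℝ)).2 h3
    rw [cmul, cmul, Nat.cast_ofNat] at h3
    refine abs_le_of_sq_le_sq' ?_ (Nat.cast_nonneg h) |>.2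
    have : (SR * rs T) ^ 2 * T ≤ (h : ℝ) ^ 2 * T := by
      rw [mul_pow, mul_assoc, h2]; unfold SR; linarith
    exact le_of_mul_le_mul_right this (by linarith)
  · have : rs T ≤ 1 := by nlinarith
    rw [Nat.cast_ofNat]; unfold SR; linarith

theorem lo_le {T : ℕ} (hT : 1 ≤ T) : (lo T : ℝ) ≤ SR * rs T := by
  unfold lo
  rw [frc_eq]
  generalize Nat.sub _ 4 = h
  have h1 := rs_pos hT
  have h2 := rs_sq hT
  have hT' : (1 : ℝ) ≤ T := by exact_mod_cast hT
  have h0 : 0 ≤ SR * rs T := mul_nonneg SR_pos.le h1.le
  rcases cond_ble (Nat.mul (Nat.mul h h) T) 79228162514264337593543950336 h 0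
    with ⟨e, h3⟩ | e <;> rw [e]
  · have h3 := (Nat.cast_le (α := ℝ)).2 h3
    rw [cmul, cmul, Nat.cast_ofNat] at h3
    refine abs_le_of_sq_le_sq' ?_ h0 |>.2
    have : (h : ℝ) ^ 2 * T ≤ (SR * rs T) ^ 2 * T := by
      rw [mul_pow, mul_assoc, h2]; unfold SR; linarith
    exact le_of_mul_le_mul_right this (by linarith)
  · simpa using h0

theorem plus_le {T : ℕ} (hT : 1 ≤ T) (hT2 : T ≤ 10 ^ 12) :
    ((plus T : ℝ) / SR) ^ 3 ≤ ((1 - ep) * (rs T - rs (10 ^ 12))) ^ 2 := by
  unfold plus
  rw [frc_eq]
  have h1 : ((Nat.div (Nat.mul (Nat.sub (lo T) 281474977) 999999999) 1000000000 : ℕ) : ℝ) ≤ _ :=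
    div_le' _ _
  rw [cmul, Nat.sub_eq, Nat.cast_ofNat, Nat.cast_ofNat] at h1
  generalize Nat.div _ 1000000000 = v at h1 ⊢
  have h0 := cub_le 14 (Nat.mul (Nat.mul v v) 281474976710656) 281474976710656
  generalize cub _ _ _ = o at h0 ⊢
  rw [cmul, cmul, Nat.cast_ofNat] at h0
  have h2 := sub_le_max (lo T) 281474977
  have h3 := lo_le hT
  have h4 : rs (10 ^ 12) = 1 / 10 ^ 6 := by
    unfold rs
    rw [show (((10 ^ 12 : ℕ) : ℝ)) = (10 ^ 6) ^ 2 by norm_num, Real.sqrt_sq (by norm_num)]
    norm_num
  have h5 := rs_anti hT hT2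
  have h6 : ((lo T - 281474977 : ℕ) : ℝ) ≤ SR * (rs T - rs (10 ^ 12)) := by
    refine h2.trans (max_le (mul_nonneg SR_pos.le (by linarith)) ?_)
    rw [h4]; unfold SR at *; push_cast; linarith
  have h7 : (v : ℝ) ≤ SR * ((1 - ep) * (rs T - rs (10 ^ 12))) := by
    have e : SR * ((1 - ep) * (rs T - rs (10 ^ 12)))
        = SR * (rs T - rs (10 ^ 12)) * 999999999 / 1000000000 := by unfold ep; ring
    rw [e]; refine h1.trans ?_; gcongr
  have h8 : (o : ℝ) ^ 3 ≤ v * v * SR := h0
  have hv : (0 : ℝ) ≤ v := Nat.cast_nonneg v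
  have h9 : (v : ℝ) * v ≤ (SR * ((1 - ep) * (rs T - rs (10 ^ 12)))) ^ 2 := by
    rw [← pow_two]; exact pow_le_pow_left₀ hv h7 2
  rw [div_pow, div_le_iff₀ (pow_pos SR_pos 3)]
  have := mul_le_mul_of_nonneg_right h9 SR_pos.le
  nlinarith

theorem avg_le (x w y : ℕ) :
    (avg x w y : ℝ) / SR ≤ (1 - ep) * ((x / SR + 4 * (w / SR) + y / SR) / 6) := by
  unfold avg
  simp only [Nat.mul_eq, Nat.add_eq, ndiv]
  have h := div_le' ((x + 4 * w + y) * 999999999) 6000000000
  push_cast at h
  rw [div_le_iff₀ SR_pos]
  refine h.trans (le_of_eq ?_)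
  have := SR_pos
  unfold ep; field_simp; ring

theorem val_le (it a r s pv : ℕ) : ∃ av : ℕ, ((av : ℝ) / SR) ^ 2 ≤ ((a : ℝ) / SR) ^ 3 ∧
    ((val it a r s pv : ℝ) / SR) ^ 3 ≤ ((s : ℝ) / SR + av / SR) ^ 2 := by
  refine ⟨p32 a r, ?_, ?_⟩
  · have h := p32_le a r
    have := SR_pos
    rw [div_pow, div_pow, div_le_div_iff₀ (by positivity) (by positivity)]
    have := mul_le_mul_of_nonneg_right h (sq_nonneg SR)
    nlinarith
  · unfold val
    rw [frc_eq, frc_eq, frc_eq]
    generalize p32 a r = av
    generalize (cond _ _ _ : ℕ) = g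
    have h0 := cub_le (Nat.succ it) (Nat.mul (Nat.mul (Nat.add s av) (Nat.add s av))
      281474976710656) g
    generalize cub _ _ _ = o at h0 ⊢
    rw [cmul, cmul, Nat.cast_ofNat, Nat.add_eq, Nat.cast_add] at h0
    have h : (o : ℝ) ^ 3 ≤ (s + av) * (s + av) * SR := h0
    have := SR_pos
    rw [← add_div, div_pow, div_pow, div_le_div_iff₀ (by positivity) (by positivity)]
    have := mul_le_mul_of_nonneg_right h (sq_nonneg SR)
    nlinarith

theorem min_aux {z k1 k0 P N c1 c0 S : ℝ} (hS : 0 < S) (hz : P - N ≤ S * z) (hP : 0 ≤ P)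
    (hN : 0 ≤ N) (hPN : P = 0 ∨ N = 0) (h1 : c1 ≤ S * k1) (h0 : S * k0 ≤ c0) (hc : 0 ≤ c1)
    (k10 : k1 ≤ k0) : P * c1 - N * c0 ≤ S ^ 2 * min (z * k1) (z * k0) := by
  have hk1 : 0 ≤ k1 := by nlinarith
  have hk0 : 0 ≤ k0 := hk1.trans k10
  rw [mul_min_of_nonneg _ _ (sq_nonneg S)]
  rcases hPN with rfl | rfl
  · have a1 : -N * (S * k1) ≤ S * z * (S * k1) :=
      mul_le_mul_of_nonneg_right (by linarith) (by positivity)
    have a2 : -N * (S * k0) ≤ S * z * (S * k0) :=
      mul_le_mul_of_nonneg_right (by linarith) (by positivity)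
    have a3 : N * (S * k0) ≤ N * c0 := mul_le_mul_of_nonneg_left h0 hN
    have a4 : N * (S * k1) ≤ N * (S * k0) := by gcongr
    refine le_min ?_ ?_ <;> nlinarith
  · have a1 : P * (S * k1) ≤ S * z * (S * k1) :=
      mul_le_mul_of_nonneg_right (by linarith) (by positivity)
    have a2 : P * (S * k0) ≤ S * z * (S * k0) :=
      mul_le_mul_of_nonneg_right (by linarith) (by positivity)
    have a3 : P * c1 ≤ P * (S * k1) := mul_le_mul_of_nonneg_left h1 hP
    have a4 : P * (S * k1) ≤ P * (S * k0) := by gcongr
    refine le_min ?_ ?_ <;> nlinarith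

theorem srcN_le (b m0 c1 c0 c2 : ℕ) {M k1 k0 k2 : ℝ} (hM : (m0 : ℝ) ≤ SR * M)
    (h1 : (c1 : ℝ) ≤ SR * k1) (h0 : SR * k0 ≤ c0) (h2 : SR * k2 ≤ c2) (k10 : k1 ≤ k0)
    (hk2 : 0 ≤ k2) : (srcN b m0 c1 c0 c2 : ℝ) / SR ≤ max 0 (srcG M k1 k0 k2 (b / SR)) := by
  unfold srcN
  simp only [frc_eq, Nat.mul_eq, Nat.add_eq, Nat.sub_eq, ndiv, Nat.succ_eq_add_one]
  have hS := SR_pos
  have hb : (0 : ℝ) ≤ b := Nat.cast_nonneg b
  have eS : ((281474976710656 + b : ℕ) : ℝ) = SR + b := by unfold SR; push_cast; ring
  have hsb : 0 < 281474976710656 + b := by omega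
  set p : ℝ := (b / SR) / (1 + b / SR) with hp
  have ep' : p = b / (SR + b) := by rw [hp]; field_simp
  have p0 : 0 ≤ p := by rw [ep']; positivity
  have u1 := div_le' (b * b) (281474976710656 + b)
  have u2 := le_div' (b * b) (281474976710656 + b) hsb
  rw [eS] at u1 u2
  generalize b * b / (281474976710656 + b) = u at u1 u2 ⊢
  have eu : ((b * b : ℕ) : ℝ) / (SR + b) = b * p := by rw [ep']; push_cast; ring
  rw [eu] at u1 u2
  have v2 := le_div' ((u + 1) * b) (281474976710656 + b) hsb
  rw [eS] at v2
  generalize (u + 1) * b / (281474976710656 + b) = v at v2 ⊢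
  have ev : (((u + 1) * b : ℕ) : ℝ) / (SR + b) = (u + 1) * p := by rw [ep']; push_cast; ring
  rw [ev] at v2
  have v3 : b * p ^ 2 ≤ v + 1 := by nlinarith [mul_le_mul_of_nonneg_right u2 p0]
  have q1 := le_div' (199 * b + 136 * (v + 1)) 100 (by norm_num)
  have q2 := div_le' (269 * u) 100
  have q3 := sub_ge ((199 * b + 136 * (v + 1)) / 100 + 1) (269 * u / 100)
  generalize (199 * b + 136 * (v + 1)) / 100 + 1 - 269 * u / 100 = quad at q3 ⊢
  have hq : b * bq p ≤ quad := by
    push_cast at q1 q2 q3
    unfold bq; nlinarith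
  have a1 := div_le' (5399 * b) 10000
  have a2 := le_div' (2 * (u + 1)) 3 (by norm_num)
  generalize 5399 * b / 10000 = pos at a1 ⊢
  generalize 2 * (u + 1) / 3 = neg at a2 ⊢
  have hz : ((pos - (neg + 1) : ℕ) : ℝ) - ((neg + 1 - pos : ℕ) : ℝ) ≤ SR * (b / SR * aq p) := by
    have e : ((pos - (neg + 1) : ℕ) : ℝ) - ((neg + 1 - pos : ℕ) : ℝ) = pos - (neg + 1) := by
      rcases le_total pos (neg + 1) with h | h
      · rw [Nat.sub_eq_zero_of_le h, Nat.cast_sub h]; push_cast; ring
      · rw [Nat.sub_eq_zero_of_le h, Nat.cast_sub h]; push_cast; ring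
    have e2 : SR * (b / SR * aq p) = b * aq p := by field_simp
    rw [e, e2]
    push_cast at a1 a2
    unfold aq; nlinarith
  have hm := min_aux hS hz (Nat.cast_nonneg _) (Nat.cast_nonneg _) (by
    rcases le_total pos (neg + 1) with h | h
    · left; rw [Nat.sub_eq_zero_of_le h]; simp
    · right; rw [Nat.sub_eq_zero_of_le h]; simp) h1 h0 (Nat.cast_nonneg _) k10
  generalize pos - (neg + 1) = P at hm ⊢
  generalize neg + 1 - pos = N at hm ⊢
  have b1 := div_le' (P * c1) 2
  have b2 := le_div' (N * c0) 2 (by norm_num)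
  have b3 := le_div' (quad * c2) 2 (by norm_num)
  have b4 := sub_le_max ((281474976710656 + b) * m0 + P * c1 / 2) (N * c0 / 2 + 1 + (quad * c2 / 2 + 1))
  generalize (281474976710656 + b) * m0 + P * c1 / 2 - (N * c0 / 2 + 1 + (quad * c2 / 2 + 1)) = t
    at b4 ⊢
  have b5 := div_le' (t * 999999999) 281474976710656000000000
  set G := (1 + b / SR) * M + min (b / SR * aq p * k1) (b / SR * aq p * k0) / 2
    - b / SR * bq p * k2 / 2 with hG
  have b6 : (t : ℝ) ≤ SR ^ 2 * max 0 G := by
    rw [mul_max_of_nonneg _ _ (sq_nonneg SR), mul_zero]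
    refine b4.trans (max_le_max le_rfl ?_)
    rw [Nat.cast_add, Nat.cast_mul, eS]
    push_cast at b1 b2 b3 ⊢
    have c1' : (SR + b) * m0 ≤ (SR + b) * (SR * M) := by gcongr
    have c2' : b * bq p * (SR * k2) ≤ quad * c2 :=
      mul_le_mul hq h2 (by positivity) (Nat.cast_nonneg _)
    have e3 : SR ^ 2 * G = (SR + b) * (SR * M)
        + SR ^ 2 * min (b / SR * aq p * k1) (b / SR * aq p * k0) / 2
        - b * bq p * (SR * k2) / 2 := by rw [hG]; field_simp
    rw [e3]; linarith
  have e4 : max 0 (srcG M k1 k0 k2 (b / SR)) = (1 - ep) * max 0 G := by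
    rw [mul_max_of_nonneg _ _ (by linarith [ep_le] : 0 ≤ 1 - ep), mul_zero]; rfl
  rw [e4, div_le_iff₀ hS]
  refine b5.trans ?_
  push_cast
  unfold ep SR at *
  linarith

end Pool.Agent.MP_c26281_pr.Num

end

section

/-! Intermediate rows of the tree. -/

namespace Pool.Agent.MP_c26281_pr.Num

/-- row at time 1620 -/
noncomputable def L1 : List ℕ := [
  487903307144057112087384253, 375129194430542714438192568, 288841698904792677123380086,
  222860338856743506193514434, 172453196573428248687139660, 132492804537024479582383335,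
  101910827147603327590677341, 78517368490345916926669584, 60635644222993938204965250,
  46554370286286900027831443, 35775766632310169289984047, 27528185324085015659475619,
  21220733863672889855463075, 16283213018117553873109428, 12503128883234231646951974,
  9609916984973242182600916, 7396377123197010179163773, 5672615128027822670471136,
  4352752658978072923433616, 3342334820446237180251882, 2569023435588790461656453,
  1969500662835942959195514, 1510405296777976225143750, 1158887028923709760515862,
  889786486113708416941681, 681925744723982260010054, 522740268524381190699393,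
  400840815991129123620224, 307504367394058085608191, 235614842257476543759380,
  180556909018404687689482, 138391631280541009943727, 106102126810836391240601,
  81284398198191487257360, 62276618906288979272428, 47719008014835952842934,
  36570081498485129987364, 28013390091561297905840, 21459724633088034403865,
  16440262490860055339591, 12595920897286421093139, 9648152094989881460868,
  7390396851993235908028, 5661147328284195777409, 4336700367286427813799, 3321695091663141370909,
  2544277545974188156616, 1948835907278815442929, 1492775544443490869913, 1143372982144041904185,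
  875756192353508446550, 670781547004356779482, 513786404309467192602, 393525466075642747670,
  301414275339132550410, 230863787443516587630, 176827267056533233218, 135437252779336797982,
  103735476311885203547, 79454197351096039174, 60856489416743347941, 46611737327066297635,
  35701278978959189608, 27344650875155646380, 20944073915052668702, 16041663097843434463,
  12286767863650214474, 9410787353401625342, 7207992558357862381, 5520806788163382737,
  4228543459890175987, 3238762425630409785, 2480661156575738687, 1900009707814342333,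
  1455272377022768323, 1114635523524951617, 853732178343163611, 653898965786767197,
  500841123483691099, 383609865203776751, 293819205228067680, 225046077615029507,
  172370877477306320, 132025538246843987, 101123990865755246, 77455713046597308,
  59327603253258123, 45442866832318500, 34808251914442637, 26662998645373436, 20424419413208714,
  15646217166654867, 11986560260317974, 9183630066453673, 7036892197251369, 5392751603029539,
  4133565407020728, 3169227521914844, 2430723066171742, 1865191508806993, 1432145390119005,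
  1100574128559924, 846725738657738, 652407782359718, 503686012174945, 389887615695182,
  302837760318582, 236274829320094, 185402517144016, 146546749536818, 116892891736072,
  94284454596525, 77068907844097, 63979591188954, 54045306805328, 46521143352467, 40835605967468,
  36550251130435, 33328879335886, 30913997035295, 29108740069152, 27762955939310, 26762453075174,
  26020648017550, 25472094205989, 25067481168969, 24769775504312, 24551252672374, 24391222278932,
  24274290057543, 24189035328742, 24127008803030, 24081975933910, 24049347983323, 24025755721152,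
  24008731087049, 23996470225021, 23987657632632, 23981336006694, 23976810177114, 23973576378744,
  23971270304969, 23969629038970, 23968463222008, 23967636750833, 23967051999492, 23966639083402,
  23966348077835, 23966143389778, 23965999695836, 23965899015778, 23965828609195, 23965779466931,
  23965745231439, 23965721425418, 23965704902128, 23965693454410, 23965685537322, 23965680071532,
  23965676304531, 23965673712657, 23965671932270, 23965670711183, 23965669875010, 23965669303247,
  23965668912970, 23965668646772, 23965668465509, 23965668342223, 23965668258867, 23965668202041,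
  23965668163532, 23965668137450, 23965668120986, 23965668109062, 23965668101011, 23965668095578,
  23965668095233, 23965668092763, 23965668091097, 23965668089980, 23965668097986, 23965668097474,
  23965668097136, 23965668096907, 23965668118382, 23965668118274, 23965668118206, 23965668118158,
  23965668168232, 23965668168207, 23965668168195, 23965668168186, 23965668277222, 23965668277220,
  23965668277216, 23965668277216, 23965668500545, 23965668500543, 23965668500543, 23965668500543,
  23965668931787, 23965668931787, 23965668931787, 23965668931787, 23965669718600, 23965669718600,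
  23965669718600, 23965669718600, 23965671078420, 23965671078420, 23965671078420, 23965671078420,
  23965673310898, 23965673310898, 23965673310898, 23965673310898, 23965676803864, 23965676803864,
  23965676803864, 23965676803864]

/-- row at time 980 -/
noncomputable def L2 : List ℕ := [
  28535114032156702176006, 21913640237915312788744, 16845190978680853441507,
  12915317242219818024625, 9905850329083851431575, 7601442650037854440527,
  5837158467116285139999, 4473920237314339390731, 3429897140280862930198, 2630390978873093765219,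
  2018189480227792835816, 1546473210857794131223, 1185198346186825402437, 908518325083238948700,
  696636822302460112110, 533719743302024831999, 408942482184394177651, 313378606226527341351,
  240191178001144209624, 183999308319623740796, 140961539419983278143, 107999091935438493255,
  82753858424445508512, 63389615185137739917, 48558242381866687004, 37198772234152862267,
  28498583398300282269, 21829100412699339998, 16720807562835421277, 12808285073066974992,
  9811648465799201608, 7515269279683767650, 5756418694244197712, 4409278769831102933,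
  3377482170853056755, 2586961801431641917, 1981482266210627430, 1517731228145096820,
  1162534580026931782, 890430889535835450, 682019513829178969, 522391985763489237,
  400129495647225633, 306475393731125543, 234743233861266685, 179801731247430708,
  137720690970408001, 105487729839729902, 80799689983599361, 61890524233921700,
  47407567329854098, 36314356640826444, 27817841394281005, 21310210990780271, 16325926153680494,
  12508337783933355, 9584431353876763, 7345023027998682, 5629893008837686, 4316309851976913,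
  3310298190243017, 2539865963107949, 1949872390162068, 1498080964404438, 1152146458186359,
  887292231081885, 684541017459131, 529356968587259, 410607272692779, 319764268634341,
  250295974331477, 197198772144326, 156639752017577, 125682337382456, 102076397899219,
  84097421672855, 70423410655505, 60040580218287, 52171307574893, 46219068509343, 41726450726672,
  38342979982878, 35800451669278, 33894028829296, 32467612873741, 31402521809539, 30608761135247,
  30018274326238, 29579735949777, 29254543915427, 29013740491300, 28835655271235, 28704107819665,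
  28607041556036, 28535489357069, 28482793170590, 28444016922052, 28415506279082, 28394559170637,
  28379179956952, 28367896179036, 28359622565012, 28353559851086, 28349119953211, 28345870324604,
  28343493271928, 28341755487955, 28340485863162, 28339558671964, 28338881989764, 28338388418210,
  28338028771316, 28337766640966, 28337575782872, 28337436903810, 28337336169033, 28337262774511,
  28337209471588, 28337170786394, 28337143149161, 28337122815244, 28337108089159, 28337097432326,
  28337090389691, 28337084821679, 28337080801797, 28337077902000, 28337076833145, 28337075328053,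
  28337074245154, 28337073466728, 28337074439014, 28337074037899, 28337073750376, 28337073544485,
  28337075637317, 28337075532049, 28337075456894, 28337075403296, 28337078566522, 28337078539350,
  28337078520034, 28337078506318, 28337082973621, 28337082966750, 28337082961884, 28337082958449,
  28337089094171, 28337089092553, 28337089091413, 28337089090612]

/-- row at time 1 -/
noncomputable def L3 : List ℕ := [
  510236181205238, 443379551419300, 395120650233251]

end Pool.Agent.MP_c26281_pr.Num

end

section

/-! Kernel evaluation of a part of the tree. -/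

namespace Pool.Agent.MP_c26281_pr.Num

theorem ok1 : leL L1 ((grp 40 4 240 2260 (List.replicate 261 (plus 2260))).drop 40) = true := by
  decide +kernel

end Pool.Agent.MP_c26281_pr.Num

end

section

/-! Kernel evaluation of a part of the tree. -/

namespace Pool.Agent.MP_c26281_pr.Num

theorem ok2 : leL L2 ((grp 40 4 200 1620 L1).drop 70) = true := by
  decide +kernel

end Pool.Agent.MP_c26281_pr.Num

end

section

/-! Kernel evaluation of a part of the tree. -/

namespace Pool.Agent.MP_c26281_pr.Num

theorem ok3 : leL L3 (fl (grp 40 3 130 980 L2) fun W => fl (grp 40 3 90 620 (W.drop 40)) fun W =>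
    fl (grp 56 2 50 260 (W.drop 40)) fun W =>
    (grp 35 1 16 36 ((W.drop 34).take 33)).drop 15) = true := by
  decide +kernel

end Pool.Agent.MP_c26281_pr.Num

end
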