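import Mathlib
import Pool.Agent.Mg.Fc26281.G8ddcf4
import Pool.Agent.MP_c26281_pr.Defs

section

/-! Shifts on product spaces and the reverse Minkowski inequality. -/

open MeasureTheory ProbabilityTheory
open scoped ENNReal

namespace Pool.Agent.MP_c26281_pr

/-- shift -/
def sh {α : Type*} (r : ℕ) (x : ℕ → α) : ℕ → α := fun i => x (r + i)

/-- product measure -/
noncomputable abbrev PP {α : Type*} [MeasurableSpace α] (μ : Measure α) : Measure (ℕ → α) :=
  Measure.infinitePi fun _ : ℕ => μ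

theorem sh_sh {α : Type*} (a b : ℕ) (x : ℕ → α) : sh a (sh b x) = sh (b + a) x := by
  funext i; simp [sh, add_assoc]

theorem sh_zero {α : Type*} (x : ℕ → α) : sh 0 x = x := by
  funext i; simp [sh]

@[fun_prop] theorem measurable_sh {α : Type*} [MeasurableSpace α] (r : ℕ) :
    Measurable (sh r : (ℕ → α) → ℕ → α) := by
  unfold sh; fun_prop

section
variable {α : Type*} [MeasurableSpace α] (μ : Measure α) [IsProbabilityMeasure μ]

theorem indep_ev : iIndepFun (fun (i : ℕ) (x : ℕ → α) => x i) (PP μ) :=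
  iIndepFun_infinitePi (X := fun _ x => x) (fun _ => measurable_id)

theorem map_sh (r : ℕ) : (PP μ).map (sh r) = PP μ := by
  have h := (indep_ev μ).precomp (g := fun i => r + i) (add_right_injective r)
  have h2 := h.map_fun_eq_infinitePi_map (fun i => measurable_pi_apply _)
  have : (sh r : (ℕ → α) → ℕ → α) = fun ω i => ω (r + i) := rfl
  rw [this, h2]
  congr 1
  funext i
  exact Measure.infinitePi_map_eval _ _

theorem mp_sh (r : ℕ) : MeasurePreserving (sh r) (PP μ) (PP μ) :=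
  ⟨measurable_sh r, map_sh μ r⟩

theorem indep_sh {β : Type*} [MeasurableSpace β] (r : ℕ) (H : (ℕ → α) → β) (hH : Measurable H)
    (hdep : ∀ x y, (∀ i < r, x i = y i) → H x = H y) : IndepFun H (sh r) (PP μ) := by
  classical
  obtain ⟨a0⟩ : Nonempty α := μ.nonempty_of_neZero
  have hi := (iIndepFun_iff_iIndep _ _ _).1 (indep_ev μ)
  have hd : Disjoint (Set.Iio r) (Set.Ici r) := by
    rw [Set.disjoint_left]; intro a ha hb; simp at ha hb; omega
  have h := indep_iSup_of_disjoint (fun i => (measurable_pi_apply i).comap_le) hi hd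
  rw [IndepFun_iff_Indep]
  refine indep_of_indep_of_le_right (indep_of_indep_of_le_left h ?_) ?_
  · have e : H = H ∘ fun x i => if i < r then x i else a0 := by
      funext x
      exact hdep _ _ (fun i hi => by simp [hi])
    rw [e]
    refine Measurable.comap_le (hH.comp ?_)
    refine @measurable_pi_lambda _ _ _ (_) _ _ fun i => ?_
    by_cases hi : i < r
    · simp only [hi, if_true]
      refine Measurable.of_comap_le ?_
      exact le_iSup₂_of_le (f := fun (j : ℕ) (_ : j ∈ Set.Iio r) =>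
        MeasurableSpace.comap (fun x : ℕ → α => x j) inferInstance) i hi le_rfl
    · simp only [hi, if_false]; exact measurable_const
  · refine Measurable.comap_le ?_
    refine @measurable_pi_lambda _ _ _ (_) _ _ fun i => ?_
    refine Measurable.of_comap_le ?_
    exact le_iSup₂_of_le (f := fun (j : ℕ) (_ : j ∈ Set.Ici r) =>
      MeasurableSpace.comap (fun x : ℕ → α => x j) inferInstance) (r + i) (by simp) le_rfl

theorem split {β : Type*} [MeasurableSpace β] (r : ℕ) (H : (ℕ → α) → β) (hH : Measurable H)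
    (hdep : ∀ x y, (∀ i < r, x i = y i) → H x = H y) (G : β × (ℕ → α) → ℝ≥0∞)
    (hG : Measurable G) :
    ∫⁻ x, G (H x, sh r x) ∂(PP μ) = ∫⁻ x, ∫⁻ y, G (H x, y) ∂(PP μ) ∂(PP μ) := by
  have h1 := (indep_sh μ r H hH hdep).map_prod_eq_prod_map_map hH.aemeasurable
    (measurable_sh r).aemeasurable
  rw [map_sh] at h1
  have h2 : ∫⁻ x, G (H x, sh r x) ∂(PP μ) = ∫⁻ z, G z ∂((PP μ).map fun x => (H x, sh r x)) := by
    rw [lintegral_map hG (by fun_prop)]
  rw [h2, h1, lintegral_prod _ hG.aemeasurable, lintegral_map _ hH]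
  exact hG.lintegral_prod_right'

end

/-- the exponent -/
noncomputable def th : ℝ := 2 / 3

theorem th_pos : 0 < th := by unfold th; norm_num
theorem th_lt : th < 1 := by unfold th; norm_num

/-- `a` is a lower bound for the `L^(2/3)` norm of `F` -/
def LB {Ω : Type*} [MeasurableSpace Ω] (P : Measure Ω) (a : ℝ) (F : Ω → ℝ) : Prop :=
  ENNReal.ofReal (a ^ th) ≤ ∫⁻ x, ENNReal.ofReal (F x ^ th) ∂P

section
variable {Ω : Type*} [MeasurableSpace Ω] {P : Measure Ω}

theorem LB.mono {a b : ℝ} {F G : Ω → ℝ} (h : LB P a F) (hb : 0 ≤ b) (hba : b ≤ a)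
    (hF : ∀ x, 0 ≤ F x) (hFG : ∀ x, F x ≤ G x) : LB P b G := by
  refine le_trans (ENNReal.ofReal_le_ofReal (Real.rpow_le_rpow hb hba th_pos.le)) (h.trans ?_)
  exact lintegral_mono fun x =>
    ENNReal.ofReal_le_ofReal (Real.rpow_le_rpow (hF x) (hFG x) th_pos.le)

theorem LB.zero (F : Ω → ℝ) : LB P 0 F := by
  unfold LB; rw [Real.zero_rpow th_pos.ne']; simp

theorem LB.smul {a c : ℝ} {F : Ω → ℝ} (h : LB P a F) (ha : 0 ≤ a) (hc : 0 ≤ c)
    (hF : ∀ x, 0 ≤ F x) : LB P (c * a) (fun x => c * F x) := by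
  unfold LB at *
  have e : ∀ x, ENNReal.ofReal ((c * F x) ^ th)
      = ENNReal.ofReal (c ^ th) * ENNReal.ofReal (F x ^ th) := fun x => by
    rw [Real.mul_rpow hc (hF x), ENNReal.ofReal_mul (Real.rpow_nonneg hc _)]
  simp_rw [e]
  rw [lintegral_const_mul' _ _ ENNReal.ofReal_ne_top, Real.mul_rpow hc ha,
    ENNReal.ofReal_mul (Real.rpow_nonneg hc _)]
  gcongr

theorem LB.add {a b : ℝ} {F G : Ω → ℝ} (hA : LB P a F) (hB : LB P b G) (ha : 0 ≤ a) (hb : 0 ≤ b)
    (hF : ∀ x, 0 ≤ F x) (hG : ∀ x, 0 ≤ G x) (mF : Measurable F) :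
    LB P (a + b) (fun x => F x + G x) := by
  rcases ha.eq_or_lt with rfl | ha
  · exact hB.mono (by simpa using hb) (by simp) hG (fun x => by linarith [hF x])
  rcases hb.eq_or_lt with rfl | hb
  · exact hA.mono (by simpa using ha.le) (by simp) hF (fun x => by linarith [hG x])
  have hs : 0 < a + b := by linarith
  set c1 : ℝ := (a + b) ^ th * (a / (a + b)) / a ^ th with hc1
  set c2 : ℝ := (a + b) ^ th * (b / (a + b)) / b ^ th with hc2
  have pa : 0 < a ^ th := Real.rpow_pos_of_pos ha _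
  have pb : 0 < b ^ th := Real.rpow_pos_of_pos hb _
  have ps : 0 < (a + b) ^ th := Real.rpow_pos_of_pos hs _
  have c1p : 0 ≤ c1 := by positivity
  have c2p : 0 ≤ c2 := by positivity
  have key : ∀ x, c1 * F x ^ th + c2 * G x ^ th ≤ (F x + G x) ^ th := by
    intro x
    have hc := (Real.concaveOn_rpow th_pos.le th_lt.le).2
      (show F x / a ∈ Set.Ici (0:ℝ) from div_nonneg (hF x) ha.le)
      (show G x / b ∈ Set.Ici (0:ℝ) from div_nonneg (hG x) hb.le)
      (show 0 ≤ a / (a + b) by positivity) (show 0 ≤ b / (a + b) by positivity) (by field_simp)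
    simp only [smul_eq_mul] at hc
    have e1 : a / (a + b) * (F x / a) + b / (a + b) * (G x / b) = (F x + G x) / (a + b) := by
      field_simp
    rw [e1, Real.div_rpow (hF x) ha.le, Real.div_rpow (hG x) hb.le,
      Real.div_rpow (add_nonneg (hF x) (hG x)) hs.le, le_div_iff₀ ps] at hc
    refine le_trans (le_of_eq ?_) hc
    rw [hc1, hc2]; field_simp
  unfold LB at *
  have e0 : (a + b) ^ th = c1 * a ^ th + c2 * b ^ th := by
    rw [hc1, hc2]; field_simp
  calc ENNReal.ofReal ((a + b) ^ th)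
      = ENNReal.ofReal c1 * ENNReal.ofReal (a ^ th) + ENNReal.ofReal c2 * ENNReal.ofReal (b ^ th) := by
        rw [e0, ENNReal.ofReal_add (by positivity) (by positivity), ENNReal.ofReal_mul c1p,
          ENNReal.ofReal_mul c2p]
    _ ≤ ENNReal.ofReal c1 * ∫⁻ x, ENNReal.ofReal (F x ^ th) ∂P
        + ENNReal.ofReal c2 * ∫⁻ x, ENNReal.ofReal (G x ^ th) ∂P := by gcongr
    _ = ∫⁻ x, (ENNReal.ofReal c1 * ENNReal.ofReal (F x ^ th)
        + ENNReal.ofReal c2 * ENNReal.ofReal (G x ^ th)) ∂P := by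
        rw [lintegral_add_left (by fun_prop), lintegral_const_mul' _ _ ENNReal.ofReal_ne_top,
          lintegral_const_mul' _ _ ENNReal.ofReal_ne_top]
    _ ≤ _ := by
        refine lintegral_mono fun x => ?_
        have h1 := Real.rpow_nonneg (hF x) th
        have h2 := Real.rpow_nonneg (hG x) th
        rw [← ENNReal.ofReal_mul c1p, ← ENNReal.ofReal_mul c2p,
          ← ENNReal.ofReal_add (by positivity) (by positivity)]
        exact ENNReal.ofReal_le_ofReal (key x)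

theorem LB.sum {ι : Type*} (s : Finset ι) {a : ι → ℝ} {F : ι → Ω → ℝ}
    (h : ∀ i ∈ s, LB P (a i) (F i)) (ha : ∀ i ∈ s, 0 ≤ a i) (hF : ∀ i ∈ s, ∀ x, 0 ≤ F i x)
    (mF : ∀ i ∈ s, Measurable (F i)) : LB P (∑ i ∈ s, a i) (fun x => ∑ i ∈ s, F i x) := by
  classical
  induction s using Finset.induction_on with
  | empty => simpa using LB.zero _
  | insert i s hi ih =>
    simp only [Finset.sum_insert hi]
    have m : ∀ j ∈ s, j ∈ insert i s := fun j hj => Finset.mem_insert_of_mem hj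
    have m0 := Finset.mem_insert_self i s
    exact (h i m0).add (ih (fun j hj => h j (m j hj)) (fun j hj => ha j (m j hj))
      (fun j hj => hF j (m j hj)) (fun j hj => mF j (m j hj))) (ha i m0)
      (Finset.sum_nonneg fun j hj => ha j (m j hj)) (hF i m0)
      (fun x => Finset.sum_nonneg fun j hj => hF j (m j hj) x) (mF i m0)

end

/-- product of a function of the first `r` coordinates with a shifted function -/
theorem LB.mul_sh {α : Type*} [MeasurableSpace α] (μ : Measure α) [IsProbabilityMeasure μ]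
    (r : ℕ) {a : ℝ} {H V : (ℕ → α) → ℝ} (hH : Measurable H) (hV : Measurable V)
    (hdep : ∀ x y, (∀ i < r, x i = y i) → H x = H y) (H0 : ∀ x, 0 ≤ H x) (V0 : ∀ x, 0 ≤ V x)
    (h1 : LB (PP μ) a H) (h2 : LB (PP μ) 1 V) : LB (PP μ) a (fun x => H x * V (sh r x)) := by
  unfold LB at *
  have e := split μ r H hH hdep
    (fun z => ENNReal.ofReal (z.1 ^ th) * ENNReal.ofReal (V z.2 ^ th)) (by fun_prop)
  have e2 : ∀ x, ENNReal.ofReal ((H x * V (sh r x)) ^ th)
      = ENNReal.ofReal (H x ^ th) * ENNReal.ofReal (V (sh r x) ^ th) := fun x => by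
    rw [Real.mul_rpow (H0 x) (V0 _), ENNReal.ofReal_mul (Real.rpow_nonneg (H0 x) _)]
  simp_rw [e2]
  rw [e]
  refine h1.trans (lintegral_mono fun x => ?_)
  dsimp only
  rw [lintegral_const_mul' _ _ ENNReal.ofReal_ne_top]
  rw [Real.one_rpow, ENNReal.ofReal_one] at h2
  calc ENNReal.ofReal (H x ^ th) = ENNReal.ofReal (H x ^ th) * 1 := (mul_one _).symm
    _ ≤ _ := by gcongr

end Pool.Agent.MP_c26281_pr

end

section

/-! Polynomial minorants of `t ↦ (a + b exp (-d t))^(2/3)`. -/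

namespace Pool.Agent.MP_c26281_pr

theorem rolle_card (f f' : ℝ → ℝ) (hd : ∀ x, HasDerivAt f (f' x) x) (s : Finset ℝ)
    (hs : ∀ x ∈ s, f x = 0) :
    ∃ t : Finset ℝ, (∀ x ∈ t, f' x = 0) ∧ Disjoint t s ∧ s.card ≤ t.card + 1 ∧
      ∀ x ∈ t, ∃ y ∈ s, x < y := by
  classical
  induction s using Finset.induction_on_max with
  | empty => exact ⟨∅, by simp, by simp, by simp, by simp⟩
  | insert a s ha ih =>
    obtain ⟨t, h1, h2, h3, h4⟩ := ih (fun x hx => hs x (Finset.mem_insert_of_mem hx))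
    have hna : a ∉ s := fun h => lt_irrefl _ (ha a h)
    rcases s.eq_empty_or_nonempty with rfl | hne
    · exact ⟨∅, by simp, by simp, by simp, by simp⟩
    have hm := s.max'_mem hne
    have hma := ha _ hm
    obtain ⟨z, hz, hz0⟩ := exists_hasDerivAt_eq_zero (f := f) (f' := f') hma
      (fun x _ => (hd x).continuousAt.continuousWithinAt)
      (by rw [hs _ (Finset.mem_insert_of_mem hm), hs _ (Finset.mem_insert_self _ _)])
      (fun x _ => hd x)
    have hlt : ∀ x ∈ t, x < z := fun x hx => by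
      obtain ⟨y, hy, hxy⟩ := h4 x hx
      exact hxy.trans ((s.le_max' y hy).trans_lt hz.1)
    have hzt : z ∉ t := fun h => lt_irrefl _ (hlt z h)
    refine ⟨insert z t, ?_, ?_, ?_, ?_⟩
    · intro x hx
      rcases Finset.mem_insert.1 hx with rfl | hx
      · exact hz0
      · exact h1 x hx
    · rw [Finset.disjoint_left]
      intro x hx hx2
      rcases Finset.mem_insert.1 hx with rfl | hx
      · rcases Finset.mem_insert.1 hx2 with h | h
        · exact absurd hz.2 (by rw [h]; exact lt_irrefl _)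
        · exact absurd ((s.le_max' x h).trans_lt hz.1) (lt_irrefl _)
      · rcases Finset.mem_insert.1 hx2 with h | h
        · exact absurd ((hlt x hx).trans hz.2) (by rw [h]; exact lt_irrefl _)
        · exact Finset.disjoint_left.1 h2 hx h
    · rw [Finset.card_insert_of_notMem hna, Finset.card_insert_of_notMem hzt]; omega
    · intro x hx
      refine ⟨a, Finset.mem_insert_self _ _, ?_⟩
      rcases Finset.mem_insert.1 hx with rfl | hx
      · exact hz.2
      · exact (hlt x hx).trans hz.2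

/-- double zeros at `-1, 0, 1` and a nonnegative sixth derivative -/
theorem herm_nonneg (g0 g1 g2 g3 g4 g5 g6 : ℝ → ℝ) (d0 : ∀ x, HasDerivAt g0 (g1 x) x)
    (d1 : ∀ x, HasDerivAt g1 (g2 x) x) (d2 : ∀ x, HasDerivAt g2 (g3 x) x)
    (d3 : ∀ x, HasDerivAt g3 (g4 x) x) (d4 : ∀ x, HasDerivAt g4 (g5 x) x)
    (d5 : ∀ x, HasDerivAt g5 (g6 x) x) (h6 : ∀ x, 0 ≤ g6 x)
    (a0 : g0 (-1) = 0) (b0 : g0 0 = 0) (c0 : g0 1 = 0)
    (a1 : g1 (-1) = 0) (b1 : g1 0 = 0) (c1 : g1 1 = 0) (y : ℝ) : 0 ≤ g0 y := by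
  classical
  by_cases hy : y = -1 ∨ y = 0 ∨ y = 1
  · rcases hy with rfl | rfl | rfl <;> simp [*]
  push Not at hy
  obtain ⟨y1, y2, y3⟩ := hy
  have hW : 0 < (y ^ 3 - y) ^ 2 := by
    have : y ^ 3 - y ≠ 0 := by
      have : y ^ 3 - y = y * (y - 1) * (y + 1) := by ring
      rw [this]
      exact mul_ne_zero (mul_ne_zero y2 (sub_ne_zero.2 y3)) (fun h => y1 (by linarith))
    positivity
  set c := g0 y / (y ^ 3 - y) ^ 2 with hc
  have p0 : ∀ x, HasDerivAt (fun x => g0 x - c * (x ^ 6 - 2 * x ^ 4 + x ^ 2))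
      (g1 x - c * (6 * x ^ 5 - 8 * x ^ 3 + 2 * x)) x := fun x =>
    ((d0 x).sub ((((hasDerivAt_pow 6 x).sub ((hasDerivAt_pow 4 x).const_mul 2)).add
      (hasDerivAt_pow 2 x)).const_mul c)).congr_deriv (by norm_num; left; ring)
  have p1 : ∀ x, HasDerivAt (fun x => g1 x - c * (6 * x ^ 5 - 8 * x ^ 3 + 2 * x))
      (g2 x - c * (30 * x ^ 4 - 24 * x ^ 2 + 2)) x := fun x =>
    ((d1 x).sub (((((hasDerivAt_pow 5 x).const_mul 6).sub ((hasDerivAt_pow 3 x).const_mul 8)).add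
      ((hasDerivAt_id x).const_mul 2)).const_mul c)).congr_deriv (by norm_num; left; ring)
  have p2 : ∀ x, HasDerivAt (fun x => g2 x - c * (30 * x ^ 4 - 24 * x ^ 2 + 2))
      (g3 x - c * (120 * x ^ 3 - 48 * x)) x := fun x =>
    ((d2 x).sub (((((hasDerivAt_pow 4 x).const_mul 30).sub
      ((hasDerivAt_pow 2 x).const_mul 24)).add_const 2).const_mul c)).congr_deriv
      (by norm_num; left; ring)
  have p3 : ∀ x, HasDerivAt (fun x => g3 x - c * (120 * x ^ 3 - 48 * x))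
      (g4 x - c * (360 * x ^ 2 - 48)) x := fun x =>
    ((d3 x).sub ((((hasDerivAt_pow 3 x).const_mul 120).sub
      ((hasDerivAt_id x).const_mul 48)).const_mul c)).congr_deriv (by norm_num; left; ring)
  have p4 : ∀ x, HasDerivAt (fun x => g4 x - c * (360 * x ^ 2 - 48))
      (g5 x - c * (720 * x)) x := fun x =>
    ((d4 x).sub ((((hasDerivAt_pow 2 x).const_mul 360).sub_const 48).const_mul c)).congr_deriv
      (by norm_num; left; ring)
  have p5 : ∀ x, HasDerivAt (fun x => g5 x - c * (720 * x)) (g6 x - c * 720) x := fun x =>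
    ((d5 x).sub (((hasDerivAt_id x).const_mul 720).const_mul c)).congr_deriv (by norm_num)
  obtain ⟨t1, z1, dj, n1, -⟩ := rolle_card _ _ p0 {y, -1, 0, 1} (by
    intro x hx
    simp only [Finset.mem_insert, Finset.mem_singleton] at hx
    rcases hx with rfl | rfl | rfl | rfl
    · have : x ^ 6 - 2 * x ^ 4 + x ^ 2 = (x ^ 3 - x) ^ 2 := by ring
      rw [this, hc, div_mul_cancel₀ _ hW.ne', sub_self]
    · rw [a0]; norm_num
    · rw [b0]; norm_num
    · rw [c0]; norm_num)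
  have c3 : ({-1, 0, 1} : Finset ℝ).card = 3 := by
    rw [Finset.card_eq_three]; exact ⟨-1, 0, 1, by norm_num, by norm_num, by norm_num, rfl⟩
  have c4 : ({y, -1, 0, 1} : Finset ℝ).card = 4 := by
    rw [Finset.card_insert_of_notMem (by simp [y1, y2, y3]), c3]
  have dj2 : Disjoint t1 ({-1, 0, 1} : Finset ℝ) :=
    dj.mono_right (Finset.subset_insert _ _)
  obtain ⟨t2, z2, -, n2, -⟩ := rolle_card _ _ p1 (t1 ∪ {-1, 0, 1}) (by
    intro x hx
    rcases Finset.mem_union.1 hx with hx | hx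
    · exact z1 x hx
    · simp only [Finset.mem_insert, Finset.mem_singleton] at hx
      rcases hx with rfl | rfl | rfl
      · rw [a1]; norm_num
      · rw [b1]; norm_num
      · rw [c1]; norm_num)
  rw [Finset.card_union_of_disjoint dj2, c3] at n2
  obtain ⟨t3, z3, -, n3, -⟩ := rolle_card _ _ p2 t2 z2
  obtain ⟨t4, z4, -, n4, -⟩ := rolle_card _ _ p3 t3 z3
  obtain ⟨t5, z5, -, n5, -⟩ := rolle_card _ _ p4 t4 z4
  obtain ⟨t6, z6, -, n6, -⟩ := rolle_card _ _ p5 t5 z5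
  obtain ⟨x, hx⟩ : t6.Nonempty := Finset.card_pos.1 (by omega)
  have h1 := z6 x hx
  have h2 := h6 x
  have h3 : 0 ≤ c := by linarith
  have : g0 y = c * (y ^ 3 - y) ^ 2 := by rw [hc, div_mul_cancel₀ _ hW.ne']
  rw [this]; positivity

theorem conv_nonneg (g0 g1 g2 : ℝ → ℝ) (d0 : ∀ x, HasDerivAt g0 (g1 x) x)
    (d1 : ∀ x, HasDerivAt g1 (g2 x) x) (h2 : ∀ x, 0 ≤ g2 x) (a0 : g0 0 = 0) (a1 : g1 0 = 0)
    (y : ℝ) : 0 ≤ g0 y := by
  have m1 : Monotone g1 := monotone_of_deriv_nonneg (fun x => (d1 x).differentiableAt)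
    (fun x => by rw [(d1 x).deriv]; exact h2 x)
  rcases lt_trichotomy y 0 with hy | rfl | hy
  · obtain ⟨z, hz, e⟩ := exists_hasDerivAt_eq_slope g0 g1 hy
      (fun x _ => (d0 x).continuousAt.continuousWithinAt) (fun x _ => d0 x)
    have : g1 z ≤ 0 := by rw [← a1]; exact m1 hz.2.le
    rw [e, a0, div_nonpos_iff] at this
    rcases this with h | h <;> linarith [h.1, h.2]
  · rw [a0]
  · obtain ⟨z, hz, e⟩ := exists_hasDerivAt_eq_slope g0 g1 hy
      (fun x _ => (d0 x).continuousAt.continuousWithinAt) (fun x _ => d0 x)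
    have : 0 ≤ g1 z := by rw [← a1]; exact m1 hz.1.le
    rw [e, a0, div_nonneg_iff] at this
    rcases this with h | h <;> linarith [h.1, h.2]

/-- the basic terms -/
noncomputable def TT (a b d : ℝ) (j : ℕ) (t : ℝ) : ℝ :=
  b ^ j * Real.exp (-d * j * t) * (a + b * Real.exp (-d * t)) ^ (th - j)

section
variable {a b d : ℝ} (ha : 0 ≤ a) (hb : 0 ≤ b) (hab : 0 < a + b)
include ha hb hab

theorem S_pos (t : ℝ) : 0 < a + b * Real.exp (-d * t) := by
  have := Real.exp_pos (-d * t)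
  rcases ha.eq_or_lt with rfl | h
  · have : 0 < b := by linarith
    positivity
  · positivity

theorem TT_deriv (j : ℕ) (t : ℝ) :
    HasDerivAt (TT a b d j) (-d * (j * TT a b d j t + (th - j) * TT a b d (j + 1) t)) t := by
  have hS := S_pos (d := d) ha hb hab t
  have e1 : HasDerivAt (fun t => Real.exp (-d * j * t)) (Real.exp (-d * j * t) * (-d * j)) t :=
    (((hasDerivAt_id t).const_mul (-d * j)).exp).congr_deriv (by simp)
  have e2 : HasDerivAt (fun t => a + b * Real.exp (-d * t)) (b * (Real.exp (-d * t) * (-d))) t :=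
    (((((hasDerivAt_id t).const_mul (-d)).exp).const_mul b).const_add a).congr_deriv (by simp)
  have e3 := e2.rpow_const (p := th - j) (Or.inl hS.ne')
  refine ((e1.const_mul (b ^ j)).mul e3).congr_deriv ?_
  unfold TT
  have x1 : Real.exp (-d * ((j + 1 : ℕ) : ℝ) * t) = Real.exp (-d * j * t) * Real.exp (-d * t) := by
    rw [← Real.exp_add]; congr 1; push_cast; ring
  have x2 : th - ((j + 1 : ℕ) : ℝ) = th - j - 1 := by push_cast; ring
  rw [x1, x2]; ring

theorem TT_eq (j : ℕ) (t : ℝ) : TT a b d j t = (a + b * Real.exp (-d * t)) ^ th *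
    (b * Real.exp (-d * t) / (a + b * Real.exp (-d * t))) ^ j := by
  have hS := S_pos (d := d) ha hb hab t
  unfold TT
  have x1 : Real.exp (-d * j * t) = Real.exp (-d * t) ^ j := by
    rw [← Real.exp_nat_mul]; congr 1; ring
  rw [Real.rpow_sub hS, Real.rpow_natCast, x1, div_pow, mul_pow]; field_simp

/-- combinations -/
noncomputable def Lc (a b d c0 c1 c2 c3 c4 c5 c6 t : ℝ) : ℝ :=
  c0 * TT a b d 0 t + c1 * TT a b d 1 t + c2 * TT a b d 2 t + c3 * TT a b d 3 t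
    + c4 * TT a b d 4 t + c5 * TT a b d 5 t + c6 * TT a b d 6 t

theorem Lc_deriv (c0 c1 c2 c3 c4 c5 t : ℝ) :
    HasDerivAt (Lc a b d c0 c1 c2 c3 c4 c5 0)
      (Lc a b d 0 (-d * (c1 + 2 / 3 * c0)) (-d * (2 * c2 - 1 / 3 * c1))
        (-d * (3 * c3 - 4 / 3 * c2)) (-d * (4 * c4 - 7 / 3 * c3)) (-d * (5 * c5 - 10 / 3 * c4))
        (-d * (-13 / 3 * c5)) t) t := by
  have h := fun j => TT_deriv (d := d) ha hb hab j t
  have := (((((((h 0).const_mul c0).add ((h 1).const_mul c1)).add ((h 2).const_mul c2)).add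
    ((h 3).const_mul c3)).add ((h 4).const_mul c4)).add ((h 5).const_mul c5)).add
    ((h 6).const_mul 0)
  refine this.congr_deriv ?_
  unfold Lc th; push_cast; ring

theorem Lc_eq (c0 c1 c2 c3 c4 c5 c6 t : ℝ) : ∃ p : ℝ, 0 ≤ p ∧ p ≤ 1 ∧
    p = b * Real.exp (-d * t) / (a + b * Real.exp (-d * t)) ∧
    Lc a b d c0 c1 c2 c3 c4 c5 c6 t = (a + b * Real.exp (-d * t)) ^ th *
      (c0 + c1 * p + c2 * p ^ 2 + c3 * p ^ 3 + c4 * p ^ 4 + c5 * p ^ 5 + c6 * p ^ 6) := by
  have hS := S_pos (d := d) ha hb hab t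
  have := Real.exp_pos (-d * t)
  refine ⟨_, by positivity, (div_le_one hS).2 (by linarith), rfl, ?_⟩
  unfold Lc
  simp only [TT_eq ha hb hab]
  ring

end

theorem poly4 {p : ℝ} (_h0 : 0 ≤ p) (h1 : p ≤ 1) :
    0 ≤ 2 / 3 - 14 / 9 * p + 16 / 9 * p ^ 2 - 56 / 81 * p ^ 3 := by
  nlinarith [mul_nonneg _h0 (sub_nonneg.2 h1), sq_nonneg (p - 1 / 2),
    mul_nonneg (sub_nonneg.2 h1) (sq_nonneg p), mul_nonneg (sub_nonneg.2 h1) (sq_nonneg (p - 2 / 3))]

theorem poly6 {p : ℝ} (h0 : 0 ≤ p) (h1 : p ≤ 1) :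
    0 ≤ 2 / 3 - 62 / 9 * p + 80 / 3 * p ^ 2 - 3640 / 81 * p ^ 3 + 2800 / 81 * p ^ 4
      - 7280 / 729 * p ^ 5 := by
  rcases le_total p (1 / 3) with h | h
  · obtain ⟨v, hv, rfl⟩ : ∃ v, 0 ≤ v ∧ p = 1 / 3 - v := ⟨1 / 3 - p, by linarith, by ring⟩
    obtain ⟨u, hu, e⟩ : ∃ u, 0 ≤ u ∧ u = 1 / 3 - v := ⟨_, h0, rfl⟩
    have : 0 ≤ 162 / 1 * u ^ 0 * v ^ 5 + 252 / 1 * u ^ 1 * v ^ 4 + 108 / 1 * u ^ 2 * v ^ 3 + 248 / 9 * u ^ 3 * v ^ 2 + 886 / 27 * u ^ 4 * v ^ 1 + 9676 / 729 * u ^ 5 * v ^ 0 := by positivity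
    refine this.trans (le_of_eq ?_)
    rw [e]; ring
  · obtain ⟨v, hv, rfl⟩ : ∃ v, 0 ≤ v ∧ p = 1 - v := ⟨1 - p, by linarith, by ring⟩
    obtain ⟨u, hu, e⟩ : ∃ u, 0 ≤ u ∧ u = 2 / 3 - v := ⟨_, by linarith, rfl⟩
    have : 0 ≤ 2419 / 5832 * u ^ 0 * v ^ 5 + 2027 / 486 * u ^ 1 * v ^ 4 + 5237 / 324 * u ^ 2 * v ^ 3 + 283 / 54 * u ^ 3 * v ^ 2 + 251 / 72 * u ^ 4 * v ^ 1 + 2 / 3 * u ^ 5 * v ^ 0 := by positivity
    refine this.trans (le_of_eq ?_)
    rw [e]; ring

/-- polynomials of degree five -/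
def P5 (c0 c1 c2 c3 c4 c5 t : ℝ) : ℝ :=
  c0 + c1 * t + c2 * t ^ 2 + c3 * t ^ 3 + c4 * t ^ 4 + c5 * t ^ 5

theorem P5_deriv (c0 c1 c2 c3 c4 c5 t : ℝ) :
    HasDerivAt (P5 c0 c1 c2 c3 c4 c5) (P5 c1 (2 * c2) (3 * c3) (4 * c4) (5 * c5) 0 t) t := by
  have := (((((hasDerivAt_const t c0).add ((hasDerivAt_id t).const_mul c1)).add
    ((hasDerivAt_pow 2 t).const_mul c2)).add ((hasDerivAt_pow 3 t).const_mul c3)).add
    ((hasDerivAt_pow 4 t).const_mul c4)).add ((hasDerivAt_pow 5 t).const_mul c5)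
  refine this.congr_deriv ?_
  unfold P5; norm_num; ring

theorem herm_gen (g0 g1 g2 g3 g4 g5 g6 : ℝ → ℝ) (d0 : ∀ x, HasDerivAt g0 (g1 x) x)
    (d1 : ∀ x, HasDerivAt g1 (g2 x) x) (d2 : ∀ x, HasDerivAt g2 (g3 x) x)
    (d3 : ∀ x, HasDerivAt g3 (g4 x) x) (d4 : ∀ x, HasDerivAt g4 (g5 x) x)
    (d5 : ∀ x, HasDerivAt g5 (g6 x) x) (h6 : ∀ x, 0 ≤ g6 x) (t : ℝ) :
    P5 (g0 0) (g1 0) (g0 1 + g0 (-1) - 2 * g0 0 + (g1 (-1) - g1 1) / 4)
      (5 / 4 * (g0 1 - g0 (-1)) - 2 * g1 0 - (g1 (-1) + g1 1) / 4)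
      (g0 0 - (g0 1 + g0 (-1)) / 2 + (g1 1 - g1 (-1)) / 4)
      (3 / 4 * (g0 (-1) - g0 1) + g1 0 + (g1 (-1) + g1 1) / 4) t ≤ g0 t := by
  rw [← sub_nonneg]
  refine herm_nonneg _ _ _ _ _ _ _
    (fun x => (d0 x).sub (P5_deriv _ _ _ _ _ _ x)) (fun x => (d1 x).sub (P5_deriv _ _ _ _ _ _ x))
    (fun x => (d2 x).sub (P5_deriv _ _ _ _ _ _ x)) (fun x => (d3 x).sub (P5_deriv _ _ _ _ _ _ x))
    (fun x => (d4 x).sub (P5_deriv _ _ _ _ _ _ x)) (fun x => (d5 x).sub (P5_deriv _ _ _ _ _ _ x))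
    (fun x => ?_) ?_ ?_ ?_ ?_ ?_ ?_ t
  · simpa [P5] using h6 x
  all_goals (simp only [Pi.sub_apply, P5]; ring)

theorem taylor_gen (g0 g1 g2 g3 g4 : ℝ → ℝ) (d0 : ∀ x, HasDerivAt g0 (g1 x) x)
    (d1 : ∀ x, HasDerivAt g1 (g2 x) x) (d2 : ∀ x, HasDerivAt g2 (g3 x) x)
    (d3 : ∀ x, HasDerivAt g3 (g4 x) x) (h4 : ∀ x, 0 ≤ g4 x) (t : ℝ) :
    P5 (g0 0) (g1 0) (g2 0 / 2) (g3 0 / 6) 0 0 t ≤ g0 t := by
  rw [← sub_nonneg]
  refine conv_nonneg _ _ _
    (fun x => (d0 x).sub (P5_deriv _ _ _ _ _ _ x)) (fun x => (d1 x).sub (P5_deriv _ _ _ _ _ _ x))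
    (fun x => ?_) ?_ ?_ t
  · refine conv_nonneg _ _ _
      (fun x => (d2 x).sub (P5_deriv _ _ _ _ _ _ x)) (fun x => (d3 x).sub (P5_deriv _ _ _ _ _ _ x))
      (fun x => ?_) ?_ ?_ x
    · simpa [P5] using h4 x
    all_goals (simp only [Pi.sub_apply, P5]; ring)
  all_goals (simp only [Pi.sub_apply, P5]; ring)

/-- the function -/
noncomputable def gg (a b d t : ℝ) : ℝ := (a + b * Real.exp (-d * t)) ^ th

section
variable {a b d : ℝ} (ha : 0 ≤ a) (hb : 0 ≤ b) (hab : 0 < a + b)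
include ha hb hab

theorem gg_eq : gg a b d = Lc a b d 1 0 0 0 0 0 0 := by
  funext t
  obtain ⟨p, -, -, -, e⟩ := Lc_eq (d := d) ha hb hab 1 0 0 0 0 0 0 t
  rw [e]; unfold gg; ring

theorem chain : (∀ x, HasDerivAt (gg a b d) (Lc a b d 0 (-d * (2 / 3)) 0 0 0 0 0 x) x) ∧
    (∀ x, HasDerivAt (Lc a b d 0 (-d * (2 / 3)) 0 0 0 0 0)
      (Lc a b d 0 (d ^ 2 * (2 / 3)) (d ^ 2 * (-2 / 9)) 0 0 0 0 x) x) ∧
    (∀ x, HasDerivAt (Lc a b d 0 (d ^ 2 * (2 / 3)) (d ^ 2 * (-2 / 9)) 0 0 0 0)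
      (Lc a b d 0 (-d ^ 3 * (2 / 3)) (-d ^ 3 * (-2 / 3)) (-d ^ 3 * (8 / 27)) 0 0 0 x) x) ∧
    (∀ x, HasDerivAt (Lc a b d 0 (-d ^ 3 * (2 / 3)) (-d ^ 3 * (-2 / 3)) (-d ^ 3 * (8 / 27)) 0 0 0)
      (Lc a b d 0 (d ^ 4 * (2 / 3)) (d ^ 4 * (-14 / 9)) (d ^ 4 * (16 / 9)) (d ^ 4 * (-56 / 81))
        0 0 x) x) ∧
    (∀ x, HasDerivAt (Lc a b d 0 (d ^ 4 * (2 / 3)) (d ^ 4 * (-14 / 9)) (d ^ 4 * (16 / 9))
        (d ^ 4 * (-56 / 81)) 0 0)
      (Lc a b d 0 (-d ^ 5 * (2 / 3)) (-d ^ 5 * (-10 / 3)) (-d ^ 5 * (200 / 27))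
        (-d ^ 5 * (-560 / 81)) (-d ^ 5 * (560 / 243)) 0 x) x) ∧
    (∀ x, HasDerivAt (Lc a b d 0 (-d ^ 5 * (2 / 3)) (-d ^ 5 * (-10 / 3)) (-d ^ 5 * (200 / 27))
        (-d ^ 5 * (-560 / 81)) (-d ^ 5 * (560 / 243)) 0)
      (Lc a b d 0 (d ^ 6 * (2 / 3)) (d ^ 6 * (-62 / 9)) (d ^ 6 * (80 / 3)) (d ^ 6 * (-3640 / 81))
        (d ^ 6 * (2800 / 81)) (d ^ 6 * (-7280 / 729)) x) x) := by
  have D := Lc_deriv (d := d) ha hb hab
  rw [gg_eq ha hb hab]
  refine ⟨fun x => ?_, fun x => ?_, fun x => ?_, fun x => ?_, fun x => ?_, fun x => ?_⟩ <;>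
    exact (D _ _ _ _ _ _ x).congr_deriv (by unfold Lc; ring)

theorem herm_min (hd : 0 ≤ d) : ∃ e1 e0 e2 : ℝ, |e1| ≤ d * gg a b d (-1) ∧ |e0| ≤ d * gg a b d 0 ∧
    |e2| ≤ d * gg a b d 1 ∧ ∀ t, P5 (gg a b d 0) e0
      (gg a b d 1 + gg a b d (-1) - 2 * gg a b d 0 + (e1 - e2) / 4)
      (5 / 4 * (gg a b d 1 - gg a b d (-1)) - 2 * e0 - (e1 + e2) / 4)
      (gg a b d 0 - (gg a b d 1 + gg a b d (-1)) / 2 + (e2 - e1) / 4)
      (3 / 4 * (gg a b d (-1) - gg a b d 1) + e0 + (e1 + e2) / 4) t ≤ gg a b d t := by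
  obtain ⟨d0, d1, d2, d3, d4, d5⟩ := chain (d := d) ha hb hab
  have bd : ∀ t, |Lc a b d 0 (-d * (2 / 3)) 0 0 0 0 0 t| ≤ d * gg a b d t := by
    intro t
    obtain ⟨p, p0, p1, -, e⟩ := Lc_eq (d := d) ha hb hab 0 (-d * (2 / 3)) 0 0 0 0 0 t
    rw [e]
    have hg : 0 < gg a b d t := Real.rpow_pos_of_pos (S_pos ha hb hab t) _
    unfold gg at hg ⊢
    have h1 := mul_nonneg (mul_nonneg hd hg.le) p0
    have h2 := mul_nonneg (mul_nonneg hd hg.le) (sub_nonneg.2 p1)
    rw [abs_le]; constructor <;> nlinarith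
  refine ⟨_, _, _, bd (-1), bd 0, bd 1, fun t => ?_⟩
  refine herm_gen _ _ _ _ _ _ _ d0 d1 d2 d3 d4 d5 (fun x => ?_) t
  obtain ⟨p, p0, p1, -, e⟩ := Lc_eq (d := d) ha hb hab 0 (d ^ 6 * (2 / 3)) (d ^ 6 * (-62 / 9))
    (d ^ 6 * (80 / 3)) (d ^ 6 * (-3640 / 81)) (d ^ 6 * (2800 / 81)) (d ^ 6 * (-7280 / 729)) x
  rw [e]
  have hg := Real.rpow_pos_of_pos (S_pos (d := d) ha hb hab x) th
  have := mul_nonneg (mul_nonneg (pow_nonneg hd 6) p0) (poly6 p0 p1)
  refine mul_nonneg hg.le (this.trans (le_of_eq ?_))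
  ring

theorem taylor_min (t : ℝ) : (a + b) ^ th * P5 1 (-(2 / 3) * (b / (a + b)))
    (1 / 3 * (b / (a + b)) * (1 - (b / (a + b)) / 3))
    (-(1 / 9) * (b / (a + b)) * (1 - b / (a + b) + 4 / 9 * (b / (a + b)) ^ 2)) 0 0 t
      ≤ (a + b * Real.exp (-t)) ^ th := by
  obtain ⟨d0, d1, d2, d3, -, -⟩ := chain (d := 1) ha hb hab
  have h := taylor_gen _ _ _ _ _ d0 d1 d2 d3 (fun x => by
    obtain ⟨p, p0, p1, -, e⟩ := Lc_eq (d := 1) ha hb hab 0 (1 ^ 4 * (2 / 3)) (1 ^ 4 * (-14 / 9))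
      (1 ^ 4 * (16 / 9)) (1 ^ 4 * (-56 / 81)) 0 0 x
    rw [e]
    have hg := Real.rpow_pos_of_pos (S_pos (d := 1) ha hb hab x) th
    have := mul_nonneg p0 (poly4 p0 p1)
    refine mul_nonneg hg.le (this.trans (le_of_eq ?_))
    ring) t
  obtain ⟨p, -, -, hp, e1⟩ := Lc_eq (d := 1) ha hb hab 0 (-1 * (2 / 3)) 0 0 0 0 0 0
  obtain ⟨q, -, -, hq, e2⟩ := Lc_eq (d := 1) ha hb hab 0 (1 ^ 2 * (2 / 3)) (1 ^ 2 * (-2 / 9))
    0 0 0 0 0
  obtain ⟨r, -, -, hr, e3⟩ := Lc_eq (d := 1) ha hb hab 0 (-1 ^ 3 * (2 / 3)) (-1 ^ 3 * (-2 / 3))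
    (-1 ^ 3 * (8 / 27)) 0 0 0 0
  rw [e1, e2, e3, hp, hq, hr] at h
  simp only [gg, mul_zero, Real.exp_zero, mul_one, neg_mul, one_mul] at h
  refine le_trans (le_of_eq ?_) h
  unfold P5; ring

end

end Pool.Agent.MP_c26281_pr

end

section

/-! Moments of sums of the charges. -/

open MeasureTheory ProbabilityTheory
open scoped ENNReal

namespace Pool.Agent.MP_c26281_pr

/-- partial sums -/
def SS (r : ℕ) (x : ℕ → ℝ) : ℝ := ∑ i ∈ Finset.range r, x i

@[fun_prop] theorem measurable_SS (r : ℕ) : Measurable (SS r) := by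
  unfold SS; fun_prop

theorem SS_dep (r : ℕ) (x y : ℕ → ℝ) (h : ∀ i < r, x i = y i) : SS r x = SS r y :=
  Finset.sum_congr rfl fun i hi => h i (Finset.mem_range.1 hi)

theorem SS_add (r k : ℕ) (x : ℕ → ℝ) : SS (r + k) x = SS r x + SS k (sh r x) := by
  unfold SS sh; rw [Finset.sum_range_add]

/-- hypotheses on the law of the charges -/
def Ch (μ : Measure ℝ) : Prop :=
  ∫ x, x ∂μ = 0 ∧ ∫ x, x ^ 2 ∂μ = 1 ∧ ∀ t : ℝ, Integrable (fun x => Real.exp (t * x)) μ

section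
variable {μ : Measure ℝ} [IsProbabilityMeasure μ] (hμ : Ch μ)
include hμ

omit [IsProbabilityMeasure μ] in
theorem int_pow (k : ℕ) : Integrable (fun x : ℝ => x ^ k) μ :=
  integrable_pow_of_integrable_exp_mul (X := fun x => x) one_ne_zero (hμ.2.2 1) (hμ.2.2 (-1)) k

theorem int_ev (r k : ℕ) : Integrable (fun x : ℕ → ℝ => x r ^ k) (PP μ) :=
  ((measurePreserving_eval_infinitePi (fun _ : ℕ => μ) r).integrable_comp
    (int_pow hμ k).aestronglyMeasurable).2 (int_pow hμ k)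

omit hμ in
theorem integral_ev (r k : ℕ) : ∫ x : ℕ → ℝ, x r ^ k ∂(PP μ) = ∫ x, x ^ k ∂μ := by
  have h := (measurePreserving_eval_infinitePi (fun _ : ℕ => μ) r)
  conv_rhs => rw [← h.map_eq]
  rw [integral_map h.measurable.aemeasurable (by fun_prop)]

omit hμ in
theorem indep_S (r i j : ℕ) :
    IndepFun (fun x => SS r x ^ i) (fun x : ℕ → ℝ => x r ^ j) (PP μ) := by
  have h := (indep_sh μ r (SS r) (measurable_SS r) (SS_dep r)).comp
    (φ := fun s : ℝ => s ^ i) (ψ := fun y : ℕ → ℝ => y 0 ^ j) (by fun_prop) (by fun_prop)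
  exact h

theorem int_S (r : ℕ) : ∀ k, Integrable (fun x => SS r x ^ k) (PP μ) := by
  induction r with
  | zero => intro k; simp [SS]
  | succ r ih =>
    intro k
    have e : (fun x => SS (r + 1) x ^ k) = fun x => ∑ m ∈ Finset.range (k + 1),
        SS r x ^ m * x r ^ (k - m) * (k.choose m : ℝ) := by
      funext x; rw [← add_pow]; unfold SS; rw [Finset.sum_range_succ]
    rw [e]
    refine integrable_finsetSum _ fun m _ => Integrable.mul_const ?_ _
    exact (indep_S r m (k - m)).integrable_mul (ih m) (int_ev hμ r _)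

theorem mom_succ (r k : ℕ) : ∫ x, SS (r + 1) x ^ k ∂(PP μ) = ∑ m ∈ Finset.range (k + 1),
    (∫ x, SS r x ^ m ∂(PP μ)) * (∫ x, x ^ (k - m) ∂μ) * (k.choose m : ℝ) := by
  have e : (fun x => SS (r + 1) x ^ k) = fun x => ∑ m ∈ Finset.range (k + 1),
      SS r x ^ m * x r ^ (k - m) * (k.choose m : ℝ) := by
    funext x; rw [← add_pow]; unfold SS; rw [Finset.sum_range_succ]
  rw [e, integral_finsetSum]
  swap
  · exact fun m _ => Integrable.mul_const
      ((indep_S r m (k - m)).integrable_mul (int_S hμ r m) (int_ev hμ r _)) _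
  refine Finset.sum_congr rfl fun m _ => ?_
  rw [integral_mul_const, (indep_S r m (k - m)).integral_fun_mul_eq_mul_integral
    (int_S hμ r m).aestronglyMeasurable (int_ev hμ r _).aestronglyMeasurable, integral_ev]

theorem moments (r : ℕ) : ∫ x, SS r x ^ 1 ∂(PP μ) = 0 ∧ ∫ x, SS r x ^ 2 ∂(PP μ) = r ∧
    ∫ x, SS r x ^ 3 ∂(PP μ) = r * ∫ x, x ^ 3 ∂μ ∧
    ∫ x, SS r x ^ 4 ∂(PP μ) = 3 * r ^ 2 + r * (∫ x, x ^ 4 ∂μ - 3) ∧
    ∫ x, SS r x ^ 5 ∂(PP μ) = 10 * r ^ 2 * ∫ x, x ^ 3 ∂μ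
      + r * (∫ x, x ^ 5 ∂μ - 10 * ∫ x, x ^ 3 ∂μ) := by
  induction r with
  | zero => simp [SS]
  | succ r ih =>
    obtain ⟨h1, h2, h3, h4, h5⟩ := ih
    have m1 : ∫ x, x ^ 1 ∂μ = 0 := by simpa using hμ.1
    have m2 := hμ.2.1
    have m0 : ∫ x : ℝ, x ^ 0 ∂μ = 1 := by simp
    have h0 : ∫ x, SS r x ^ 0 ∂(PP μ) = 1 := by simp
    refine ⟨?_, ?_, ?_, ?_, ?_⟩ <;>
    · rw [mom_succ hμ]
      simp only [Finset.sum_range_succ, Finset.range_zero, Finset.sum_empty, Nat.reduceSub,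
        Nat.sub_zero, Nat.sub_self, h0, h1, h2, h3, h4, h5, m0, m1, m2, Nat.choose]
      push_cast; ring

theorem integral_P5 (r : ℕ) (u v c0 c1 c2 c3 c4 c5 : ℝ) :
    Integrable (fun x => P5 c0 c1 c2 c3 c4 c5 (u * SS r x + v)) (PP μ) ∧
    ∫ x, P5 c0 c1 c2 c3 c4 c5 (u * SS r x + v) ∂(PP μ) =
      P5 c0 c1 c2 c3 c4 c5 v
      + (c2 + 3 * c3 * v + 6 * c4 * v ^ 2 + 10 * c5 * v ^ 3) * u ^ 2 * r
      + (c3 + 4 * c4 * v + 10 * c5 * v ^ 2) * u ^ 3 * (r * ∫ x, x ^ 3 ∂μ)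
      + (c4 + 5 * c5 * v) * u ^ 4 * (3 * r ^ 2 + r * (∫ x, x ^ 4 ∂μ - 3))
      + c5 * u ^ 5 * (10 * r ^ 2 * ∫ x, x ^ 3 ∂μ
        + r * (∫ x, x ^ 5 ∂μ - 10 * ∫ x, x ^ 3 ∂μ)) := by
  obtain ⟨h1, h2, h3, h4, h5⟩ := moments hμ r
  have e : (fun x => P5 c0 c1 c2 c3 c4 c5 (u * SS r x + v)) = fun x =>
      P5 c0 c1 c2 c3 c4 c5 v
      + (c1 + 2 * c2 * v + 3 * c3 * v ^ 2 + 4 * c4 * v ^ 3 + 5 * c5 * v ^ 4) * u * SS r x ^ 1
      + (c2 + 3 * c3 * v + 6 * c4 * v ^ 2 + 10 * c5 * v ^ 3) * u ^ 2 * SS r x ^ 2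
      + (c3 + 4 * c4 * v + 10 * c5 * v ^ 2) * u ^ 3 * SS r x ^ 3
      + (c4 + 5 * c5 * v) * u ^ 4 * SS r x ^ 4 + c5 * u ^ 5 * SS r x ^ 5 := by
    funext x; unfold P5; ring
  have I := fun (k : ℕ) (c : ℝ) => (int_S hμ r k).const_mul c
  have I0 : Integrable (fun _ : ℕ → ℝ => P5 c0 c1 c2 c3 c4 c5 v) (PP μ) := integrable_const _
  rw [e]
  refine ⟨((((I0.add (I 1 _)).add (I 2 _)).add (I 3 _)).add (I 4 _)).add (I 5 _), ?_⟩
  rw [integral_add _ (I 5 _), integral_add _ (I 4 _), integral_add _ (I 3 _),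
    integral_add _ (I 2 _), integral_add I0 (I 1 _)]
  · simp only [integral_const_mul, h1, h2, h3, h4, h5]
    simp
  · exact I0.add (I 1 _)
  · exact (I0.add (I 1 _)).add (I 2 _)
  · exact ((I0.add (I 1 _)).add (I 2 _)).add (I 3 _)
  · exact (((I0.add (I 1 _)).add (I 2 _)).add (I 3 _)).add (I 4 _)

end

theorem ofReal_int_le {Ω : Type*} [MeasurableSpace Ω] {P : Measure Ω} {f g : Ω → ℝ}
    (hf : Integrable f P) (h : ∀ x, f x ≤ g x) :
    ENNReal.ofReal (∫ x, f x ∂P) ≤ ∫⁻ x, ENNReal.ofReal (g x) ∂P := by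
  have h1 : ∫ x, f x ∂P ≤ ∫ x, max (f x) 0 ∂P :=
    integral_mono hf hf.pos_part (fun x => le_max_left _ _)
  refine (ENNReal.ofReal_le_ofReal h1).trans ?_
  rw [ofReal_integral_eq_lintegral_ofReal hf.pos_part
    (Filter.Eventually.of_forall fun x => le_max_right _ _)]
  refine lintegral_mono fun x => ?_
  rcases le_total (f x) 0 with h0 | h0
  · simp [max_eq_right h0]
  · rw [max_eq_left h0]; exact ENNReal.ofReal_le_ofReal (h x)

end Pool.Agent.MP_c26281_pr

end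

section

/-! The three point rule and the Taylor bound. -/

open MeasureTheory ProbabilityTheory
open scoped ENNReal

namespace Pool.Agent.MP_c26281_pr

/-- energy of an excursion of length `r` at `h = 0.73 lam` -/
noncomputable def XX (lam : ℝ) (r : ℕ) (x : ℕ → ℝ) : ℝ :=
  2 * lam * SS r x + 146 / 100 * lam ^ 2 * r

@[fun_prop] theorem measurable_XX (lam : ℝ) (r : ℕ) : Measurable (XX lam r) := by
  unfold XX; fun_prop

theorem XX_dep (lam : ℝ) (r : ℕ) (x y : ℕ → ℝ) (h : ∀ i < r, x i = y i) :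
    XX lam r x = XX lam r y := by unfold XX; rw [SS_dep r x y h]

theorem XX_add (lam : ℝ) (r k : ℕ) (x : ℕ → ℝ) :
    XX lam (r + k) x = XX lam r x + XX lam k (sh r x) := by
  unfold XX; rw [SS_add]; push_cast; ring

theorem quad_aux {f1 f0 f2 e1 e0 e2 n2 n3 n4 n5 η : ℝ} (h1 : |e1| ≤ 4 * f1) (h0 : |e0| ≤ 4 * f0)
    (h2 : |e2| ≤ 4 * f2) (m2 : |n2 - 1 / 3| ≤ η) (m3 : |n3| ≤ η) (m4 : |n4 - 1 / 3| ≤ η)
    (m5 : |n5| ≤ η) : (1 - 45 * η) * ((f1 + 4 * f0 + f2) / 6) ≤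
      f0 + (f2 + f1 - 2 * f0 + (e1 - e2) / 4) * n2
      + (5 / 4 * (f2 - f1) - 2 * e0 - (e1 + e2) / 4) * n3
      + (f0 - (f2 + f1) / 2 + (e2 - e1) / 4) * n4
      + (3 / 4 * (f1 - f2) + e0 + (e1 + e2) / 4) * n5 := by
  have key : ∀ c C n : ℝ, |c| ≤ C → |n| ≤ η → -(C * η) ≤ c * n := fun c C n hc hn => by
    have := mul_le_mul hc hn (abs_nonneg _) ((abs_nonneg _).trans hc)
    rw [← abs_mul] at this
    exact (abs_le.1 this).1
  have g1 : 0 ≤ f1 := by linarith [abs_nonneg e1]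
  have g0 : 0 ≤ f0 := by linarith [abs_nonneg e0]
  have g2 : 0 ≤ f2 := by linarith [abs_nonneg e2]
  have hη : 0 ≤ η := (abs_nonneg _).trans m3
  obtain ⟨a1, b1⟩ := abs_le.1 h1
  obtain ⟨a0, b0⟩ := abs_le.1 h0
  obtain ⟨a2, b2⟩ := abs_le.1 h2
  have k2 := key (f2 + f1 - 2 * f0 + (e1 - e2) / 4) (2 * (f1 + f2) + 2 * f0) _
    (abs_le.2 ⟨by linarith, by linarith⟩) m2
  have k3 := key (5 / 4 * (f2 - f1) - 2 * e0 - (e1 + e2) / 4) (9 / 4 * (f1 + f2) + 8 * f0) _
    (abs_le.2 ⟨by linarith, by linarith⟩) m3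
  have k4 := key (f0 - (f2 + f1) / 2 + (e2 - e1) / 4) (3 / 2 * (f1 + f2) + f0) _
    (abs_le.2 ⟨by linarith, by linarith⟩) m4
  have k5 := key (3 / 4 * (f1 - f2) + e0 + (e1 + e2) / 4) (7 / 4 * (f1 + f2) + 4 * f0) _
    (abs_le.2 ⟨by linarith, by linarith⟩) m5
  nlinarith [mul_nonneg g0 hη]

section
variable {μ : Measure ℝ} [IsProbabilityMeasure μ] (hμ : Ch μ)
include hμ

theorem quad (r : ℕ) {lam d mu η a b : ℝ} (hd : 0 < d) (hd4 : d ≤ 4) (ha : 0 ≤ a) (hb : 0 ≤ b)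
    (hmu : 146 / 100 * lam ^ 2 * r ≤ mu)
    (m2 : |(2 * lam / d) ^ 2 * r - 1 / 3| ≤ η)
    (m3 : |(2 * lam / d) ^ 3 * (r * ∫ x, x ^ 3 ∂μ)| ≤ η)
    (m4 : |(2 * lam / d) ^ 4 * (3 * r ^ 2 + r * (∫ x, x ^ 4 ∂μ - 3)) - 1 / 3| ≤ η)
    (m5 : |(2 * lam / d) ^ 5 * (10 * r ^ 2 * ∫ x, x ^ 3 ∂μ
      + r * (∫ x, x ^ 5 ∂μ - 10 * ∫ x, x ^ 3 ∂μ))| ≤ η) :
    ENNReal.ofReal ((1 - 45 * η) * (((a + b * Real.exp (-mu) * Real.exp d) ^ th
      + 4 * (a + b * Real.exp (-mu)) ^ th + (a + b * Real.exp (-mu) * Real.exp (-d)) ^ th) / 6))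
      ≤ ∫⁻ x, ENNReal.ofReal ((a + b * Real.exp (-XX lam r x)) ^ th) ∂(PP μ) := by
  rcases (add_nonneg ha hb).eq_or_lt with h0 | hab
  · have a0 : a = 0 := by linarith
    have b0 : b = 0 := by linarith
    simp [a0, b0, Real.zero_rpow th_pos.ne']
  have hb' : 0 ≤ b * Real.exp (-mu) := by positivity
  have hab' : 0 < a + b * Real.exp (-mu) := by
    have := S_pos (d := mu) ha hb hab 1
    simpa using this
  obtain ⟨e1, e0, e2, h1, h0, h2, hP⟩ := herm_min ha hb' hab' hd.le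
  have G := fun t => (Real.rpow_pos_of_pos (S_pos (d := d) ha hb' hab' t) th).le
  obtain ⟨I1, I2⟩ := integral_P5 hμ r (2 * lam / d) 0 (gg a (b * Real.exp (-mu)) d 0) e0
    (gg a (b * Real.exp (-mu)) d 1 + gg a (b * Real.exp (-mu)) d (-1)
      - 2 * gg a (b * Real.exp (-mu)) d 0 + (e1 - e2) / 4)
    (5 / 4 * (gg a (b * Real.exp (-mu)) d 1 - gg a (b * Real.exp (-mu)) d (-1)) - 2 * e0
      - (e1 + e2) / 4)
    (gg a (b * Real.exp (-mu)) d 0 - (gg a (b * Real.exp (-mu)) d 1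
      + gg a (b * Real.exp (-mu)) d (-1)) / 2 + (e2 - e1) / 4)
    (3 / 4 * (gg a (b * Real.exp (-mu)) d (-1) - gg a (b * Real.exp (-mu)) d 1) + e0
      + (e1 + e2) / 4)
  refine le_trans (ENNReal.ofReal_le_ofReal ?_) (ofReal_int_le I1 fun x => (hP _).trans ?_)
  · rw [I2]
    have q := quad_aux (h1.trans (mul_le_mul_of_nonneg_right hd4 (G _)))
      (h0.trans (mul_le_mul_of_nonneg_right hd4 (G _)))
      (h2.trans (mul_le_mul_of_nonneg_right hd4 (G _))) m2 m3 m4 m5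
    have x1 : gg a (b * Real.exp (-mu)) d (-1) = (a + b * Real.exp (-mu) * Real.exp d) ^ th := by
      simp [gg]
    have x0 : gg a (b * Real.exp (-mu)) d 0 = (a + b * Real.exp (-mu)) ^ th := by simp [gg]
    have x2 : gg a (b * Real.exp (-mu)) d 1 = (a + b * Real.exp (-mu) * Real.exp (-d)) ^ th := by
      simp [gg]
    rw [← x1, ← x0, ← x2]
    refine q.trans (le_of_eq ?_)
    unfold P5 gg; ring
  · unfold gg
    refine Real.rpow_le_rpow (S_pos ha hb' hab' _).le ?_ th_pos.le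
    rw [mul_assoc, ← Real.exp_add]
    gcongr
    unfold XX
    have : d * (2 * lam / d * SS r x + 0) = 2 * lam * SS r x := by field_simp; ring
    linarith

theorem source (r : ℕ) {lam B : ℝ} (hB : 0 ≤ B) (hl : 0 ≤ lam) (hy : lam ^ 2 * r ≤ 1 / 4)
    (h3 : lam * |∫ x, x ^ 3 ∂μ| ≤ 1 / 20000) :
    LB (PP μ) ((1 + B) / 2 * (1 + B / (1 + B) * (aq (B / (1 + B)) * (lam ^ 2 * r)
      - bq (B / (1 + B)) * (lam ^ 2 * r) ^ 2)))
      (fun x => (1 + B * Real.exp (-XX lam r x)) / 2) ∧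
    0 ≤ 1 + B / (1 + B) * (aq (B / (1 + B)) * (lam ^ 2 * r)
      - bq (B / (1 + B)) * (lam ^ 2 * r) ^ 2) := by
  have hs : 0 < 1 + B := by linarith
  set p := B / (1 + B) with hp
  have p0 : 0 ≤ p := by positivity
  have p1 : p ≤ 1 := (div_le_one hs).2 (by linarith)
  set y := lam ^ 2 * r with hy'
  have y0 : 0 ≤ y := by positivity
  set G := p * (aq p * y - bq p * y ^ 2) with hG
  have hG1 : -1 ≤ G := by
    have a1 : -1 ≤ aq p := by unfold aq; linarith
    have a2 : bq p ≤ 4 := by unfold bq; nlinarith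
    have a3 : -1 ≤ aq p * y - bq p * y ^ 2 := by nlinarith [bq_nonneg p]
    nlinarith
  refine ⟨?_, by linarith⟩
  have key : LB (PP μ) ((1 + B) * (1 + G)) (fun x => 1 + B * Real.exp (-XX lam r x)) := by
    obtain ⟨I1, I2⟩ := integral_P5 hμ r (2 * lam) (146 / 100 * y) 1 (-(2 / 3) * p)
      (1 / 3 * p * (1 - p / 3)) (-(1 / 9) * p * (1 - p + 4 / 9 * p ^ 2)) 0 0
    unfold LB
    refine le_trans (ENNReal.ofReal_le_ofReal ?_) (ofReal_int_le (I1.const_mul ((1 + B) ^ th))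
      fun x => ?_)
    · rw [integral_const_mul, I2, Real.mul_rpow hs.le (by linarith)]
      refine mul_le_mul_of_nonneg_left ?_ (Real.rpow_nonneg hs.le _)
      refine (rpow_one_add_le_one_add_mul_self hG1 th_pos.le th_lt.le).trans ?_
      set m := ∫ x, x ^ 3 ∂μ
      have q0 : 0 ≤ 1 - p + 4 / 9 * p ^ 2 := by nlinarith
      have q1 : 1 - p + 4 / 9 * p ^ 2 ≤ 1 := by nlinarith
      have e : P5 1 (-(2 / 3) * p) (1 / 3 * p * (1 - p / 3))
          (-(1 / 9) * p * (1 - p + 4 / 9 * p ^ 2)) 0 0 (146 / 100 * y)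
        + (1 / 3 * p * (1 - p / 3) + 3 * (-(1 / 9) * p * (1 - p + 4 / 9 * p ^ 2)) * (146 / 100 * y)
          + 6 * 0 * (146 / 100 * y) ^ 2 + 10 * 0 * (146 / 100 * y) ^ 3) * (2 * lam) ^ 2 * r
        + (-(1 / 9) * p * (1 - p + 4 / 9 * p ^ 2) + 4 * 0 * (146 / 100 * y)
          + 10 * 0 * (146 / 100 * y) ^ 2) * (2 * lam) ^ 3 * (r * m)
        + (0 + 5 * 0 * (146 / 100 * y)) * (2 * lam) ^ 4 * (3 * r ^ 2 + r * (∫ x, x ^ 4 ∂μ - 3))
        + 0 * (2 * lam) ^ 5 * (10 * r ^ 2 * m + r * (∫ x, x ^ 5 ∂μ - 10 * m))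
        = 1 + 2 / 3 * (p * y * ((54 / 100 - 2 / 3 * p)
          - 4 / 3 * (1 - p + 4 / 9 * p ^ 2) * (lam * m)
          + y * (10658 / 10000 * (1 - p / 3) - 292 / 100 * (1 - p + 4 / 9 * p ^ 2)
          - 4 / 3 * (389017 / 1000000) * (1 - p + 4 / 9 * p ^ 2) * y))) := by
        unfold P5; rw [hy']; ring
      rw [e, hG]
      have b1 : (1 - p + 4 / 9 * p ^ 2) * (lam * m) ≤ 1 / 20000 := by
        have : lam * m ≤ 1 / 20000 := (mul_le_mul_of_nonneg_left (le_abs_self m) hl).trans h3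
        nlinarith
      have b2 : (1 - p + 4 / 9 * p ^ 2) * y ≤ (1 - p + 4 / 9 * p ^ 2) * (1 / 4) := by gcongr
      have b3 : -bq p ≤ 10658 / 10000 * (1 - p / 3) - 292 / 100 * (1 - p + 4 / 9 * p ^ 2)
          - 4 / 3 * (389017 / 1000000) * (1 - p + 4 / 9 * p ^ 2) * y := by
        unfold bq; nlinarith
      have b4 := mul_le_mul_of_nonneg_left b3 y0
      have b5 : aq p - y * bq p ≤ (54 / 100 - 2 / 3 * p)
          - 4 / 3 * (1 - p + 4 / 9 * p ^ 2) * (lam * m)
          + y * (10658 / 10000 * (1 - p / 3) - 292 / 100 * (1 - p + 4 / 9 * p ^ 2)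
          - 4 / 3 * (389017 / 1000000) * (1 - p + 4 / 9 * p ^ 2) * y) := by
        unfold aq; linarith
      have b6 := mul_le_mul_of_nonneg_left b5 (mul_nonneg p0 y0)
      unfold th; linarith
    · have := taylor_min zero_le_one hB hs (XX lam r x)
      refine le_trans (le_of_eq ?_) this
      congr 2
      unfold XX; rw [hy']; ring
  have := key.smul (c := 1 / 2) (mul_nonneg hs.le (by linarith)) (by norm_num)
    (fun x => by positivity)
  refine this.mono (mul_nonneg (by positivity) (by linarith)) (le_of_eq (by ring))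
    (fun x => by positivity) (fun x => le_of_eq (by ring))

end

end Pool.Agent.MP_c26281_pr

end

section

/-! Elementary sums and the remainder functional. -/

open MeasureTheory ProbabilityTheory Finset
open scoped ENNReal

namespace Pool.Agent.MP_c26281_pr

/-- telescoping model of `m^(-3/2)` -/
noncomputable def DD (m : ℕ) : ℝ := 2 * (rs (m - 1) - rs m)

theorem sum_DD (a r : ℕ) : ∑ m ∈ Ioc a (a + r), DD m = 2 * (rs a - rs (a + r)) := by
  induction r with
  | zero => simp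
  | succ r ih =>
    rw [← add_assoc, sum_Ioc_succ_top (by omega), ih]
    unfold DD; simp only [Nat.add_sub_cancel]; ring

theorem DD_bounds {m : ℕ} (hm : 2 ≤ m) : rs m ^ 3 ≤ DD m ∧ DD m ≤ rs (m - 1) ^ 3 := by
  have h1 := rs_sq (T := m) (by omega)
  have h2 := rs_sq (T := m - 1) (by omega)
  have p1 := rs_pos (T := m) (by omega)
  have p2 := rs_pos (T := m - 1) (by omega)
  have h3 := rs_anti (T := m - 1) (U := m) (by omega) (by omega)
  rw [Nat.cast_sub (by omega), Nat.cast_one] at h2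
  unfold DD
  generalize rs m = v at *
  generalize rs (m - 1) = u at *
  have e : u ^ 2 - v ^ 2 = u ^ 2 * v ^ 2 := by
    have : u ^ 2 * (v ^ 2 * m) - v ^ 2 * (u ^ 2 * (m - 1)) = u ^ 2 * v ^ 2 := by ring
    rw [h1, h2] at this; linarith
  have s : 0 < u + v := by linarith
  constructor
  · refine le_of_mul_le_mul_right ?_ s
    have : v ^ 3 * (u + v) ≤ 2 * (u ^ 2 * v ^ 2) := by
      have a1 : v * (u + v) ≤ 2 * u ^ 2 := by nlinarith
      nlinarith [mul_le_mul_of_nonneg_left a1 (sq_nonneg v)]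
    nlinarith
  · refine le_of_mul_le_mul_right ?_ s
    have : 2 * (u ^ 2 * v ^ 2) ≤ u ^ 3 * (u + v) := by
      have a1 : 2 * v ^ 2 ≤ u * (u + v) := by nlinarith
      nlinarith [mul_le_mul_of_nonneg_left a1 (sq_nonneg u)]
    nlinarith

theorem rs_mul (a b : ℕ) : rs (a * b) = rs a * rs b := by
  unfold rs; rw [Nat.cast_mul, Real.sqrt_mul (Nat.cast_nonneg a), mul_inv]

theorem rs_cube {T : ℕ} (h : 1 ≤ T) : rs T ^ 3 = rs T / T := by
  have := rs_sq h
  have p : (0 : ℝ) < T := by exact_mod_cast h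
  rw [eq_div_iff p.ne']
  calc rs T ^ 3 * T = rs T * (rs T ^ 2 * T) := by ring
    _ = rs T := by rw [this, mul_one]

theorem sum_lin (a r : ℕ) : ∑ m ∈ Ioc a (a + r), ((m - a : ℕ) : ℝ) = r * (r + 1) / 2 ∧
    ∑ m ∈ Ioc a (a + r), ((m - a : ℕ) : ℝ) ^ 2 = r * (r + 1) * (2 * r + 1) / 6 := by
  induction r with
  | zero => simp
  | succ r ih =>
    rw [← add_assoc, sum_Ioc_succ_top (by omega), sum_Ioc_succ_top (by omega), ih.1, ih.2,
      show a + r + 1 - a = r + 1 by omega]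
    push_cast; constructor <;> ring

theorem sum_rs (a r : ℕ) : 2 * (Real.sqrt (a + r + 1) - Real.sqrt (a + 1))
    ≤ ∑ m ∈ Ioc a (a + r), rs m := by
  induction r with
  | zero => simp
  | succ r ih =>
    rw [← add_assoc, sum_Ioc_succ_top (by omega)]
    have h0 : (0 : ℝ) < a + r + 1 := by positivity
    have p := Real.sqrt_pos.2 h0
    have q := Real.sq_sqrt h0.le
    have h1 : Real.sqrt (a + (r + 1 : ℕ) + 1) ≤ Real.sqrt (a + r + 1)
        + (Real.sqrt (a + r + 1))⁻¹ / 2 := by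
      refine Real.sqrt_le_iff.2 ⟨by positivity, ?_⟩
      have : Real.sqrt (a + r + 1) * (Real.sqrt (a + r + 1))⁻¹ = 1 := mul_inv_cancel₀ p.ne'
      push_cast
      nlinarith [sq_nonneg (Real.sqrt (a + r + 1))⁻¹]
    have e : rs (a + r + 1) = (Real.sqrt (a + r + 1))⁻¹ := by unfold rs; push_cast; rfl
    rw [e]; linarith

theorem le_rpow_th {w v : ℝ} (hv : 0 ≤ v) (h : w ^ 3 ≤ v ^ 2) : w ≤ v ^ th := by
  refine le_of_pow_le_pow_left₀ (n := 3) (by norm_num) (Real.rpow_nonneg hv _) ?_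
  rw [← Real.rpow_natCast (v ^ th), ← Real.rpow_mul hv]
  rw [show th * ((3 : ℕ) : ℝ) = ((2 : ℕ) : ℝ) by unfold th; norm_num, Real.rpow_natCast]
  exact h

theorem rpow_th_le {a u : ℝ} (ha : 0 ≤ a) (hu : 0 ≤ u) (h : a ^ 2 ≤ u ^ 3) : a ^ th ≤ u := by
  refine le_of_pow_le_pow_left₀ (n := 3) (by norm_num) hu ?_
  rw [← Real.rpow_natCast (a ^ th), ← Real.rpow_mul ha]
  rw [show th * ((3 : ℕ) : ℝ) = ((2 : ℕ) : ℝ) by unfold th; norm_num, Real.rpow_natCast]
  exact h

/-- one term -/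
noncomputable def tm (K : ℕ → ℝ) (lam : ℝ) (V : ℕ → (ℕ → ℝ) → ℝ) (k : ℕ) (B : ℝ) (m : ℕ)
    (x : ℕ → ℝ) : ℝ :=
  K m * ((1 + B * Real.exp (-XX lam (m - k) x)) / 2 * V m (sh (m - k) x))

/-- first excursion still running at time `k` -/
noncomputable def RR (K : ℕ → ℝ) (lam : ℝ) (m0 : ℕ) (V : ℕ → (ℕ → ℝ) → ℝ) (k : ℕ) (B : ℝ)
    (x : ℕ → ℝ) : ℝ := ∑ m ∈ Ioc k m0, tm K lam V k B m x

section
variable {K : ℕ → ℝ} {lam : ℝ} {m0 : ℕ} {V : ℕ → (ℕ → ℝ) → ℝ}

theorem tm_nonneg (hK : ∀ m, 0 ≤ K m) (hV : ∀ m x, 0 ≤ V m x) (k : ℕ) {B : ℝ} (hB : 0 ≤ B)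
    (m : ℕ) (x : ℕ → ℝ) : 0 ≤ tm K lam V k B m x := by
  unfold tm
  have := hK m
  have := hV m (sh (m - k) x)
  positivity

theorem RR_nonneg (hK : ∀ m, 0 ≤ K m) (hV : ∀ m x, 0 ≤ V m x) (k : ℕ) {B : ℝ} (hB : 0 ≤ B)
    (x : ℕ → ℝ) : 0 ≤ RR K lam m0 V k B x :=
  sum_nonneg fun m _ => tm_nonneg hK hV k hB m x

theorem tm_mono (hK : ∀ m, 0 ≤ K m) (hV : ∀ m x, 0 ≤ V m x) (k : ℕ) {B B' : ℝ} (hB : B ≤ B')
    (m : ℕ) (x : ℕ → ℝ) : tm K lam V k B m x ≤ tm K lam V k B' m x := by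
  unfold tm
  have := hK m
  have := hV m (sh (m - k) x)
  gcongr

theorem measurable_tm (mV : ∀ m, Measurable (V m)) (k : ℕ) (B : ℝ) (m : ℕ) :
    Measurable (tm K lam V k B m) := by
  unfold tm
  have := mV m
  fun_prop

theorem measurable_RR (mV : ∀ m, Measurable (V m)) (k : ℕ) (B : ℝ) :
    Measurable (RR K lam m0 V k B) :=
  Finset.measurable_sum _ fun m _ => measurable_tm mV k B m

theorem RR_aff (k : ℕ) (B : ℝ) (x : ℕ → ℝ) : RR K lam m0 V k B x =
    RR K lam m0 V k 0 x + B * (RR K lam m0 V k 1 x - RR K lam m0 V k 0 x) := by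
  unfold RR
  rw [← sum_sub_distrib, mul_sum, ← sum_add_distrib]
  exact sum_congr rfl fun m _ => by unfold tm; ring

theorem RR_split (k r : ℕ) (h : k + r ≤ m0) (B : ℝ) (x : ℕ → ℝ) : RR K lam m0 V k B x =
    ∑ m ∈ Ioc k (k + r), tm K lam V k B m x
      + RR K lam m0 V (k + r) (B * Real.exp (-XX lam r x)) (sh r x) := by
  unfold RR
  rw [← sum_Ioc_consecutive _ (Nat.le_add_right k r) h]
  congr 1
  refine sum_congr rfl fun m hm => ?_
  have hm := (mem_Ioc.1 hm).1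
  have e : m - k = r + (m - (k + r)) := by omega
  unfold tm
  rw [sh_sh, ← e]
  conv_lhs => rw [e, XX_add, neg_add, Real.exp_add, ← e]
  ring

end

theorem comb3 {Ω : Type*} [MeasurableSpace Ω] {P : Measure Ω} {F1 F0 F2 : Ω → ℝ}
    {x w y e : ℝ} (he : 0 ≤ e) (hx : 0 ≤ x) (hw : 0 ≤ w) (hy : 0 ≤ y) (p1 : ∀ z, 0 ≤ F1 z)
    (p0 : ∀ z, 0 ≤ F0 z) (p2 : ∀ z, 0 ≤ F2 z) (m1 : Measurable F1) (m0 : Measurable F0)
    (h1 : ENNReal.ofReal x ≤ ∫⁻ z, ENNReal.ofReal (F1 z) ∂P)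
    (h0 : ENNReal.ofReal w ≤ ∫⁻ z, ENNReal.ofReal (F0 z) ∂P)
    (h2 : ENNReal.ofReal y ≤ ∫⁻ z, ENNReal.ofReal (F2 z) ∂P) :
    ENNReal.ofReal (e * ((x + 4 * w + y) / 6)) ≤
      ∫⁻ z, ENNReal.ofReal (e * ((F1 z + 4 * F0 z + F2 z) / 6)) ∂P := by
  have key : ∀ a b c : ℝ, 0 ≤ a → 0 ≤ b → 0 ≤ c → ENNReal.ofReal (e * ((a + 4 * b + c) / 6))
      = ENNReal.ofReal (e / 6) * ENNReal.ofReal a + ENNReal.ofReal (4 * e / 6) * ENNReal.ofReal b
        + ENNReal.ofReal (e / 6) * ENNReal.ofReal c := fun a b c ha hb hc => by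
    rw [← ENNReal.ofReal_mul (by positivity), ← ENNReal.ofReal_mul (by positivity),
      ← ENNReal.ofReal_mul (by positivity), ← ENNReal.ofReal_add (by positivity) (by positivity),
      ← ENNReal.ofReal_add (by positivity) (by positivity)]
    congr 1; ring
  simp_rw [fun z => key _ _ _ (p1 z) (p0 z) (p2 z)]
  rw [key _ _ _ hx hw hy, lintegral_add_left (by fun_prop), lintegral_add_left (by fun_prop),
    lintegral_const_mul' _ _ ENNReal.ofReal_ne_top, lintegral_const_mul' _ _ ENNReal.ofReal_ne_top,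
    lintegral_const_mul' _ _ ENNReal.ofReal_ne_top]
  gcongr

end Pool.Agent.MP_c26281_pr

end

section

/-! The three point rule for the remainder functional. -/

open MeasureTheory ProbabilityTheory Finset
open scoped ENNReal

namespace Pool.Agent.MP_c26281_pr

/-- the smallness conditions -/
structure Hyp (μ : Measure ℝ) (K : ℕ → ℝ) (c lam Mx : ℝ) (n n1 : ℕ) : Prop where
  K0 : ∀ m, 0 ≤ K m
  c0 : 0 < c
  l0 : 0 < lam
  M1 : 1 ≤ Mx
  lM : lam * Mx ≤ 1 / 10 ^ 13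
  b3 : |∫ x, x ^ 3 ∂μ| ≤ Mx
  b4 : |∫ x, x ^ 4 ∂μ - 3| ≤ Mx
  b5 : |∫ x, x ^ 5 ∂μ - 10 * ∫ x, x ^ 3 ∂μ| ≤ Mx
  y1 : lam ^ 2 * n ≤ 1 / 75
  y0 : 1 / 75 - lam ^ 2 ≤ lam ^ 2 * n
  n11 : 1 ≤ n1
  n1n : 10 ^ 6 * (n1 + 1) ≤ n
  Kl : ∀ m, n1 < m → (1 - ep) * c * DD m ≤ K m
  Ku : 1 - ∑ m ∈ Ioc 0 n, K m ≤ (1 + ep) * (2 * (c * rs n))

theorem abs_mul_le {a b A B : ℝ} (h1 : |a| ≤ A) (h2 : |b| ≤ B) : |a * b| ≤ A * B := by
  rw [abs_mul]; exact mul_le_mul h1 h2 (abs_nonneg _) ((abs_nonneg _).trans h1)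

section
variable {μ : Measure ℝ} {K : ℕ → ℝ} {c lam Mx : ℝ} {n n1 : ℕ} (H : Hyp μ K c lam Mx n n1)
include H

theorem Hyp.lsm : lam ≤ 1 / 10 ^ 13 := by nlinarith [H.l0, H.M1, H.lM]

theorem Hyp.l2 : lam ^ 2 ≤ 1 / 10 ^ 26 := by nlinarith [H.l0, H.lsm]

theorem Hyp.ylo : (1 - ep) / 75 ≤ lam ^ 2 * n := by
  have := H.y0; have := H.l2; unfold ep; linarith

theorem Hyp.nbig : 2 ≤ ep * n := by
  have h1 := H.y0
  have h2 := H.l2
  have h3 : lam ^ 2 * n ≤ 1 / 10 ^ 26 * n := by gcongr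
  unfold ep; linarith

theorem Hyp.npos : 1 ≤ n := by have := H.n1n; omega

theorem Hyp.kpos : 0 < c * rs n := mul_pos H.c0 (rs_pos H.npos)

theorem Hyp.lm {m : ℝ} (h : |m| ≤ Mx) : |lam * m| ≤ 1 / 10 ^ 13 :=
  (abs_mul_le (le_of_eq (abs_of_pos H.l0)) h).trans H.lM

theorem quadJ [IsProbabilityMeasure μ] (hμ : Ch μ) {J : ℕ} (h1 : 1 ≤ J) (h4 : J ≤ 4) {a b : ℝ}
    (ha : 0 ≤ a) (hb : 0 ≤ b) :
    ENNReal.ofReal ((1 - ep) *
      (((a + b * Real.exp (-(146 / 7500) * (J * J)) * Real.exp (2 / 5 * J)) ^ th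
      + 4 * (a + b * Real.exp (-(146 / 7500) * (J * J))) ^ th
      + (a + b * Real.exp (-(146 / 7500) * (J * J)) * Real.exp (-(2 / 5) * J)) ^ th) / 6))
      ≤ ∫⁻ x, ENNReal.ofReal ((a + b * Real.exp (-XX lam (J * J * n) x)) ^ th) ∂(PP μ) := by
  have j1 : (1 : ℝ) ≤ J := by exact_mod_cast h1
  have j4 : (J : ℝ) ≤ 4 := by exact_mod_cast h4
  have j0 : (J : ℝ) ≠ 0 := by linarith
  have y1 := H.y1
  have y0 := H.y0
  have l2 := H.l2
  have l0 := H.l0
  have ls := H.lsm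
  have yp : 0 ≤ lam ^ 2 * n := by positivity
  have ya : |lam ^ 2 * n| ≤ 1 / 75 := by rwa [abs_of_nonneg yp]
  have la : |lam| ≤ 1 := by rw [abs_of_pos l0]; linarith
  have ua : |(J : ℝ)⁻¹| ≤ 1 := by
    rw [abs_of_nonneg (by positivity)]; exact inv_le_one_of_one_le₀ j1
  have a3 := H.lm H.b3
  have a4 := H.lm H.b4
  have a5 := H.lm H.b5
  have q := quad hμ (J * J * n) (lam := lam) (d := 2 / 5 * J) (mu := 146 / 7500 * (J * J))
    (η := ep / 45) (by positivity) (by linarith) ha hb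
    (by push_cast; nlinarith [mul_le_mul_of_nonneg_left y1 (mul_self_nonneg (J : ℝ))])
    ?_ ?_ ?_ ?_
  · rw [show 1 - 45 * (ep / 45) = 1 - ep by ring, ← neg_mul, ← neg_mul] at q
    exact q
  · have e : (2 * lam / (2 / 5 * J)) ^ 2 * ((J * J * n : ℕ) : ℝ) = 25 * (lam ^ 2 * n) := by
      push_cast; field_simp; ring
    rw [e, abs_le]; unfold ep; constructor <;> linarith
  · generalize ∫ x, x ^ 3 ∂μ = m3 at *
    have e : (2 * lam / (2 / 5 * J)) ^ 3 * (((J * J * n : ℕ) : ℝ) * m3)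
        = 125 * (lam * m3 * (lam ^ 2 * n) * (J : ℝ)⁻¹) := by
      push_cast; field_simp; ring
    have := abs_le.1 (abs_mul_le (abs_mul_le a3 ya) ua)
    rw [e, abs_le]; unfold ep; constructor <;> linarith
  · generalize ∫ x, x ^ 4 ∂μ - 3 = m4 at *
    have e : (2 * lam / (2 / 5 * J)) ^ 4 * (3 * ((J * J * n : ℕ) : ℝ) ^ 2
        + ((J * J * n : ℕ) : ℝ) * m4) = 1875 * (lam ^ 2 * n) ^ 2
        + 625 * (lam * m4 * (lam ^ 2 * n) * (J : ℝ)⁻¹ * (J : ℝ)⁻¹ * lam) := by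
      push_cast; field_simp; ring
    have := abs_le.1 (abs_mul_le (abs_mul_le (abs_mul_le (abs_mul_le a4 ya) ua) ua) la)
    have s1 : (lam ^ 2 * n) ^ 2 ≤ (1 / 75) ^ 2 := by gcongr
    have s2 : (1 / 75 - 1 / 10 ^ 26) ^ 2 ≤ (lam ^ 2 * n) ^ 2 := by gcongr; linarith
    rw [e, abs_le]; unfold ep; constructor <;> linarith
  · generalize ∫ x, x ^ 5 ∂μ - 10 * ∫ x, x ^ 3 ∂μ = m5 at *
    generalize ∫ x, x ^ 3 ∂μ = m3 at *
    have e : (2 * lam / (2 / 5 * J)) ^ 5 * (10 * ((J * J * n : ℕ) : ℝ) ^ 2 * m3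
        + ((J * J * n : ℕ) : ℝ) * m5)
        = 31250 * (lam * m3 * (lam ^ 2 * n) * (lam ^ 2 * n) * (J : ℝ)⁻¹)
        + 3125 * (lam * m5 * (lam ^ 2 * n) * (J : ℝ)⁻¹ * (J : ℝ)⁻¹ * (J : ℝ)⁻¹ * lam * lam) := by
      push_cast; field_simp; ring
    have t1 := abs_le.1 (abs_mul_le (abs_mul_le (abs_mul_le a3 ya) ya) ua)
    have t2 := abs_le.1 (abs_mul_le (abs_mul_le (abs_mul_le (abs_mul_le (abs_mul_le
      (abs_mul_le a5 ya) ua) ua) ua) la) la)
    rw [e, abs_le]; unfold ep; constructor <;> linarith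

end

/-- the node predicate -/
def Gd (μ : Measure ℝ) (K : ℕ → ℝ) (c lam : ℝ) (n : ℕ) (V : ℕ → (ℕ → ℝ) → ℝ) (T : ℕ)
    (B w : ℝ) : Prop :=
  ENNReal.ofReal ((c * rs n) ^ th * w)
    ≤ ∫⁻ x, ENNReal.ofReal (RR K lam (10 ^ 12 * n) V (T * n) B x ^ th) ∂(PP μ)

section
variable {μ : Measure ℝ} [IsProbabilityMeasure μ] {K : ℕ → ℝ} {c lam Mx : ℝ} {n n1 : ℕ}
  (H : Hyp μ K c lam Mx n n1) (hμ : Ch μ) {V : ℕ → (ℕ → ℝ) → ℝ} (mV : ∀ m, Measurable (V m))
  (V0 : ∀ m x, 0 ≤ V m x)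
include H hμ mV V0

theorem quadR {T J : ℕ} (h1 : 1 ≤ J) (h4 : J ≤ 4) {B x w y a : ℝ} (hB : 0 ≤ B)
    (g1 : Gd μ K c lam n V (T + J * J)
      (B * Real.exp (-(146 / 7500) * (J * J)) * Real.exp (2 / 5 * J)) x)
    (g0 : Gd μ K c lam n V (T + J * J) (B * Real.exp (-(146 / 7500) * (J * J))) w)
    (g2 : Gd μ K c lam n V (T + J * J)
      (B * Real.exp (-(146 / 7500) * (J * J)) * Real.exp (-(2 / 5) * J)) y)
    (hx : 0 ≤ x) (hw : 0 ≤ w) (hy : 0 ≤ y) (ha : 0 ≤ a)
    (h : a ^ 2 ≤ ((1 - ep) * ((x + 4 * w + y) / 6)) ^ 3) :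
    LB (PP μ) (c * rs n * a) (fun z => RR K lam (10 ^ 12 * n) V (T * n + J * J * n)
      (B * Real.exp (-XX lam (J * J * n) z)) (sh (J * J * n) z)) := by
  unfold Gd at g1 g0 g2
  rw [add_mul] at g1 g0 g2
  set k := T * n + J * J * n
  set m0 := 10 ^ 12 * n
  set r := J * J * n
  have kp := H.kpos
  have e1 : 0 ≤ 1 - ep := by linarith [ep_le]
  have kt : 0 ≤ (c * rs n) ^ th := Real.rpow_nonneg kp.le _
  have m0' := measurable_RR (K := K) (lam := lam) (m0 := m0) mV k 0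
  have m1' := measurable_RR (K := K) (lam := lam) (m0 := m0) mV k 1
  have d0 : ∀ z, 0 ≤ RR K lam m0 V k 1 z - RR K lam m0 V k 0 z := fun z =>
    sub_nonneg.2 (sum_le_sum fun m _ => tm_mono H.K0 V0 k zero_le_one m z)
  have r0 : ∀ {B' : ℝ}, 0 ≤ B' → ∀ z, 0 ≤ RR K lam m0 V k B' z ^ th := fun hB' z =>
    Real.rpow_nonneg (RR_nonneg H.K0 V0 k hB' z) _
  have mr : ∀ B' : ℝ, Measurable fun z => RR K lam m0 V k B' z ^ th := fun B' =>
    (measurable_RR mV k B').pow_const _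
  unfold LB
  have s1 := split μ r (fun z => Real.exp (-XX lam r z)) (by fun_prop)
    (fun u v huv => by rw [XX_dep lam r u v huv])
    (fun p => ENNReal.ofReal ((RR K lam m0 V k 0 p.2
      + B * (RR K lam m0 V k 1 p.2 - RR K lam m0 V k 0 p.2) * p.1) ^ th)) (by fun_prop)
  have s2 : ∀ z, RR K lam m0 V k (B * Real.exp (-XX lam r z)) (sh r z) = RR K lam m0 V k 0 (sh r z)
      + B * (RR K lam m0 V k 1 (sh r z) - RR K lam m0 V k 0 (sh r z)) * Real.exp (-XX lam r z) :=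
    fun z => by rw [RR_aff]; ring
  simp_rw [s2]
  rw [s1, lintegral_lintegral_swap (by fun_prop)]
  have c3 := comb3 e1 (mul_nonneg kt hx) (mul_nonneg kt hw) (mul_nonneg kt hy)
    (r0 (by positivity)) (r0 (by positivity)) (r0 (by positivity)) (mr _) (mr _) g1 g0 g2
  refine le_trans (ENNReal.ofReal_le_ofReal ?_) (c3.trans (lintegral_mono fun z => ?_))
  · rw [Real.mul_rpow kp.le ha]
    have := rpow_th_le ha (by positivity) h
    calc _ ≤ (c * rs n) ^ th * ((1 - ep) * ((x + 4 * w + y) / 6)) := by gcongr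
      _ = _ := by ring
  · refine le_trans (le_of_eq ?_) (quadJ H hμ h1 h4 (RR_nonneg H.K0 V0 k le_rfl z)
      (mul_nonneg hB (d0 z)))
    rw [RR_aff k (B * _ * _), RR_aff k (B * _ * _), RR_aff k (B * _)]
    congr 6 <;> ring

end

end Pool.Agent.MP_c26281_pr

end

section

/-! Soundness of the tree. -/

namespace Pool.Agent.MP_c26281_pr.Num

/-- a row of the tree -/
def Row (Good : ℕ → ℝ → ℝ → Prop) (T : ℕ) : ℝ → List ℕ → Prop
  | _, [] => True
  | B, w :: l => Good T B (w / SR) ∧ Row Good T (B * Real.exp (-(2 / 5))) l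

theorem q_le : (670320046035638 : ℝ) / 1000000000000000 ≤ Real.exp (-(2 / 5)) := by
  have h := Real.exp_bound (x := -(2 / 5)) (by norm_num [abs_le]) (n := 15) (by norm_num)
  have h2 := (abs_le.1 h).1
  simp only [Finset.sum_range_succ, Finset.range_zero, Finset.sum_empty, Nat.factorial] at h2
  rw [abs_of_neg (by norm_num)] at h2
  norm_num at h2 ⊢
  linarith

theorem E_le : (1491824697641269 : ℝ) / 1000000000000000 ≤ Real.exp (2 / 5) := by
  have h := Real.sum_le_exp_of_nonneg (x := 2 / 5) (by norm_num) 16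
  simp only [Finset.sum_range_succ, Finset.range_zero, Finset.sum_empty, Nat.factorial] at h
  norm_num at h ⊢
  linarith

theorem r_le : (980721585363338 : ℝ) / 1000000000000000 ≤ Real.exp (-(146 / 7500)) := by
  have h := Real.exp_bound (x := -(146 / 7500)) (by norm_num [abs_le]) (n := 9) (by norm_num)
  have h2 := (abs_le.1 h).1
  simp only [Finset.sum_range_succ, Finset.range_zero, Finset.sum_empty, Nat.factorial] at h2
  rw [abs_of_neg (by norm_num)] at h2
  norm_num at h2 ⊢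
  linarith

section
variable {Good : ℕ → ℝ → ℝ → Prop} (R : Rules Good)
include R

theorem GL_le {T : ℕ} (l : List ℕ) : ∀ (m : List ℕ) (B : ℝ), 0 ≤ B → leL l m = true →
    Row Good T B m → Row Good T B l := by
  induction l with
  | nil => intro m B _ _ _; trivial
  | cons x l ih =>
    intro m B hB h hm
    cases m with
    | nil => exact absurd h (by simp [leL])
    | cons y m =>
      have h' : cond (Nat.ble x y) (leL l m) false = true := h
      cases e : Nat.ble x y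
      · rw [e] at h'; exact absurd h' (by simp)
      · rw [e] at h'
        have hxy : (x : ℝ) ≤ y := by exact_mod_cast Nat.le_of_ble_eq_true e
        exact ⟨R.1 _ _ _ _ _ hm.1 hB le_rfl (div_le_div_of_nonneg_right hxy SR_pos.le),
          ih m _ (by positivity) h' hm.2⟩

omit R in
theorem GL_drop {T : ℕ} (k : ℕ) : ∀ (l : List ℕ) (B : ℝ), Row Good T B l →
    Row Good T (B * Real.exp (-(2 / 5) * k)) (l.drop k) := by
  induction k with
  | zero => intro l B h; simpa using h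
  | succ k ih =>
    intro l B h
    cases l with
    | nil => trivial
    | cons x l =>
      have := ih l _ h.2
      rw [mul_assoc, ← Real.exp_add] at this
      rw [List.drop_succ_cons]
      have e : -(2 / 5) * ((k + 1 : ℕ) : ℝ) = -(2 / 5) + -(2 / 5) * (k : ℝ) := by push_cast; ring
      rw [e]; exact this

omit R in
theorem GL_take {T : ℕ} (k : ℕ) : ∀ (l : List ℕ) (B : ℝ), Row Good T B l →
    Row Good T B (l.take k) := by
  induction k with
  | zero => intro l B _; trivial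
  | succ k ih =>
    intro l B h
    cases l with
    | nil => trivial
    | cons x l => exact ⟨h.1, ih l _ h.2⟩

theorem GL_left {T : ℕ} (w : ℕ) (l : List ℕ) (B : ℝ) (hB : 0 ≤ B) (hw : Good T B (w / SR))
    (h : Row Good T B l) (k : ℕ) :
    Row Good T (B * Real.exp (2 / 5 * k)) (List.replicate k w ++ l) := by
  induction k with
  | zero => simpa using h
  | succ k ih =>
    rw [List.replicate_succ, List.cons_append]
    refine ⟨R.1 _ _ _ _ _ hw hB (le_mul_of_one_le_right hB (Real.one_le_exp (by positivity)))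
      le_rfl, ?_⟩
    rw [mul_assoc, ← Real.exp_add]
    have e : 2 / 5 * ((k + 1 : ℕ) : ℝ) + -(2 / 5) = 2 / 5 * (k : ℝ) := by push_cast; ring
    rw [e]; exact ih

omit R in
theorem GL_repl {T : ℕ} (P : ℕ) (hP : ∀ B, 0 ≤ B → Good T B (P / SR)) (k : ℕ) :
    ∀ B, 0 ≤ B → Row Good T B (List.replicate k P) := by
  induction k with
  | zero => intro B _; trivial
  | succ k ih => intro B hB; exact ⟨hP B hB, ih _ (by positivity)⟩

omit R in
theorem GL_right {T : ℕ} (P : ℕ) (hP : ∀ B, 0 ≤ B → Good T B (P / SR)) (k : ℕ) (l : List ℕ) :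
    ∀ B, 0 ≤ B → Row Good T B l → Row Good T B (l ++ List.replicate k P) := by
  induction l with
  | nil => intro B hB _; exact GL_repl P hP k B hB
  | cons x l ih => intro B hB h; exact ⟨h.1, ih _ (by positivity) h.2⟩

theorem go_ok {T J m0 c1 c0 c2 : ℕ} (hT : 1 ≤ T) (hJ : 1 ≤ J) (hJ4 : J ≤ 4)
    (hTJ : T + J * J ≤ 10 ^ 12)
    (hs : ∀ b : ℕ, (srcN b m0 c1 c0 c2 : ℝ) / SR ≤ max 0 (srcF T J (b / SR))) (l : List ℕ) :
    ∀ (wl wr : List ℕ) (b r pv it : ℕ) (B : ℝ), (b : ℝ) / SR ≤ B →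
    Row Good (T + J * J) (B * Real.exp (-(146 / 7500) * (J * J)) * Real.exp (2 / 5 * J)) wl →
    Row Good (T + J * J) (B * Real.exp (-(146 / 7500) * (J * J))) l →
    Row Good (T + J * J) (B * Real.exp (-(146 / 7500) * (J * J)) * Real.exp (-(2 / 5) * J)) wr →
    Row Good T B (go m0 c1 c0 c2 l wl wr b r pv it) := by
  induction l with
  | nil => intros; trivial
  | cons w l ih =>
    intro wl wr b r pv it B hb h1 h2 h3
    cases wl with
    | nil => trivial
    | cons x wl =>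
    cases wr with
    | nil => trivial
    | cons y wr =>
    have e : go m0 c1 c0 c2 (w :: l) (x :: wl) (y :: wr) b r pv it =
      frc b fun b => frc (avg x w y) fun a =>
      frc (sq it (Nat.mul a 281474976710656) r) fun r =>
      frc (srcN b m0 c1 c0 c2) fun s =>
      frc (val it a r s pv) fun o =>
      o :: go m0 c1 c0 c2 l wl wr (Nat.div (Nat.mul b 670320046035638) 1000000000000000) r o 3 :=
      rfl
    rw [e, frc_eq, frc_eq, frc_eq, frc_eq, frc_eq]
    generalize sq it _ r = r'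
    have hS := SR_pos
    have b0 : (0 : ℝ) ≤ b / SR := by positivity
    obtain ⟨av, a1, a2⟩ := val_le it (avg x w y) r' (srcN b m0 c1 c0 c2) pv
    refine ⟨R.2.2 T J B (b / SR) _ _ _ (av / SR) _ _ hT hJ hJ4 hTJ b0 hb h1.1 h2.1 h3.1
      (by positivity) (by positivity) (by positivity) (by positivity)
      (a1.trans (pow_le_pow_left₀ (by positivity) (avg_le x w y) 3)) (by positivity) (hs b)
      (by positivity) a2, ?_⟩
    refine ih wl wr _ _ _ _ _ ?_ ?_ ?_ ?_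
    · have d1 : ((Nat.div (Nat.mul b 670320046035638) 1000000000000000 : ℕ) : ℝ) ≤ _ := div_le' _ _
      rw [cmul, Nat.cast_ofNat, Nat.cast_ofNat] at d1
      refine (div_le_div_of_nonneg_right d1 hS.le).trans ?_
      have := mul_le_mul hb q_le (by norm_num) (b0.trans hb)
      refine le_trans (le_of_eq ?_) this
      ring
    · have := h1.2
      rw [mul_right_comm, mul_right_comm B] at this; exact this
    · have := h2.2
      rw [mul_right_comm] at this; exact this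
    · have := h3.2
      rw [mul_right_comm, mul_right_comm B] at this; exact this

/-- left end of the row -/
noncomputable def B0 (T L : ℕ) : ℝ := Real.exp (-(146 / 7500) * T) * Real.exp (2 / 5 * L)

omit R in
theorem B0_pos (T L : ℕ) : 0 < B0 T L := by unfold B0; positivity

omit R in
theorem B0_drop (T L k : ℕ) : B0 T (L + k) * Real.exp (-(2 / 5) * k) = B0 T L := by
  unfold B0
  rw [mul_assoc, ← Real.exp_add]; congr 2; push_cast; ring

theorem plus_ok {T : ℕ} (hT : 1 ≤ T) (hT2 : T ≤ 10 ^ 12) (B : ℝ) (hB : 0 ≤ B) :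
    Good T B (plus T / SR) :=
  R.2.1 T B _ hT hT2 hB (by have := SR_pos; positivity) (plus_le hT hT2)

theorem step_ok {T J L : ℕ} (hT : 1 ≤ T) (hJ : 1 ≤ J) (hJ4 : J ≤ 4) (hTJ : T + J * J ≤ 10 ^ 12)
    (W : List ℕ) (h : Row Good (T + J * J) (B0 (T + J * J) L) W) :
    Row Good T (B0 T L) (step W T J L) := by
  unfold step
  rw [frc_eq, frc_eq, frc_eq, frc_eq, frc_eq, frc_eq, frc_eq, frc_eq, frc_eq, frc_eq]
  cases W with
  | nil => trivial
  | cons w W =>
  have hS := SR_pos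
  have hT1 : 1 ≤ T + J * J := by omega
  have e0 : Nat.add T (Nat.mul J J) = T + J * J := rfl
  rw [e0]
  have eB : B0 T L * Real.exp (-(146 / 7500) * (J * J)) = B0 (T + J * J) L := by
    unfold B0
    rw [mul_right_comm, ← Real.exp_add]; congr 2; push_cast; ring
  have p0 : (0 : ℝ) < T := by exact_mod_cast hT
  have p1 : (0 : ℝ) < (T + J * J : ℕ) := by exact_mod_cast hT1
  have r0 := rs_pos hT
  have r1 := rs_pos hT1
  have r2 := rs_anti hT (Nat.le_add_right T (J * J))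
  refine go_ok R hT hJ hJ4 hTJ (fun b => ?_) _ _ _ _ _ _ _ _ ?_ ?_ ?_ ?_
  · refine srcN_le b _ _ _ _ ?_ ?_ ?_ ?_ ?_ ?_
    · refine (sub_le_max _ _).trans (max_le (mul_nonneg hS.le (by linarith)) ?_)
      linarith [lo_le hT, hi_ge hT1]
    · refine (div_le' _ _).trans ?_
      rw [cmul, cmul, cmul, npow, Nat.cast_pow, Nat.cast_ofNat, Nat.cast_ofNat,
        div_le_iff₀ (by positivity)]
      have := mul_le_mul_of_nonneg_right (lo_le hT1) (show (0 : ℝ) ≤ (J : ℝ) ^ 4 * 999999999 by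
        positivity)
      refine le_trans (le_of_eq (by ring)) (this.trans (le_of_eq ?_))
      unfold ep; field_simp; ring
    · rw [Nat.cast_succ]
      refine le_trans ?_ (le_div' _ _ (Nat.mul_pos hT (by norm_num)))
      rw [cmul, cmul, npow, Nat.cast_pow, Nat.cast_ofNat, cmul, Nat.cast_ofNat,
        le_div_iff₀ (by positivity)]
      have := mul_le_mul_of_nonneg_right (hi_ge hT) (show (0 : ℝ) ≤ (J : ℝ) ^ 4 * 1000000001 by
        positivity)
      refine le_trans (le_of_eq ?_) (this.trans (le_of_eq (by ring)))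
      unfold ep; field_simp; ring
    · rw [Nat.cast_succ]
      refine le_trans ?_ (le_div' _ _ (Nat.mul_pos hT (by norm_num)))
      rw [cmul, cmul, npow, Nat.cast_pow, Nat.cast_ofNat, cmul, Nat.cast_ofNat,
        le_div_iff₀ (by positivity)]
      have := mul_le_mul_of_nonneg_right (hi_ge hT) (show (0 : ℝ) ≤ (J : ℝ) ^ 6 * 1000000001 by
        positivity)
      refine le_trans (le_of_eq ?_) (this.trans (le_of_eq (by ring)))
      unfold ep; field_simp; ring
    · have h1 : rs (T + J * J) / (T + J * J : ℕ) ≤ rs T / T :=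
        div_le_div₀ r0.le r2 p0 (by push_cast; nlinarith [sq_nonneg (J : ℝ)])
      have := ep_pos
      have := ep_le
      gcongr
      · linarith
      · linarith
    · have := ep_pos
      positivity
  · rw [div_le_iff₀ hS]
    refine (div_le' _ _).trans ?_
    rw [cmul, cmul, npow, npow, npow, Nat.cast_pow, Nat.cast_pow, Nat.cast_pow, Nat.cast_ofNat,
      Nat.cast_ofNat, Nat.cast_ofNat, Nat.cast_ofNat, Nat.add_eq, pow_add]
    have h1 := pow_le_pow_left₀ (by norm_num) r_le T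
    have h2 := pow_le_pow_left₀ (by norm_num) E_le L
    rw [← Real.exp_nat_mul] at h1 h2
    have h3 := mul_le_mul h1 h2 (by positivity) (by positivity)
    unfold B0 SR
    rw [mul_comm (T : ℝ), mul_comm (L : ℝ), div_pow, div_pow] at h3
    refine le_trans (le_of_eq ?_) (mul_le_mul_of_nonneg_right h3 (by norm_num))
    field_simp
  · rw [eB]; exact GL_left R _ _ _ (B0_pos _ _).le h.1 h J
  · rw [eB]; exact h
  · rw [eB]
    exact GL_right _ (plus_ok R hT1 hTJ) J _ _ (by have := B0_pos (T + J * J) L; positivity)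
      (GL_drop J _ _ h)

theorem grp_ok {J L : ℕ} (hJ : 1 ≤ J) (hJ4 : J ≤ 4) (c : ℕ) : ∀ (T : ℕ) (W : List ℕ), 1 ≤ T →
    T + c * (J * J) ≤ 10 ^ 12 → Row Good (T + c * (J * J)) (B0 (T + c * (J * J)) L) W →
    Row Good T (B0 T L) (grp c J L (T + c * (J * J)) W) := by
  induction c with
  | zero => intro T W _ _ h; simpa [grp] using h
  | succ c ih =>
    intro T W hT h1 h
    have e : grp (c + 1) J L (T + (c + 1) * (J * J)) W =
      frc (Nat.sub (T + (c + 1) * (J * J)) (Nat.mul J J)) fun T' =>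
        fl (step W T' J L) fun W' => grp c J L T' W' := rfl
    have e2 : T + (c + 1) * (J * J) = T + c * (J * J) + J * J := by ring
    have e3 : Nat.sub (T + (c + 1) * (J * J)) (Nat.mul J J) = T + c * (J * J) := by
      rw [e2]; exact Nat.add_sub_cancel _ _
    rw [e, frc_eq, fl_eq, e3]
    rw [e2] at h h1
    exact ih T _ hT (by omega) (step_ok R (by omega) hJ hJ4 h1 W h)

theorem grp_drop (c J L T1 k T L' : ℕ) (hJ : 1 ≤ J) (hJ4 : J ≤ 4) (hT : 1 ≤ T)
    (h1 : T1 ≤ 10 ^ 12) (e1 : T1 = T + c * (J * J)) (e2 : L = L' + k) {W : List ℕ}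
    (h : Row Good T1 (B0 T1 L) W) : Row Good T (B0 T L') ((grp c J L T1 W).drop k) := by
  subst e1 e2
  have := GL_drop k _ _ (grp_ok R hJ hJ4 c T W hT h1 h)
  rwa [B0_drop] at this

omit R in
theorem row_cons {T : ℕ} {B : ℝ} {w : ℕ} {l : List ℕ} (h : Row Good T B (w :: l)) :
    Good T B (w / SR) ∧ Row Good T (B * Real.exp (-(2 / 5))) l := h

attribute [local irreducible] Row grp

theorem concl : Concl Good := by
  have g0 : Row Good 2260 (B0 2260 240) (List.replicate 261 (plus 2260)) :=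
    GL_repl _ (plus_ok R (by norm_num) (by norm_num)) _ _ (B0_pos _ _).le
  have f1 := grp_drop R 40 4 240 2260 40 1620 200 (by norm_num)
    (by norm_num) (by norm_num) (by norm_num) (by norm_num) (by norm_num) g0
  have g1 := GL_le R (T := 1620) _ _ _ (B0_pos 1620 200).le ok1 f1
  have f2 := grp_drop R 40 4 200 1620 70 980 130 (by norm_num)
    (by norm_num) (by norm_num) (by norm_num) (by norm_num) (by norm_num) g1
  have g2 := GL_le R (T := 980) _ _ _ (B0_pos 980 130).le ok2 f2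
  have k := ok3
  rw [fl_eq, fl_eq, fl_eq] at k
  have g3 := grp_drop R 40 3 130 980 40 620 90 (by norm_num)
    (by norm_num) (by norm_num) (by norm_num) (by norm_num) (by norm_num) g2
  have g4 := grp_drop R 40 3 90 620 40 260 50 (by norm_num)
    (by norm_num) (by norm_num) (by norm_num) (by norm_num) (by norm_num) g3
  have f5 := grp_drop R 56 2 50 260 34 36 16 (by norm_num)
    (by norm_num) (by norm_num) (by norm_num) (by norm_num) (by norm_num) g4
  have g5 := GL_take 33 _ _ f5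
  have g6 := grp_drop R 35 1 16 36 15 1 1 (by norm_num)
    (by norm_num) (by norm_num) (by norm_num) (by norm_num) (by norm_num) g5
  have g7 := GL_le R (T := 1) _ _ _ (B0_pos 1 1).le k g6
  unfold L3 at g7
  obtain ⟨a1, g8⟩ := row_cons g7
  obtain ⟨a2, g9⟩ := row_cons g8
  obtain ⟨a3, -⟩ := row_cons g9
  have e1 : B0 1 1 = Real.exp (-(146 / 7500)) * Real.exp (2 / 5) := by unfold B0; simp
  have e2 : B0 1 1 * Real.exp (-(2 / 5)) = Real.exp (-(146 / 7500)) := by
    rw [e1, mul_assoc, ← Real.exp_add]; simp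
  rw [e2] at a2 a3
  rw [e1] at a1
  have := SR_pos
  refine ⟨_, _, _, by positivity, by positivity, by positivity, a1, a2, a3, ?_⟩
  unfold SR; norm_num

end

end Pool.Agent.MP_c26281_pr.Num

end

section

/-! The rules of the tree hold for the remainder functional. -/

open MeasureTheory ProbabilityTheory Finset
open scoped ENNReal

namespace Pool.Agent.MP_c26281_pr

theorem LB.const {Ω : Type*} [MeasurableSpace Ω] {P : Measure Ω} [IsProbabilityMeasure P] (a : ℝ) :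
    LB P a (fun _ => a) := by
  unfold LB; simp

theorem DD_sums {T J n : ℕ} {lam : ℝ} (hT : 1 ≤ T) (hJ : 1 ≤ J) (hn : 2 ≤ ep * n)
    (y0 : (1 - ep) / 75 ≤ lam ^ 2 * n) (y1 : lam ^ 2 * n ≤ 1 / 75) :
    rs n * (rs (T + J * J) / (T + J * J : ℕ) * J ^ 4 * (1 - ep) / 150)
      ≤ ∑ m ∈ Ioc (T * n) (T * n + J * J * n), DD m * (lam ^ 2 * (m - T * n : ℕ)) ∧
    ∑ m ∈ Ioc (T * n) (T * n + J * J * n), DD m * (lam ^ 2 * (m - T * n : ℕ))
      ≤ rs n * (rs T / T * J ^ 4 * (1 + ep) / 150) ∧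
    ∑ m ∈ Ioc (T * n) (T * n + J * J * n), DD m * (lam ^ 2 * (m - T * n : ℕ)) ^ 2
      ≤ rs n * (rs T / T * J ^ 6 * (1 + ep) / 16875) := by
  have e0 := ep_pos
  have e1 := ep_le
  have n1 : 1 ≤ n := by
    rcases Nat.eq_zero_or_pos n with h | h
    · subst h; norm_num at hn
    · exact h
  have k1 : 1 ≤ T * n := Nat.mul_pos hT n1
  have hT' : 1 ≤ T + J * J := by omega
  obtain ⟨s1, s2⟩ := sum_lin (T * n) (J * J * n)
  have lo : ∀ m ∈ Ioc (T * n) (T * n + J * J * n), rs (T * n + J * J * n) ^ 3 ≤ DD m :=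
    fun m hm => by
      have hm := mem_Ioc.1 hm
      refine le_trans ?_ (DD_bounds (by omega)).1
      exact pow_le_pow_left₀ (rs_pos (by omega)).le (rs_anti (by omega) hm.2) 3
  have hi : ∀ m ∈ Ioc (T * n) (T * n + J * J * n), DD m ≤ rs (T * n) ^ 3 := fun m hm => by
    have hm := mem_Ioc.1 hm
    refine (DD_bounds (by omega)).2.trans ?_
    exact pow_le_pow_left₀ (rs_pos (by omega)).le (rs_anti k1 (by omega)) 3
  have np : (0 : ℝ) < n := by exact_mod_cast n1
  have j1 : (1 : ℝ) ≤ J := by exact_mod_cast hJ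
  have c1 : rs (T * n + J * J * n) ^ 3 = rs (T + J * J) / (T + J * J : ℕ) * (rs n / n) := by
    rw [← add_mul, rs_mul, mul_pow, rs_cube hT', rs_cube n1]
  have c0 : rs (T * n) ^ 3 = rs T / T * (rs n / n) := by
    rw [rs_mul, mul_pow, rs_cube hT, rs_cube n1]
  have p1 : 0 ≤ rs (T + J * J) / (T + J * J : ℕ) := div_nonneg (rs_pos hT').le (by positivity)
  have p0 : 0 ≤ rs T / T := div_nonneg (rs_pos hT).le (by positivity)
  have pn := (rs_pos n1).le
  have rr : 2 ≤ ep * (J * J * n) := by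
    have : (n : ℝ) ≤ J * J * n := le_mul_of_one_le_left np.le (by nlinarith)
    nlinarith
  have r1 : (1 : ℝ) ≤ J * J * n := by nlinarith
  rw [c1] at lo
  rw [c0] at hi
  generalize rs (T + J * J) / (T + J * J : ℕ) = A1 at *
  generalize rs T / T = A0 at *
  push_cast at s1 s2
  refine ⟨le_trans ?_ (sum_le_sum fun m hm => mul_le_mul_of_nonneg_right (lo m hm) (by positivity)),
    (sum_le_sum fun m hm => mul_le_mul_of_nonneg_right (hi m hm) (by positivity)).trans ?_,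
    (sum_le_sum fun m hm => mul_le_mul_of_nonneg_right (hi m hm) (by positivity)).trans ?_⟩
  · rw [← mul_sum, ← mul_sum, s1]
    calc _ = rs n * A1 * J ^ 4 / 2 * ((1 - ep) / 75) := by ring
      _ ≤ rs n * A1 * J ^ 4 / 2 * (lam ^ 2 * n) := by gcongr
      _ = A1 * (rs n / n) * (lam ^ 2 * (J * J * n * (J * J * n) / 2)) := by field_simp
      _ ≤ _ := by gcongr; linarith
  · rw [← mul_sum, ← mul_sum, s1]
    calc _ ≤ A0 * (rs n / n) * (lam ^ 2 * (J * J * n * ((1 + ep) * (J * J * n)) / 2)) := by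
          gcongr; linarith
      _ = rs n * A0 * J ^ 4 * (1 + ep) / 2 * (lam ^ 2 * n) := by field_simp
      _ ≤ rs n * A0 * J ^ 4 * (1 + ep) / 2 * (1 / 75) := by gcongr
      _ = _ := by ring
  · simp_rw [mul_pow]
    rw [← mul_sum, ← mul_sum, s2]
    have q : (J * J * n + 1) * (2 * (J * J * n) + 1)
        ≤ (2 * (1 + ep) * (J * J * n) ^ 2 : ℝ) := by
      generalize (J * J * n : ℝ) = r at *
      nlinarith
    calc _ = A0 * (rs n / n) * ((lam ^ 2) ^ 2
          * (J * J * n * ((J * J * n + 1) * (2 * (J * J * n) + 1)) / 6)) := by ring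
      _ ≤ A0 * (rs n / n) * ((lam ^ 2) ^ 2
          * (J * J * n * (2 * (1 + ep) * (J * J * n) ^ 2) / 6)) := by gcongr
      _ = rs n * A0 * J ^ 6 * (1 + ep) / 3 * (lam ^ 2 * n) ^ 2 := by field_simp; ring
      _ ≤ rs n * A0 * J ^ 6 * (1 + ep) / 3 * (1 / 75) ^ 2 := by gcongr
      _ = _ := by ring

/-- the Taylor lower bound -/
noncomputable def gT (b y : ℝ) : ℝ :=
  (1 + b) / 2 * (1 + b / (1 + b) * (aq (b / (1 + b)) * y - bq (b / (1 + b)) * y ^ 2))

theorem gT_eq {b : ℝ} (hb : 0 ≤ b) (y : ℝ) : gT b y = (1 + b) / 2 + b * aq (b / (1 + b)) / 2 * y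
    - b * bq (b / (1 + b)) / 2 * y ^ 2 := by
  unfold gT
  generalize aq (b / (1 + b)) = A
  generalize bq (b / (1 + b)) = B
  field_simp; ring

section
variable {μ : Measure ℝ} [IsProbabilityMeasure μ] {K : ℕ → ℝ} {c lam Mx : ℝ} {n n1 : ℕ}
  (H : Hyp μ K c lam Mx n n1) (hμ : Ch μ) {V : ℕ → (ℕ → ℝ) → ℝ} (mV : ∀ m, Measurable (V m))
  (V0 : ∀ m x, 0 ≤ V m x) (V1 : ∀ m, LB (PP μ) 1 (V m))
include H mV V0 V1

theorem tm_LB (k m : ℕ) {B a : ℝ} (hB : 0 ≤ B) (ha : 0 ≤ a)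
    (h : LB (PP μ) a (fun x => (1 + B * Real.exp (-XX lam (m - k) x)) / 2)) :
    LB (PP μ) (K m * a) (tm K lam V k B m) :=
  (LB.mul_sh μ (m - k) (by fun_prop) (mV m) (fun u v huv => by rw [XX_dep lam _ u v huv])
    (fun x => by positivity) (V0 m) h (V1 m)).smul ha (H.K0 m)
    (fun x => mul_nonneg (by positivity) (V0 _ _))

include hμ

theorem src_LB (k r : ℕ) (hr : r ≤ 16 * n) {b B : ℝ} (hb : 0 ≤ b) (hB : b ≤ B) :
    LB (PP μ) (∑ m ∈ Ioc k (k + r), K m * gT b (lam ^ 2 * (m - k : ℕ)))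
      (fun x => ∑ m ∈ Ioc k (k + r), tm K lam V k B m x) ∧
    ∀ m ∈ Ioc k (k + r), 0 ≤ gT b (lam ^ 2 * (m - k : ℕ)) := by
  have s : ∀ m ∈ Ioc k (k + r), _ := fun m hm => source hμ (m - k) hb H.l0.le
    (by
      have hm := mem_Ioc.1 hm
      have : ((m - k : ℕ) : ℝ) ≤ 16 * n := by exact_mod_cast (by omega : m - k ≤ 16 * n)
      nlinarith [H.y1, mul_le_mul_of_nonneg_left this (sq_nonneg lam)])
    (by
      have := H.lm H.b3
      rw [abs_mul, abs_of_pos H.l0] at this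
      linarith)
  have g0 : ∀ m ∈ Ioc k (k + r), 0 ≤ gT b (lam ^ 2 * (m - k : ℕ)) := fun m hm =>
    mul_nonneg (by positivity) (s m hm).2
  refine ⟨LB.sum _ (fun m hm => ?_) (fun m hm => mul_nonneg (H.K0 m) (g0 m hm))
    (fun m _ => tm_nonneg H.K0 V0 k (hb.trans hB) m) (fun m _ => measurable_tm mV k B m), g0⟩
  exact (tm_LB H mV V0 V1 k m hb (g0 m hm) (s m hm).1).mono (mul_nonneg (H.K0 m) (g0 m hm)) le_rfl
    (tm_nonneg H.K0 V0 k hb m) (tm_mono H.K0 V0 k hB m)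

theorem rules : Rules (Gd μ K c lam n V) := by
  have kp := H.kpos
  have c0 := H.c0
  have e1 : 0 ≤ 1 - ep := by linarith [ep_le]
  have kt : 0 ≤ (c * rs n) ^ th := Real.rpow_nonneg kp.le _
  have np := H.npos
  have nn : n1 ≤ n := by have := H.n1n; omega
  refine ⟨fun T B B' w w' g hB hB' hw => ?_, fun T B w hT hT' hB hw h => ?_,
    fun T J B b x w y a s o hT h1 h4 hT' hb hB g1 g0 g2 hx hw hy ha h hs hs' ho ho' => ?_⟩
  · refine le_trans (ENNReal.ofReal_le_ofReal (by gcongr)) (le_trans g (lintegral_mono fun x => ?_))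
    exact ENNReal.ofReal_le_ofReal (Real.rpow_le_rpow (RR_nonneg H.K0 V0 _ hB x)
      (sum_le_sum fun m _ => tm_mono H.K0 V0 _ hB' m x) th_pos.le)
  · have k1 : n ≤ T * n := Nat.le_mul_of_pos_left n hT
    have v0 : 0 ≤ (1 - ep) * (rs T - rs (10 ^ 12)) := mul_nonneg e1 (sub_nonneg.2 (rs_anti hT hT'))
    have l := LB.sum (P := PP μ) (Ioc (T * n) (10 ^ 12 * n)) (a := fun m => K m * (1 / 2))
      (F := fun m => tm K lam V (T * n) B m)
      (fun m _ => tm_LB H mV V0 V1 _ m hB (by norm_num) ((LB.const _).mono (by norm_num) le_rfl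
        (fun _ => by norm_num) (fun x => by
          have : 0 ≤ B * Real.exp (-XX lam (m - T * n) x) := by positivity
          linarith)))
      (fun m _ => mul_nonneg (H.K0 m) (by norm_num)) (fun m _ => tm_nonneg H.K0 V0 _ hB m)
      (fun m _ => measurable_tm mV _ B m)
    refine le_trans (ENNReal.ofReal_le_ofReal ?_) l
    refine (mul_le_mul_of_nonneg_left (le_rpow_th v0 h) kt).trans ?_
    rw [← Real.mul_rpow kp.le v0]
    refine Real.rpow_le_rpow (mul_nonneg kp.le v0) ?_ th_pos.le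
    obtain ⟨r, hr⟩ := Nat.exists_eq_add_of_le (Nat.mul_le_mul_right n hT')
    have sd := sum_DD (T * n) r
    rw [← hr, rs_mul, rs_mul] at sd
    calc _ = (1 - ep) * c * (∑ m ∈ Ioc (T * n) (10 ^ 12 * n), DD m) * (1 / 2) := by
          rw [sd]; ring
      _ ≤ _ := by
          rw [mul_sum, sum_mul]
          exact sum_le_sum fun m hm => mul_le_mul_of_nonneg_right
            (H.Kl m (by have := (mem_Ioc.1 hm).1; omega)) (by norm_num)
  · have k1 : n ≤ T * n := Nat.le_mul_of_pos_left n hT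
    have hB0 := hb.trans hB
    have q := quadR H hμ mV V0 h1 h4 hB0 g1 g0 g2 hx hw hy ha h
    obtain ⟨s1, s2⟩ := src_LB H hμ mV V0 V1 (T * n) (J * J * n)
      (Nat.mul_le_mul_right n (by nlinarith)) hb hB
    have S0 : 0 ≤ ∑ m ∈ Ioc (T * n) (T * n + J * J * n), K m * gT b (lam ^ 2 * (m - T * n : ℕ)) :=
      sum_nonneg fun m hm => mul_nonneg (H.K0 m) (s2 m hm)
    have S1 : c * rs n * srcF T J b
        ≤ ∑ m ∈ Ioc (T * n) (T * n + J * J * n), K m * gT b (lam ^ 2 * (m - T * n : ℕ)) := by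
      refine le_trans ?_ (sum_le_sum fun m hm => mul_le_mul_of_nonneg_right
        (H.Kl m (by have := (mem_Ioc.1 hm).1; omega)) (s2 m hm))
      obtain ⟨d1, d2, d3⟩ := DD_sums hT h1 H.nbig H.ylo H.y1
      have sd := sum_DD (T * n) (J * J * n)
      rw [← add_mul, rs_mul, rs_mul, add_mul] at sd
      have ex : ∑ m ∈ Ioc (T * n) (T * n + J * J * n),
          (1 - ep) * c * DD m * gT b (lam ^ 2 * (m - T * n : ℕ))
          = (1 - ep) * c * ((1 + b) / 2 * ∑ m ∈ Ioc (T * n) (T * n + J * J * n), DD m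
            + b * aq (b / (1 + b)) / 2 * ∑ m ∈ Ioc (T * n) (T * n + J * J * n),
              DD m * (lam ^ 2 * (m - T * n : ℕ))
            - b * bq (b / (1 + b)) / 2 * ∑ m ∈ Ioc (T * n) (T * n + J * J * n),
              DD m * (lam ^ 2 * (m - T * n : ℕ)) ^ 2) := by
        rw [mul_sum, mul_sum, mul_sum, ← sum_add_distrib, ← sum_sub_distrib, mul_sum]
        exact sum_congr rfl fun m _ => by rw [gT_eq hb]; ring
      rw [ex, sd]
      unfold srcF srcG
      have pb : 0 ≤ b * bq (b / (1 + b)) := mul_nonneg hb (bq_nonneg _)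
      have pn := (rs_pos np).le
      generalize b * bq (b / (1 + b)) = Q at *
      generalize b * aq (b / (1 + b)) = A at *
      generalize rs (T + J * J) / (T + J * J : ℕ) * J ^ 4 * (1 - ep) / 150 = k1 at *
      generalize rs T / T * J ^ 4 * (1 + ep) / 150 = k0 at *
      generalize rs T / T * J ^ 6 * (1 + ep) / 16875 = k2 at *
      generalize ∑ m ∈ Ioc (T * n) (T * n + J * J * n),
        DD m * (lam ^ 2 * (m - T * n : ℕ)) ^ 2 = Y2 at *
      generalize ∑ m ∈ Ioc (T * n) (T * n + J * J * n),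
        DD m * (lam ^ 2 * (m - T * n : ℕ)) = Y1 at *
      have t1 : rs n * min (A * k1) (A * k0) ≤ A * Y1 := by
        rcases le_total 0 A with hA | hA
        · have := mul_le_mul_of_nonneg_left (min_le_left (A * k1) (A * k0)) pn
          nlinarith [mul_le_mul_of_nonneg_left d1 hA]
        · have := mul_le_mul_of_nonneg_left (min_le_right (A * k1) (A * k0)) pn
          nlinarith [mul_le_mul_of_nonpos_left d2 hA]
      have t2 := mul_le_mul_of_nonneg_left d3 pb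
      calc _ = (1 - ep) * c * ((1 + b) * (rs n * (rs T - rs (T + J * J)))
            + rs n * min (A * k1) (A * k0) / 2 - Q * (rs n * k2) / 2) := by ring
        _ ≤ _ := mul_le_mul_of_nonneg_left (by linarith) (by positivity)
    have S2 : c * rs n * s
        ≤ ∑ m ∈ Ioc (T * n) (T * n + J * J * n), K m * gT b (lam ^ 2 * (m - T * n : ℕ)) := by
      refine (mul_le_mul_of_nonneg_left hs' kp.le).trans ?_
      rcases le_total 0 (srcF T J b) with h0 | h0
      · rwa [max_eq_right h0]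
      · rw [max_eq_left h0, mul_zero]; exact S0
    have l := s1.add q S0 (by positivity)
      (fun z => sum_nonneg fun m _ => tm_nonneg H.K0 V0 _ hB0 m z)
      (fun z => RR_nonneg H.K0 V0 _ (by positivity) _)
      (Finset.measurable_sum _ fun m _ => measurable_tm mV _ B m)
    unfold Gd
    simp_rw [RR_split (T * n) (J * J * n) (m0 := 10 ^ 12 * n)
      (by rw [← add_mul]; exact Nat.mul_le_mul_right n hT') B]
    refine le_trans (ENNReal.ofReal_le_ofReal ?_) l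
    refine (mul_le_mul_of_nonneg_left (le_rpow_th (by positivity) ho') kt).trans ?_
    rw [← Real.mul_rpow kp.le (by positivity)]
    exact Real.rpow_le_rpow (by positivity) (by linarith) th_pos.le

theorem core : LB (PP μ) (1 + c * rs n / 10 ^ 4) (RR K lam (10 ^ 12 * n) V 0 1) := by
  obtain ⟨x, w, y, hx, hw, hy, g1, g0, g2, h⟩ := Num.concl (rules H hμ mV V0 V1)
  have kp := H.kpos
  have c0 := H.c0
  have e0 := ep_pos
  have e1 : 0 ≤ 1 - ep := by linarith [ep_le]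
  have np := H.npos
  have n1n := H.n1n
  have n11 := H.n11
  have q := quadR H hμ mV V0 (T := 0) (J := 1) (B := 1) (x := x) (w := w) (y := y)
    (a := 199772 / 100000) le_rfl (by norm_num) zero_le_one (by simpa using g1) (by simpa using g0)
    (by simpa using g2) hx hw hy (by norm_num) (by
      refine le_trans ?_ (pow_le_pow_left₀ (by positivity) (mul_le_mul_of_nonneg_left h e1) 3)
      unfold ep; norm_num)
  obtain ⟨s1, s2⟩ := src_LB H hμ mV V0 V1 0 n (by omega) zero_le_one (le_refl (1 : ℝ))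
  simp only [zero_mul, mul_one, one_mul, zero_add, Nat.sub_zero] at q s1 s2
  have S0 : 0 ≤ ∑ m ∈ Ioc 0 n, K m * gT 1 (lam ^ 2 * m) :=
    sum_nonneg fun m hm => mul_nonneg (H.K0 m) (s2 m hm)
  have l := s1.add q S0 (by positivity)
    (fun z => sum_nonneg fun m _ => tm_nonneg H.K0 V0 _ zero_le_one m z)
    (fun z => RR_nonneg H.K0 V0 _ (by positivity) _)
    (Finset.measurable_sum _ fun m _ => measurable_tm mV _ 1 m)
  refine l.mono (by positivity) ?_ (fun z => add_nonneg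
    (sum_nonneg fun m _ => tm_nonneg H.K0 V0 _ zero_le_one m z)
    (RR_nonneg H.K0 V0 _ (by positivity) _)) (fun z => le_of_eq ?_)
  swap
  · rw [RR_split 0 n (m0 := 10 ^ 12 * n) (by omega) 1]; simp
  have g : ∀ m ∈ Ioc 0 n, K m + 967 / 10000 * lam ^ 2 * (K m * m) ≤ K m * gT 1 (lam ^ 2 * m) :=
    fun m hm => by
      have hm : (m : ℝ) ≤ n := by exact_mod_cast (mem_Ioc.1 hm).2
      have y1 : lam ^ 2 * m ≤ 1 / 75 := (mul_le_mul_of_nonneg_left hm (sq_nonneg _)).trans H.y1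
      have y0 : 0 ≤ lam ^ 2 * m := by positivity
      have : 1 + 967 / 10000 * (lam ^ 2 * m) ≤ gT 1 (lam ^ 2 * m) := by
        rw [gT_eq zero_le_one]; unfold aq bq; nlinarith
      nlinarith [mul_le_mul_of_nonneg_left this (H.K0 m)]
  have g2 := sum_le_sum g
  rw [sum_add_distrib, ← mul_sum] at g2
  obtain ⟨r, hr⟩ := Nat.exists_eq_add_of_le (show n1 ≤ n by omega)
  have g3 : (1 - ep) * c * ∑ m ∈ Ioc n1 n, rs m ≤ ∑ m ∈ Ioc 0 n, K m * m := by
    refine le_trans ?_ (sum_le_sum_of_subset_of_nonneg (Ioc_subset_Ioc_left (Nat.zero_le n1))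
      fun m _ _ => mul_nonneg (H.K0 m) (by positivity))
    rw [mul_sum]
    refine sum_le_sum fun m hm => ?_
    have hm := (mem_Ioc.1 hm).1
    have mp : (0 : ℝ) < m := by exact_mod_cast (by omega : 0 < m)
    have d := (DD_bounds (m := m) (by omega)).1
    rw [rs_cube (by omega), div_le_iff₀ mp] at d
    calc _ ≤ (1 - ep) * c * (DD m * m) := by gcongr
      _ = (1 - ep) * c * DD m * m := by ring
      _ ≤ _ := mul_le_mul_of_nonneg_right (H.Kl m hm) mp.le
  have g4 := sum_rs n1 r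
  rw [← Nat.cast_add, ← hr] at g4
  have nr : (0 : ℝ) < n := by exact_mod_cast np
  have sp := Real.sqrt_pos.2 nr
  have g5 : Real.sqrt (n1 + 1) ≤ Real.sqrt n / 1000 := by
    refine Real.sqrt_le_iff.2 ⟨by positivity, ?_⟩
    rw [div_pow, Real.sq_sqrt nr.le]
    have : (10 : ℝ) ^ 6 * (n1 + 1) ≤ n := by exact_mod_cast n1n
    linarith
  have g6 : Real.sqrt n ≤ Real.sqrt (n + 1) := Real.sqrt_le_sqrt (by linarith)
  have g7 : Real.sqrt n = n * rs n := by
    unfold rs; rw [eq_mul_inv_iff_mul_eq₀ sp.ne', Real.mul_self_sqrt nr.le]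
  have g8 : 1998 / 1000 * (n * rs n) ≤ ∑ m ∈ Ioc n1 n, rs m := by linarith
  have pn := (rs_pos np).le
  have g9 : 2575 / 1000000 * (c * rs n) ≤ 967 / 10000 * lam ^ 2 * ∑ m ∈ Ioc 0 n, K m * m := by
    calc _ ≤ 967 / 10000 * (1 - ep) * (1998 / 1000) * ((1 - ep) / 75) * (c * rs n) := by
          gcongr; unfold ep; norm_num
      _ ≤ 967 / 10000 * (1 - ep) * (1998 / 1000) * (lam ^ 2 * n) * (c * rs n) := by
          gcongr; exact H.ylo
      _ = 967 / 10000 * lam ^ 2 * ((1 - ep) * c * (1998 / 1000 * (n * rs n))) := by ring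
      _ ≤ _ := by
          gcongr
          exact (mul_le_mul_of_nonneg_left g8 (by positivity)).trans g3
  have := H.Ku
  unfold ep at this
  linarith

end

end Pool.Agent.MP_c26281_pr

end

section

/-! The pinned partition function and its fractional moment. -/

open MeasureTheory ProbabilityTheory Finset
open scoped ENNReal

namespace Pool.Agent.MP_c26281_pr

/-- weight of an excursion -/
noncomputable def ph (lam : ℝ) (m : ℕ) (x : ℕ → ℝ) : ℝ := (1 + Real.exp (-XX lam m x)) / 2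

/-- pinned partition function -/
noncomputable def Zc (K : ℕ → ℝ) (lam : ℝ) : ℕ → (ℕ → ℝ) → ℝ
  | 0, _ => 1
  | g + 1, x => ∑ i ∈ range (g + 1), K (i + 1) * ph lam (i + 1) x * Zc K lam (g - i) (sh (i + 1) x)
decreasing_by omega

theorem ph_ge (lam : ℝ) (m : ℕ) (x : ℕ → ℝ) : 1 / 2 ≤ ph lam m x := by
  unfold ph; linarith [Real.exp_pos (-XX lam m x)]

theorem ph_nonneg (lam : ℝ) (m : ℕ) (x : ℕ → ℝ) : 0 ≤ ph lam m x := by
  linarith [ph_ge lam m x]

@[fun_prop] theorem measurable_ph (lam : ℝ) (m : ℕ) : Measurable (ph lam m) := by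
  unfold ph; fun_prop

/-- crude upper bound -/
noncomputable def EE (lam : ℝ) (L : ℕ) (x : ℕ → ℝ) : ℝ :=
  ∏ i ∈ range L, Real.exp (2 * lam * |x i|)

theorem EE_add (lam : ℝ) (a b : ℕ) (x : ℕ → ℝ) :
    EE lam (a + b) x = EE lam a x * EE lam b (sh a x) := by
  unfold EE sh; rw [prod_range_add]

theorem EE_pos (lam : ℝ) (a : ℕ) (x : ℕ → ℝ) : 0 < EE lam a x :=
  prod_pos fun _ _ => Real.exp_pos _

theorem ph_le {lam : ℝ} (hl : 0 ≤ lam) (m : ℕ) (x : ℕ → ℝ) : ph lam m x ≤ EE lam m x := by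
  unfold ph EE
  rw [← Real.exp_sum, ← mul_sum]
  have h1 : 1 ≤ Real.exp (2 * lam * ∑ i ∈ range m, |x i|) := Real.one_le_exp (by positivity)
  have h2 : Real.exp (-XX lam m x) ≤ Real.exp (2 * lam * ∑ i ∈ range m, |x i|) := by
    refine Real.exp_le_exp.2 ?_
    unfold XX SS
    have := (abs_le.1 (abs_sum_le_sum_abs x (range m))).1
    have := mul_le_mul_of_nonneg_left this hl
    have : 0 ≤ lam ^ 2 * m := by positivity
    linarith
  linarith

section
variable {K : ℕ → ℝ} {lam : ℝ}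

theorem Zc_zero (x : ℕ → ℝ) : Zc K lam 0 x = 1 := by rw [Zc]

theorem Zc_eq {g : ℕ} (hg : 1 ≤ g) (x : ℕ → ℝ) :
    Zc K lam g x = ∑ m ∈ Ioc 0 g, K m * ph lam m x * Zc K lam (g - m) (sh m x) := by
  obtain ⟨g, rfl⟩ : ∃ k, g = k + 1 := ⟨g - 1, by omega⟩
  rw [Zc, ← Finset.Ico_add_one_add_one_eq_Ioc, sum_Ico_eq_sum_range]
  refine sum_congr (by simp) fun i _ => ?_
  rw [zero_add, add_comm 1 i, Nat.add_sub_add_right]

theorem measurable_Zc (g : ℕ) : Measurable (Zc K lam g) := by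
  induction g using Nat.strong_induction_on with
  | _ g ih =>
    rcases Nat.eq_zero_or_pos g with rfl | hg
    · rw [show Zc K lam 0 = fun _ => 1 from funext Zc_zero]; fun_prop
    · rw [show Zc K lam g = _ from funext (Zc_eq hg)]
      refine Finset.measurable_sum _ fun m hm => ?_
      have := ih (g - m) (by have := mem_Ioc.1 hm; omega)
      fun_prop

variable (hK : ∀ m, 0 ≤ K m)
include hK

theorem Zc_nonneg (g : ℕ) : ∀ x, 0 ≤ Zc K lam g x := by
  induction g using Nat.strong_induction_on with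
  | _ g ih =>
    intro x
    rcases Nat.eq_zero_or_pos g with rfl | hg
    · rw [Zc_zero]; norm_num
    · rw [Zc_eq hg]
      exact sum_nonneg fun m hm => mul_nonneg (mul_nonneg (hK m) (ph_nonneg _ _ _))
        (ih (g - m) (by have := mem_Ioc.1 hm; omega) _)

theorem Zc_ge {g : ℕ} (hg : 1 ≤ g) (x : ℕ → ℝ) : K g / 2 ≤ Zc K lam g x := by
  rw [Zc_eq hg]
  refine le_trans ?_ (single_le_sum (f := fun m => K m * ph lam m x * Zc K lam (g - m) (sh m x))
    (fun m _ => mul_nonneg (mul_nonneg (hK m) (ph_nonneg _ _ _)) (Zc_nonneg hK _ _))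
    (mem_Ioc.2 ⟨hg, le_rfl⟩))
  simp only [Nat.sub_self, Zc_zero]
  nlinarith [mul_le_mul_of_nonneg_left (ph_ge lam g x) (hK g)]

/-- any solution of the renewal inequality dominates the pinned partition function -/
theorem Zc_mul (Y : ℕ → (ℕ → ℝ) → ℝ) (Y0 : ∀ N x, 0 ≤ Y N x)
    (hY : ∀ N x, 1 ≤ N → ∑ m ∈ Ioc 0 N, K m * ph lam m x * Y (N - m) (sh m x) ≤ Y N x) (b a : ℕ) :
    ∀ x, Zc K lam a x * Y b (sh a x) ≤ Y (a + b) x := by
  induction a using Nat.strong_induction_on with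
  | _ a ih =>
    intro x
    rcases Nat.eq_zero_or_pos a with rfl | ha
    · rw [Zc_zero, sh_zero]; simp
    · refine le_trans ?_ (hY _ x (by omega))
      refine le_trans ?_ (sum_le_sum_of_subset_of_nonneg (Ioc_subset_Ioc_right (Nat.le_add_right a b))
        fun m _ _ => mul_nonneg (mul_nonneg (hK m) (ph_nonneg _ _ _)) (Y0 _ _))
      rw [Zc_eq ha, sum_mul]
      refine sum_le_sum fun m hm => ?_
      have hm := mem_Ioc.1 hm
      have := ih (a - m) (by omega) (sh m x)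
      rw [sh_sh, show m + (a - m) = a by omega, show a - m + b = a + b - m by omega] at this
      rw [mul_assoc _ (Zc K lam _ _)]
      exact mul_le_mul_of_nonneg_left this (mul_nonneg (hK m) (ph_nonneg _ _ _))

theorem Zc_super (a b : ℕ) (x : ℕ → ℝ) :
    Zc K lam a x * Zc K lam b (sh a x) ≤ Zc K lam (a + b) x :=
  Zc_mul hK (Zc K lam) (Zc_nonneg hK) (fun _ x hN => (Zc_eq hN x).ge) b a x

theorem Zc_le (hl : 0 ≤ lam) (h1 : ∀ g, ∑ m ∈ Ioc 0 g, K m ≤ 1) (g : ℕ) :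
    ∀ x, Zc K lam g x ≤ EE lam g x := by
  induction g using Nat.strong_induction_on with
  | _ g ih =>
    intro x
    rcases Nat.eq_zero_or_pos g with rfl | hg
    · rw [Zc_zero]; simp [EE]
    · rw [Zc_eq hg]
      refine le_trans (sum_le_sum fun m hm => ?_) ((sum_mul _ _ _).ge.trans
        (mul_le_of_le_one_left (EE_pos lam g x).le (h1 g)))
      have hm := mem_Ioc.1 hm
      have e := EE_add lam m (g - m) x
      rw [show m + (g - m) = g by omega] at e
      rw [e, mul_assoc]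
      exact mul_le_mul_of_nonneg_left (mul_le_mul (ph_le hl m x) (ih _ (by omega) _)
        (Zc_nonneg hK _ _) (EE_pos _ _ _).le) (hK m)

end

theorem sum_rpow_th {ι : Type*} (s : Finset ι) (f : ι → ℝ) (hf : ∀ i, 0 ≤ f i) :
    (∑ i ∈ s, f i) ^ th ≤ ∑ i ∈ s, f i ^ th := by
  classical
  induction s using Finset.induction_on with
  | empty => simp [Real.zero_rpow th_pos.ne']
  | insert i s hi ih =>
    rw [sum_insert hi, sum_insert hi]
    exact (Real.rpow_add_le_add_rpow (hf i) (sum_nonneg fun j _ => hf j) th_pos.le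
      th_lt.le).trans (by linarith)

section
variable {μ : Measure ℝ} [IsProbabilityMeasure μ] {K : ℕ → ℝ} {lam a : ℝ} {m0 : ℕ}
  (hK : ∀ m, 0 ≤ K m) (ha : 1 ≤ a) (hm : 1 ≤ m0)
  (hc : ∀ V : ℕ → (ℕ → ℝ) → ℝ, (∀ m, Measurable (V m)) → (∀ m x, 0 ≤ V m x) →
    (∀ m, LB (PP μ) 1 (V m)) → LB (PP μ) a (RR K lam m0 V 0 1))
include hK ha hm hc

theorem window (k : ℕ) :
    LB (PP μ) (a ^ (k / m0)) (fun x => ∑ i ∈ range m0, Zc K lam (k + i) x) := by
  have Z0 := Zc_nonneg (lam := lam) hK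
  have ap : 0 < a := by linarith
  induction k using Nat.strong_induction_on with
  | _ k ih =>
    rcases Nat.eq_zero_or_pos k with rfl | hk
    · refine (LB.const 1).mono (by positivity) (by simp) (fun _ => zero_le_one) fun x => ?_
      refine le_trans ?_ (single_le_sum (fun i _ => Z0 (0 + i) x) (mem_range.2 hm))
      rw [Zc_zero]
    set A := a ^ (k / m0) with hA
    have Ap : 0 < A := by positivity
    have h := hc (fun m x => if 0 < m ∧ m ≤ k ∧ m ≤ m0 then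
        a / A * ∑ i ∈ range m0, Zc K lam (k - m + i) x else 1) (fun m => ?_) (fun m x => ?_)
      (fun m => ?_)
    rotate_left
    · split_ifs
      · exact (Finset.measurable_sum _ fun i _ => measurable_Zc _).const_mul _
      · fun_prop
    · split_ifs
      · exact mul_nonneg (by positivity) (sum_nonneg fun i _ => Z0 _ _)
      · exact zero_le_one
    · by_cases hh : 0 < m ∧ m ≤ k ∧ m ≤ m0
      · simp only [hh, and_self, if_true]
        refine ((ih (k - m) (by omega)).smul (c := a / A) (by positivity) (by positivity)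
          (fun x => sum_nonneg fun i _ => Z0 _ _)).mono zero_le_one ?_
          (fun x => mul_nonneg (by positivity) (sum_nonneg fun i _ => Z0 _ _)) (fun x => le_rfl)
        rw [div_mul_eq_mul_div, le_div_iff₀ Ap, one_mul, ← pow_succ']
        refine pow_le_pow_right₀ ha ?_
        rw [← Nat.add_div_right _ hm]
        exact Nat.div_le_div_right (by omega)
      · simp only [hh, if_false]; exact LB.const 1
    have V0 : ∀ m x, 0 ≤ (fun m x => if 0 < m ∧ m ≤ k ∧ m ≤ m0 then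
        a / A * ∑ i ∈ range m0, Zc K lam (k - m + i) x else 1) m x := fun m x => by
      dsimp only
      split_ifs
      · exact mul_nonneg (by positivity) (sum_nonneg fun i _ => Z0 _ _)
      · exact zero_le_one
    refine (h.smul (c := A / a) ap.le (by positivity) (RR_nonneg hK V0 0 zero_le_one)).mono Ap.le
      (le_of_eq (by field_simp)) (fun x => mul_nonneg (by positivity)
        (RR_nonneg hK V0 0 zero_le_one x)) fun x => ?_
    have t0 : ∀ m j, 0 ≤ K m * ph lam m x * Zc K lam j (sh m x) := fun m j =>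
      mul_nonneg (mul_nonneg (hK m) (ph_nonneg _ _ _)) (Z0 _ _)
    calc _ ≤ ∑ m ∈ Ioc 0 m0, ∑ i ∈ range m0,
          if m ≤ k + i then K m * ph lam m x * Zc K lam (k + i - m) (sh m x) else 0 := by
          unfold RR
          rw [mul_sum]
          refine sum_le_sum fun m hm' => ?_
          have hm' := mem_Ioc.1 hm'
          unfold tm
          simp only [Nat.sub_zero, one_mul]
          by_cases hh : m ≤ k
          · rw [if_pos ⟨hm'.1, hh, hm'.2⟩]
            refine le_of_eq ?_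
            rw [sum_congr rfl fun i _ => if_pos (show m ≤ k + i by omega), ← mul_sum]
            simp_rw [show ∀ i, k + i - m = k - m + i from fun i => by omega]
            unfold ph; field_simp
          · rw [if_neg (by omega)]
            refine le_trans ?_ (single_le_sum (f := fun i => if m ≤ k + i then
              K m * ph lam m x * Zc K lam (k + i - m) (sh m x) else 0)
              (fun i _ => by split_ifs; exacts [t0 _ _, le_rfl])
              (mem_range.2 (show m - k < m0 by omega)))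
            rw [if_pos (by omega), show k + (m - k) - m = 0 by omega, Zc_zero]
            have : A / a ≤ 1 := by
              rw [hA, Nat.div_eq_of_lt (by omega), pow_zero]
              exact (div_le_one ap).2 ha
            refine (mul_le_of_le_one_left (mul_nonneg (hK m) (by positivity)) this).trans
              (le_of_eq ?_)
            unfold ph; ring
      _ ≤ _ := by
          rw [sum_comm]
          refine sum_le_sum fun i _ => ?_
          rw [← sum_filter, Zc_eq (by omega)]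
          refine sum_le_sum_of_subset_of_nonneg (fun m hm' => ?_) fun m _ _ => t0 _ _
          simp only [mem_filter, mem_Ioc] at hm' ⊢
          omega

theorem grow (j : ℕ) : ∃ L, L ≤ (j + 1) * m0 ∧ ENNReal.ofReal ((a ^ th) ^ j / m0)
    ≤ ∫⁻ x, ENNReal.ofReal (Zc K lam L x ^ th) ∂(PP μ) := by
  by_contra hn
  push Not at hn
  have w := window hK ha hm hc (j * m0)
  have Z0 := Zc_nonneg (lam := lam) hK
  have mp : (0 : ℝ) < m0 := by exact_mod_cast hm
  have ap : 0 < a := by linarith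
  unfold LB at w
  rw [Nat.mul_div_cancel _ hm] at w
  have h1 : ∫⁻ x, ENNReal.ofReal ((∑ i ∈ range m0, Zc K lam (j * m0 + i) x) ^ th) ∂(PP μ)
      ≤ ∑ i ∈ range m0, ∫⁻ x, ENNReal.ofReal (Zc K lam (j * m0 + i) x ^ th) ∂(PP μ) := by
    rw [← lintegral_finsetSum _ fun i _ => ((measurable_Zc _).pow_const _).ennreal_ofReal]
    refine lintegral_mono fun x => ?_
    rw [← ENNReal.ofReal_sum_of_nonneg fun i _ => Real.rpow_nonneg (Z0 _ _) _]
    exact ENNReal.ofReal_le_ofReal (sum_rpow_th _ _ fun i => Z0 _ _)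
  have h2 : ∑ i ∈ range m0, ∫⁻ x, ENNReal.ofReal (Zc K lam (j * m0 + i) x ^ th) ∂(PP μ)
      < ∑ i ∈ range m0, ENNReal.ofReal ((a ^ th) ^ j / m0) :=
    ENNReal.sum_lt_sum_of_nonempty (nonempty_range_iff.2 (by omega)) fun i hi =>
      hn _ (by have := mem_range.1 hi; rw [add_mul]; omega)
  rw [← ENNReal.ofReal_sum_of_nonneg fun i _ => by positivity, sum_const, card_range,
    nsmul_eq_mul, mul_div_cancel₀ _ mp.ne', ← Real.rpow_natCast, ← Real.rpow_mul ap.le, mul_comm th,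
    Real.rpow_mul ap.le, Real.rpow_natCast] at h2
  exact absurd (w.trans h1) (not_le.2 h2)

end

end Pool.Agent.MP_c26281_pr

end

section

/-! Rare stretches. -/

open MeasureTheory ProbabilityTheory Finset Filter Topology
open scoped ENNReal

namespace Pool.Agent.MP_c26281_pr

theorem EE_int {μ : Measure ℝ} [IsProbabilityMeasure μ] (hμ : Ch μ) (lam : ℝ) :
    ∃ b : ℕ, ∀ L : ℕ, ∫⁻ x, ENNReal.ofReal (EE lam L x) ∂(PP μ)
      ≤ ENNReal.ofReal (Real.exp ((b * L : ℕ))) := by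
  have hI := integrable_exp_mul_abs (X := fun x : ℝ => x) (hμ.2.2 (2 * lam)) (hμ.2.2 (-(2 * lam)))
  refine ⟨⌈∫ t, Real.exp (2 * lam * |t|) ∂μ⌉₊, fun L => ?_⟩
  unfold EE
  simp_rw [ENNReal.ofReal_prod_of_nonneg fun i _ => (Real.exp_pos _).le]
  have mf : Measurable fun t : ℝ => ENNReal.ofReal (Real.exp (2 * lam * |t|)) := by fun_prop
  rw [lintegral_prod_eq_prod_lintegral_of_indepFun (range L)
    (fun i (x : ℕ → ℝ) => ENNReal.ofReal (Real.exp (2 * lam * |x i|)))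
    ((indep_ev μ).comp _ fun _ => mf) (fun i => by fun_prop)]
  rw [prod_congr rfl fun i _ =>
    (measurePreserving_eval_infinitePi (fun _ : ℕ => μ) i).lintegral_comp mf, prod_const,
    card_range, ← ofReal_integral_eq_lintegral_ofReal hI
      (Eventually.of_forall fun t => (Real.exp_pos _).le),
    ← ENNReal.ofReal_pow (integral_nonneg fun t => (Real.exp_pos _).le)]
  refine ENNReal.ofReal_le_ofReal ?_
  rw [Nat.cast_mul, mul_comm _ (L : ℝ), Real.exp_nat_mul]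
  refine pow_le_pow_left₀ (integral_nonneg fun t => (Real.exp_pos _).le) ?_ _
  refine (Nat.le_ceil _).trans ?_
  linarith [Real.add_one_le_exp (⌈∫ t, Real.exp (2 * lam * |t|) ∂μ⌉₊ : ℝ)]

theorem level_pt {F : ℝ} (hF : 0 ≤ F) (J : ℕ) : F ^ th ≤ 1 + ∑ j ∈ range J,
    (if Real.exp j ≤ F then Real.exp (2 / 3 * (j + 1)) else 0) + Real.exp (-J / 3) * F := by
  have key : ∀ J : ℕ, F < Real.exp J → F ^ th ≤ 1 + ∑ j ∈ range J,
      (if Real.exp j ≤ F then Real.exp (2 / 3 * (j + 1)) else 0) := by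
    intro J
    induction J with
    | zero =>
      intro h
      simp only [Nat.cast_zero, Real.exp_zero, range_zero, sum_empty, add_zero] at h ⊢
      exact Real.rpow_le_one hF h.le th_pos.le
    | succ J ih =>
      intro h
      rw [sum_range_succ]
      by_cases h2 : Real.exp J ≤ F
      · rw [if_pos h2]
        have s0 : 0 ≤ ∑ j ∈ range J, (if Real.exp j ≤ F then Real.exp (2 / 3 * (j + 1)) else 0) :=
          sum_nonneg fun j _ => by split_ifs <;> positivity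
        have : F ^ th ≤ Real.exp (2 / 3 * (J + 1)) := by
          refine (Real.rpow_le_rpow hF h.le th_pos.le).trans (le_of_eq ?_)
          rw [← Real.exp_mul]; unfold th; push_cast; ring_nf
        linarith
      · rw [if_neg h2, add_zero]; exact ih (not_le.1 h2)
  have p : 0 ≤ Real.exp (-J / 3) * F := by positivity
  rcases lt_or_ge F (Real.exp J) with h | h
  · linarith [key J h]
  · have s0 : 0 ≤ ∑ j ∈ range J, (if Real.exp j ≤ F then Real.exp (2 / 3 * (j + 1)) else 0) :=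
      sum_nonneg fun j _ => by split_ifs <;> positivity
    have : F ^ th ≤ Real.exp (-J / 3) * F := by
      refine rpow_th_le hF p ?_
      have e : Real.exp (-J / 3) ^ 3 * Real.exp J = 1 := by
        rw [← Real.exp_nat_mul, ← Real.exp_add, ← Real.exp_zero]; congr 1; push_cast; ring
      calc F ^ 2 = Real.exp (-J / 3) ^ 3 * Real.exp J * F ^ 2 := by rw [e, one_mul]
        _ ≤ Real.exp (-J / 3) ^ 3 * F * F ^ 2 := by gcongr
        _ = _ := by ring
    linarith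

theorem level {Ω : Type*} [MeasurableSpace Ω] {P : Measure Ω} [IsProbabilityMeasure P]
    {F : Ω → ℝ} (mF : Measurable F) (hF : ∀ x, 0 ≤ F x) (b : ℕ) {Θ : ℝ} (hΘ : 0 ≤ Θ)
    (h1 : ∫⁻ x, ENNReal.ofReal (F x) ∂P ≤ ENNReal.ofReal (Real.exp b))
    (h2 : ∀ j : ℕ, Real.exp (2 / 3 * j) * P.real {x | Real.exp j ≤ F x} ≤ Θ) :
    ∫⁻ x, ENNReal.ofReal (F x ^ th) ∂P ≤ ENNReal.ofReal (2 + 9 * b * Θ) := by
  have mA : ∀ j : ℕ, MeasurableSet {x | Real.exp j ≤ F x} := fun j =>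
    measurableSet_le measurable_const mF
  have pt : ∀ x, ENNReal.ofReal (F x ^ th) ≤ 1 + ∑ j ∈ range (3 * b),
      {x | Real.exp j ≤ F x}.indicator (fun _ => ENNReal.ofReal (Real.exp (2 / 3 * (j + 1)))) x
      + ENNReal.ofReal (Real.exp (-b)) * ENNReal.ofReal (F x) := fun x => by
    refine (ENNReal.ofReal_le_ofReal (level_pt (hF x) (3 * b))).trans ?_
    refine ENNReal.ofReal_add_le.trans (add_le_add (ENNReal.ofReal_add_le.trans (add_le_add
      (by simp) ?_)) ?_)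
    · rw [ENNReal.ofReal_sum_of_nonneg fun j _ => by split_ifs <;> positivity]
      refine sum_le_sum fun j _ => ?_
      rw [Set.indicator_apply]
      simp only [Set.mem_ofPred_eq]
      split_ifs <;> simp
    · rw [ENNReal.ofReal_mul (Real.exp_pos _).le]
      push_cast
      rw [show -(3 * (b : ℝ)) / 3 = -b by ring]
  refine (lintegral_mono pt).trans ?_
  rw [lintegral_add_right _ (by fun_prop), lintegral_add_left measurable_const,
    lintegral_finsetSum _ fun j _ => measurable_const.indicator (mA j),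
    lintegral_const_mul' _ _ ENNReal.ofReal_ne_top]
  simp_rw [lintegral_indicator_const (mA _)]
  have t1 : ENNReal.ofReal (Real.exp (-b)) * ∫⁻ x, ENNReal.ofReal (F x) ∂P ≤ ENNReal.ofReal 1 := by
    refine (mul_le_mul_right h1 _).trans (le_of_eq ?_)
    rw [← ENNReal.ofReal_mul (Real.exp_pos _).le, ← Real.exp_add]; simp
  have t2 : ∑ j ∈ range (3 * b), ENNReal.ofReal (Real.exp (2 / 3 * (j + 1)))
      * P {x | Real.exp j ≤ F x} ≤ ENNReal.ofReal (9 * b * Θ) := by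
    have : ∀ j ∈ range (3 * b), ENNReal.ofReal (Real.exp (2 / 3 * (j + 1)))
        * P {x | Real.exp j ≤ F x} ≤ ENNReal.ofReal (3 * Θ) := fun j _ => by
      rw [← ofReal_measureReal (measure_ne_top _ _), ← ENNReal.ofReal_mul (Real.exp_pos _).le]
      refine ENNReal.ofReal_le_ofReal ?_
      have e3 : Real.exp (2 / 3) ≤ 3 :=
        (Real.exp_le_exp.2 (by norm_num)).trans (Real.exp_one_lt_d9.le.trans (by norm_num))
      rw [mul_add, mul_one, Real.exp_add, mul_comm (Real.exp _) (Real.exp (2 / 3)), mul_assoc]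
      exact mul_le_mul e3 (h2 j) (by positivity) (by norm_num)
    refine (sum_le_sum this).trans (le_of_eq ?_)
    rw [← ENNReal.ofReal_sum_of_nonneg fun _ _ => by positivity]
    congr 1; simp; ring
  refine (add_le_add (add_le_add (le_of_eq (b := ENNReal.ofReal 1) (by simp)) t2) t1).trans
    (le_of_eq ?_)
  rw [← ENNReal.ofReal_add (by norm_num) (by positivity),
    ← ENNReal.ofReal_add (by positivity) (by norm_num)]
  congr 1; ring

theorem log_le_lin {p s : ℝ} (hp : 0 < p) (hs : 0 < s) : Real.log s ≤ p * s - 1 - Real.log p := by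
  have := Real.log_le_sub_one_of_pos (mul_pos hp hs)
  rw [Real.log_mul hp.ne' hs.ne'] at this
  linarith

section
variable {K : ℕ → ℝ} {lam lc : ℝ} {n0 : ℕ} (hK : ∀ m, 0 ≤ K m) (hn : 1 ≤ n0)
  (hl : ∀ g, n0 ≤ g → Real.exp (lc - 3 / 2 * Real.log g) ≤ K g / 2)
include hK hn hl

theorem visit (L : ℕ) (j : ℝ) {p : ℝ} (hp : 0 < p) (x : ℕ → ℝ) (b : ℕ) : ∃ t ≤ b,
    Real.exp ((j + lc - 3 / 2 * (Real.log (n0 + L : ℕ) - Real.log p - 1)) * ∑ i ∈ range b,
      (sh (i * (n0 + L) + n0) ⁻¹' {y | Real.exp j ≤ Zc K lam L y}).indicator 1 x - 3 / 2 * p * t)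
      ≤ Zc K lam (t * (n0 + L)) x := by
  induction b with
  | zero => exact ⟨0, le_rfl, by simp [Zc_zero]⟩
  | succ b ih =>
    obtain ⟨t, ht, h⟩ := ih
    rw [sum_range_succ]
    by_cases hx : x ∈ sh (b * (n0 + L) + n0) ⁻¹' {y | Real.exp j ≤ Zc K lam L y}
    swap
    · rw [Set.indicator_of_notMem hx, add_zero]; exact ⟨t, by omega, h⟩
    rw [Set.indicator_of_mem hx]
    refine ⟨b + 1, le_rfl, ?_⟩
    obtain ⟨s, rfl⟩ := Nat.exists_eq_add_of_le ht
    set M := n0 + L with hM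
    have e1 : (t + s) * M + n0 = t * M + (s * M + n0) := by ring
    have e2 : (t + s + 1) * M = t * M + (s * M + n0) + L := by rw [hM]; ring
    have h1 := Zc_super (lam := lam) hK (t * M) (s * M + n0) x
    have h2 := Zc_super (lam := lam) hK (t * M + (s * M + n0)) L x
    have h3 := (hl (s * M + n0) (by omega)).trans
      (Zc_ge (lam := lam) hK (by omega) (sh (t * M) x))
    have h4 : Real.exp j ≤ Zc K lam L (sh (t * M + (s * M + n0)) x) := by rw [← e1]; exact hx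
    rw [e2]
    refine le_trans ?_ ((mul_le_mul ((mul_le_mul h h3 (Real.exp_pos _).le
      (Zc_nonneg hK _ _)).trans h1) h4 (Real.exp_pos _).le (Zc_nonneg hK _ _)).trans h2)
    rw [← Real.exp_add, ← Real.exp_add, Real.exp_le_exp]
    have Mp : (0 : ℝ) < M := by exact_mod_cast (by omega : 0 < M)
    have gp : (0 : ℝ) < (s * M + n0 : ℕ) := by exact_mod_cast (by omega : 0 < s * M + n0)
    have l1 : Real.log (s * M + n0 : ℕ) ≤ Real.log (s + 1) + Real.log M := by
      rw [← Real.log_mul (by positivity) Mp.ne']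
      refine Real.log_le_log gp ?_
      exact_mod_cast (by rw [add_mul]; omega : s * M + n0 ≤ (s + 1) * M)
    have l2 := log_le_lin hp (show (0 : ℝ) < s + 1 by positivity)
    simp only [Pi.one_apply, Nat.cast_add t, Nat.cast_add (t + s), Nat.cast_one]
    linarith

theorem rare {μ : Measure ℝ} [IsProbabilityMeasure μ] (hμ : Ch μ) (l0 : 0 ≤ lam)
    (h1 : ∀ g, ∑ m ∈ Ioc 0 g, K m ≤ 1) {r : ℝ} (hr : 1 < r) {m0 : ℕ} (hm : 1 ≤ m0)
    (hg : ∀ j : ℕ, ∃ L, L ≤ (j + 1) * m0 ∧ ENNReal.ofReal (r ^ j / m0)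
      ≤ ∫⁻ x, ENNReal.ofReal (Zc K lam L x ^ th) ∂(PP μ))
    (Y : ℕ → (ℕ → ℝ) → ℝ) (Y0 : ∀ N x, 0 ≤ Y N x)
    (hY : ∀ N x, 1 ≤ N → ∑ m ∈ Ioc 0 N, K m * ph lam m x * Y (N - m) (sh m x) ≤ Y N x)
    (hY2 : ∀ N j x, N ≤ j → K j / 2 ≤ Y N x)
    (hI : ∀ N, Integrable (fun x => Real.log (Y N x)) (PP μ)) :
    ∃ δ > 0, ∀ᶠ N : ℕ in atTop, δ * N ≤ ∫ x, Real.log (Y N x) ∂(PP μ) := by
  obtain ⟨b, hb⟩ := EE_int hμ lam
  set C := Real.exp (1 - 2 / 3 * lc) with hC
  have Cp : 0 < C := Real.exp_pos _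
  have mp : (1 : ℝ) ≤ m0 := by exact_mod_cast hm
  have ex : ∃ L j : ℕ, (n0 + L : ℕ) * C
      < Real.exp (2 / 3 * j) * (PP μ).real {x | Real.exp j ≤ Zc K lam L x} := by
    by_contra hc
    push Not at hc
    set D : ℝ := (2 + 9 * (b * (2 * m0)) * ((n0 + 2 * m0) * C)) * m0 with hD
    have Dp : 0 < D := by positivity
    obtain ⟨j, hj, j1⟩ := (((tendsto_pow_const_div_const_pow_of_one_lt 2 hr).eventually
      (gt_mem_nhds (inv_pos.2 Dp))).and (eventually_ge_atTop 1)).exists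
    obtain ⟨L, hL, h⟩ := hg j
    have h2 := h.trans (level (measurable_Zc L) (Zc_nonneg hK L) (b * L) (by positivity)
      ((lintegral_mono fun x => ENNReal.ofReal_le_ofReal (Zc_le hK l0 h1 L x)).trans (hb L)) (hc L))
    rw [ENNReal.ofReal_le_ofReal_iff (by positivity), div_le_iff₀ (by positivity)] at h2
    rw [div_lt_iff₀ (by positivity), inv_mul_eq_div, lt_div_iff₀ Dp] at hj
    have j2 : (1 : ℝ) ≤ j := by exact_mod_cast j1
    have hL2 : (L : ℝ) ≤ j * (2 * m0) := by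
      have : (L : ℝ) ≤ (j + 1) * m0 := by exact_mod_cast hL
      nlinarith
    have n2 : (n0 : ℝ) ≤ j * n0 := le_mul_of_one_le_left (by positivity) j2
    refine absurd (hj.trans_le h2) (not_lt.2 ?_)
    push_cast
    calc _ ≤ ((j : ℝ) ^ 2 * 2 + 9 * (b * (j * (2 * m0))) * ((j * n0 + j * (2 * m0)) * C)) * m0 := by
          gcongr; nlinarith
      _ = _ := by rw [hD]; ring
  obtain ⟨L, j, h⟩ := ex
  have mA : MeasurableSet {x | Real.exp j ≤ Zc K lam L x} :=
    measurableSet_le measurable_const (measurable_Zc L)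
  set p := (PP μ).real {x | Real.exp j ≤ Zc K lam L x} with hp
  have v := fun (hp : 0 < p) => visit (lam := lam) hK hn hl L j hp
  set M := n0 + L with hM
  have M1 : 0 < M := by omega
  have Mp : (0 : ℝ) < M := by exact_mod_cast M1
  have pp : 0 < p := (mul_pos_iff_of_pos_left (Real.exp_pos _)).1 ((mul_pos Mp Cp).trans h)
  have lg : Real.log M + (1 - 2 / 3 * lc) ≤ 2 / 3 * j + Real.log p := by
    have := Real.log_le_log (mul_pos Mp Cp) h.le
    rwa [Real.log_mul Mp.ne' Cp.ne', Real.log_mul (Real.exp_pos _).ne' pp.ne', Real.log_exp,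
      Real.log_exp] at this
  set γ := j + lc - 3 / 2 * (Real.log M - Real.log p - 1) with hγ
  have γ3 : 3 ≤ γ := by linarith
  have low : ∀ N : ℕ, 3 / 2 * p * (N / M : ℕ) + lc - 3 / 2 * Real.log (N + n0 : ℕ)
      ≤ ∫ x, Real.log (Y N x) ∂(PP μ) := fun N => by
    have mB : ∀ i, MeasurableSet (sh (i * M + n0) ⁻¹' {x | Real.exp j ≤ Zc K lam L x}) := fun i =>
      measurable_sh _ mA
    have I1 : ∀ i, Integrable ((sh (i * M + n0) ⁻¹' {x | Real.exp j ≤ Zc K lam L x}).indicator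
        (1 : (ℕ → ℝ) → ℝ)) (PP μ) := fun i => (integrable_const 1).indicator (mB i)
    have I2 := (integrable_finsetSum (range (N / M)) fun i _ => I1 i).const_mul γ
    refine le_trans ?_ (integral_mono (I2.add (integrable_const
      (lc - 3 / 2 * Real.log (N + n0 : ℕ) - 3 / 2 * p * (N / M : ℕ)))) (hI N) fun x => ?_)
    · rw [integral_add' I2 (integrable_const _), integral_const_mul,
        integral_finsetSum _ fun i _ => I1 i, sum_congr rfl fun i _ => integral_indicator_one (mB i),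
        sum_congr rfl fun i _ => (mp_sh μ _).measureReal_preimage mA.nullMeasurableSet]
      simp only [sum_const, card_range, nsmul_eq_mul, integral_const, probReal_univ, one_smul, ← hp]
      nlinarith [mul_le_mul_of_nonneg_right γ3 (show 0 ≤ ((N / M : ℕ) : ℝ) * p by positivity)]
    · obtain ⟨t, ht, h2⟩ := v pp x (N / M)
      have tN : t * M ≤ N := (Nat.mul_le_mul_right M ht).trans (Nat.div_mul_le_self N M)
      have h3 := Zc_mul hK Y Y0 hY (N - t * M) (t * M) x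
      rw [Nat.add_sub_cancel' tN] at h3
      have h4 := (hl (N + n0) (by omega)).trans
        (hY2 (N - t * M) (N + n0) (sh (t * M) x) (by omega))
      have h5 := (mul_le_mul h2 h4 (Real.exp_pos _).le (Zc_nonneg hK _ _)).trans h3
      rw [← Real.exp_add] at h5
      refine le_trans ?_ ((Real.le_log_iff_exp_le ((Real.exp_pos _).trans_le h5)).2 h5)
      have : (t : ℝ) ≤ (N / M : ℕ) := by exact_mod_cast ht
      simp only [Pi.add_apply]
      nlinarith [mul_le_mul_of_nonneg_left this pp.le]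
  have qp : 0 < p / M := by positivity
  refine ⟨p / M, qp, ?_⟩
  have td : Tendsto (fun N : ℕ => p / M / 4 * (N : ℝ)) atTop atTop :=
    tendsto_natCast_atTop_atTop.const_mul_atTop (by positivity)
  filter_upwards [td.eventually_ge_atTop (3 / 2 * p - lc
    + 3 / 2 * (p / M / 6 * n0 - 1 - Real.log (p / M / 6)))] with N hN
  refine le_trans ?_ (low N)
  have a1 := log_le_lin (p := p / M / 6) (s := (N + n0 : ℕ)) (by positivity)
    (by exact_mod_cast (by omega : 0 < N + n0))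
  have a2 : (N : ℝ) ≤ ((N / M : ℕ) + 1) * M := by
    exact_mod_cast (Nat.lt_div_mul_add M1).le.trans (le_of_eq (by ring))
  have a3 : p / M * N ≤ p * ((N / M : ℕ) + 1) := by
    calc _ ≤ p / M * (((N / M : ℕ) + 1) * M) := by gcongr
      _ = _ := by field_simp
  rw [Nat.cast_add N n0] at a1 ⊢
  linarith

end

end Pool.Agent.MP_c26281_pr

end

section

/-! The renewal inequality for the free partition function. -/

open MeasureTheory ProbabilityTheory Finset Filter Topology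
open scoped ENNReal

namespace Pool.Agent.MP_c26281_pr

theorem tau_succ (e : ℕ → ℕ × Bool) (i : ℕ) : tau e (i + 1) = (e 0).1 + tau (sh 1 e) i := by
  unfold tau sh
  rw [sum_range_succ', add_comm]
  simp_rw [add_comm 1]

theorem tau_zero (e : ℕ → ℕ × Bool) : tau e 0 = 0 := by simp [tau]

theorem Delta_first (e : ℕ → ℕ × Bool) {n : ℕ} (h1 : 1 ≤ n) (h2 : n ≤ (e 0).1) :
    Delta e n = if (e 0).2 = true then 1 else 0 := by
  classical
  unfold Delta
  refine if_congr ⟨?_, fun h => ⟨0, ?_, ?_, h⟩⟩ rfl rfl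
  · rintro ⟨i, a, -, c⟩
    cases i with
    | zero => exact c
    | succ i => rw [tau_succ] at a; omega
  · rw [tau_zero]; omega
  · rw [tau_succ]; omega

theorem Delta_shift (e : ℕ → ℕ × Bool) {n : ℕ} (h1 : 1 ≤ n) :
    Delta e ((e 0).1 + n) = Delta (sh 1 e) n := by
  classical
  unfold Delta
  refine if_congr ⟨?_, ?_⟩ rfl rfl
  · rintro ⟨i, a, b, c⟩
    cases i with
    | zero => rw [tau_succ, tau_zero] at b; omega
    | succ i =>
      rw [tau_succ] at a b
      exact ⟨i, by omega, by omega, by unfold sh; rwa [add_comm]⟩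
  · rintro ⟨i, a, b, c⟩
    refine ⟨i + 1, by rw [tau_succ]; omega, by rw [tau_succ]; omega, ?_⟩
    unfold sh at c; rwa [add_comm] at c

theorem Delta_abs (e : ℕ → ℕ × Bool) (n : ℕ) : |Delta e n| ≤ 1 := by
  unfold Delta; split_ifs <;> simp

theorem measurable_tau (i : ℕ) : Measurable fun e => tau e i := by
  unfold tau; fun_prop

@[fun_prop] theorem measurable_Delta (n : ℕ) : Measurable fun e => Delta e n := by
  unfold Delta
  refine Measurable.ite ?_ measurable_const measurable_const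
  rw [Set.ofPred_exists]
  refine MeasurableSet.iUnion fun i => ?_
  refine (measurableSet_lt (measurable_tau i) measurable_const).inter
    ((measurableSet_le measurable_const (measurable_tau (i + 1))).inter ?_)
  exact measurableSet_eq_fun (by fun_prop) measurable_const

/-- Boltzmann weight -/
noncomputable def en (lam h : ℝ) (N : ℕ) (x : ℕ → ℝ) (e : ℕ → ℕ × Bool) : ℝ :=
  Real.exp (-2 * lam * ∑ i ∈ range N, Delta e (1 + i) * (x i + h))

/-- partition function, charges indexed from zero -/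
noncomputable def Zx (ν : Measure (ℕ × Bool)) (lam h : ℝ) (N : ℕ) (x : ℕ → ℝ) : ℝ :=
  ∫ e, en lam h N x e ∂(PP ν)

theorem Z_eq (ν : Measure (ℕ × Bool)) (lam h : ℝ) (N : ℕ) (ω : ℕ → ℝ) :
    Z ν lam h N ω = Zx ν lam h N (sh 1 ω) := by
  unfold Z Zx en sh
  simp_rw [← Finset.Ico_add_one_right_eq_Icc, sum_Ico_eq_sum_range, Nat.add_sub_cancel]

theorem measurable_en (lam h : ℝ) (N : ℕ) : Measurable (Function.uncurry (en lam h N)) := by
  unfold en Function.uncurry
  refine Real.measurable_exp.comp (Measurable.const_mul (Finset.measurable_sum _ fun i _ => ?_) _)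
  exact ((measurable_Delta _).comp measurable_snd).mul (by fun_prop)

theorem en_pos (lam h : ℝ) (N : ℕ) (x : ℕ → ℝ) (e : ℕ → ℕ × Bool) : 0 < en lam h N x e :=
  Real.exp_pos _

/-- bound on the energy -/
noncomputable def BB (lam h : ℝ) (N : ℕ) (x : ℕ → ℝ) : ℝ :=
  |-2 * lam| * ∑ i ∈ range N, |x i + h|

theorem en_bd (lam h : ℝ) (N : ℕ) (x : ℕ → ℝ) (e : ℕ → ℕ × Bool) :
    Real.exp (-BB lam h N x) ≤ en lam h N x e ∧ en lam h N x e ≤ Real.exp (BB lam h N x) := by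
  unfold en
  rw [Real.exp_le_exp, Real.exp_le_exp, ← abs_le]
  refine abs_mul_le le_rfl ((abs_sum_le_sum_abs _ _).trans (sum_le_sum fun i _ => ?_))
  simpa using abs_mul_le (Delta_abs e (1 + i)) (le_refl |x i + h|)

theorem en_split (lam h : ℝ) (N : ℕ) (x : ℕ → ℝ) (e : ℕ → ℕ × Bool) (hm : (e 0).1 ≤ N) :
    en lam h N x e = (if (e 0).2 = true then Real.exp (-2 * lam * (SS (e 0).1 x + (e 0).1 * h))
      else 1) * en lam h (N - (e 0).1) (sh (e 0).1 x) (sh 1 e) := by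
  obtain ⟨r, rfl⟩ := Nat.exists_eq_add_of_le hm
  unfold en
  rw [sum_range_add, mul_add, Real.exp_add, Nat.add_sub_cancel_left]
  congr 1
  · rw [sum_congr rfl fun i hi => by rw [Delta_first e (by omega) (by
      have := mem_range.1 hi; omega)]]
    split_ifs
    · simp [SS, sum_add_distrib]
    · simp
  · congr 2
    refine sum_congr rfl fun i _ => ?_
    rw [add_left_comm, Delta_shift e (by omega)]; rfl

section
variable (ν : Measure (ℕ × Bool)) [IsProbabilityMeasure ν]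

theorem en_int (lam h : ℝ) (N : ℕ) (x : ℕ → ℝ) : Integrable (en lam h N x) (PP ν) :=
  Integrable.of_bound (measurable_en lam h N).of_uncurry_left.aestronglyMeasurable
    (Real.exp (BB lam h N x)) (Eventually.of_forall fun e => by
      rw [Real.norm_eq_abs, abs_of_pos (en_pos _ _ _ _ _)]; exact (en_bd lam h N x e).2)

theorem Zx_bd (lam h : ℝ) (N : ℕ) (x : ℕ → ℝ) : Real.exp (-BB lam h N x) ≤ Zx ν lam h N x ∧
    Zx ν lam h N x ≤ Real.exp (BB lam h N x) := by
  unfold Zx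
  constructor
  · simpa using integral_mono (integrable_const _) (en_int ν lam h N x)
      fun e => (en_bd lam h N x e).1
  · simpa using integral_mono (en_int ν lam h N x) (integrable_const _)
      fun e => (en_bd lam h N x e).2

theorem measurable_Zx (lam h : ℝ) (N : ℕ) : Measurable (Zx ν lam h N) :=
  ((measurable_en lam h N).stronglyMeasurable.integral_prod_right (ν := PP ν)).measurable

theorem log_int {μ : Measure ℝ} [IsProbabilityMeasure μ] (hμ : Ch μ) (lam h : ℝ) (N : ℕ) :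
    Integrable (fun x => Real.log (Zx ν lam h N x)) (PP μ) := by
  have I : Integrable (BB lam h N) (PP μ) := by
    refine Integrable.const_mul (integrable_finsetSum _ fun i _ => Integrable.abs ?_) _
    exact Integrable.add (by simpa using int_ev hμ i 1) (integrable_const h)
  refine I.mono' (measurable_Zx ν lam h N).log.aestronglyMeasurable
    (Eventually.of_forall fun x => ?_)
  obtain ⟨h1, h2⟩ := Zx_bd ν lam h N x
  have p := (Real.exp_pos _).trans_le h1
  rw [Real.norm_eq_abs, abs_le]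
  exact ⟨(Real.le_log_iff_exp_le p).2 h1, (Real.log_le_iff_le_exp p).2 h2⟩

theorem first (S : Finset (ℕ × Bool)) (g : ℕ × Bool → (ℕ → ℕ × Bool) → ℝ)
    (mg : ∀ a, Measurable (g a)) (Ig : ∀ a, Integrable (g a) (PP ν)) {F : (ℕ → ℕ × Bool) → ℝ}
    (IF : Integrable F (PP ν)) (F0 : ∀ e, 0 ≤ F e)
    (hF : ∀ e, e 0 ∈ S → g (e 0) (sh 1 e) ≤ F e) :
    ∑ a ∈ S, ν.real {a} * ∫ e, g a e ∂(PP ν) ≤ ∫ e, F e ∂(PP ν) := by
  classical
  have mA : ∀ a, MeasurableSet ((fun e : ℕ → ℕ × Bool => e 0) ⁻¹' {a}) := fun a =>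
    measurable_pi_apply 0 (measurableSet_singleton a)
  have I1 : ∀ a, Integrable (((fun e : ℕ → ℕ × Bool => e 0) ⁻¹' {a}).indicator
      (1 : (ℕ → ℕ × Bool) → ℝ)) (PP ν) := fun a => (integrable_const 1).indicator (mA a)
  have I2 : ∀ a, Integrable (g a ∘ sh 1) (PP ν) := fun a =>
    ((mp_sh ν 1).integrable_comp (mg a).aestronglyMeasurable).2 (Ig a)
  have ind : ∀ a, IndepFun (((fun e : ℕ → ℕ × Bool => e 0) ⁻¹' {a}).indicator
      (1 : (ℕ → ℕ × Bool) → ℝ)) (g a ∘ sh 1) (PP ν) := fun a =>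
    (indep_sh ν 1 _ (measurable_one.indicator (mA a)) (fun x y hxy => by
      simp [Set.indicator_apply, hxy 0 one_pos])).comp measurable_id (mg a)
  have e1 : ∀ a, ν.real {a} * ∫ e, g a e ∂(PP ν) = ∫ e, (((fun e : ℕ → ℕ × Bool => e 0) ⁻¹'
      {a}).indicator (1 : (ℕ → ℕ × Bool) → ℝ) * (g a ∘ sh 1)) e ∂(PP ν) := fun a => by
    rw [(ind a).integral_mul_eq_mul_integral (I1 a).aestronglyMeasurable
      (I2 a).aestronglyMeasurable, integral_indicator_one (mA a),
      (measurePreserving_eval_infinitePi (fun _ : ℕ => ν) 0).measureReal_preimage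
        (measurableSet_singleton a).nullMeasurableSet]
    congr 1
    conv_lhs => rw [← map_sh ν 1]
    rw [integral_map (measurable_sh 1).aemeasurable (mg a).aestronglyMeasurable]; rfl
  rw [sum_congr rfl fun a _ => e1 a,
    ← integral_finsetSum _ fun a _ => (ind a).integrable_mul (I1 a) (I2 a)]
  refine integral_mono (integrable_finsetSum _ fun a _ => (ind a).integrable_mul (I1 a) (I2 a)) IF
    fun e => ?_
  simp only [Pi.mul_apply, Set.indicator_apply, Set.mem_preimage, Set.mem_singleton_iff,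
    Pi.one_apply, ite_mul, one_mul, zero_mul, sum_ite_eq, Function.comp]
  split_ifs with h
  · exact hF e h
  · exact F0 e

variable {K : ℕ → ℝ} (hν : ∀ m s, ν.real {(m, s)} = K m / 2)
include hν

theorem Zx_ge (lam h : ℝ) (N j : ℕ) (x : ℕ → ℝ) (hj : N ≤ j) : K j / 2 ≤ Zx ν lam h N x := by
  have := first ν {(j, false)} (fun _ _ => 1) (fun _ => measurable_const)
    (fun _ => integrable_const _) (en_int ν lam h N x) (fun e => (en_pos _ _ _ _ _).le)
    fun e he => by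
      rw [mem_singleton] at he
      unfold en
      rw [sum_congr rfl fun i hi => by rw [Delta_first e (by omega) (by
        have := mem_range.1 hi; rw [he]; omega)]]
      simp [he]
  unfold Zx
  simpa [hν] using this

theorem Zx_renew {lam h : ℝ} (l0 : 0 ≤ lam) (hh : h ≤ 73 / 100 * lam) (N : ℕ)
    (x : ℕ → ℝ) : ∑ m ∈ Ioc 0 N, K m * ph lam m x * Zx ν lam h (N - m) (sh m x)
      ≤ Zx ν lam h N x := by
  have := first ν (Ioc 0 N ×ˢ univ) (fun a e => (if a.2 = true then Real.exp (-XX lam a.1 x)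
    else 1) * en lam h (N - a.1) (sh a.1 x) e)
    (fun a => (measurable_en lam h _).of_uncurry_left.const_mul _)
    (fun a => (en_int ν lam h _ _).const_mul _) (en_int ν lam h N x)
    (fun e => (en_pos _ _ _ _ _).le) fun e he => by
      rw [en_split lam h N x e (mem_Ioc.1 (mem_product.1 he).1).2]
      refine mul_le_mul_of_nonneg_right ?_ (en_pos _ _ _ _ _).le
      split_ifs
      · refine Real.exp_le_exp.2 ?_
        unfold XX
        nlinarith [mul_le_mul_of_nonneg_left hh (show 0 ≤ lam * (e 0).1 by positivity)]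
      · exact le_rfl
  refine le_trans (le_of_eq ?_) this
  rw [sum_product]
  refine sum_congr rfl fun m _ => ?_
  simp only [Fintype.sum_bool, integral_const_mul, hν]
  unfold ph Zx
  simp; ring

end

end Pool.Agent.MP_c26281_pr

end

section

/-! Weak coupling and the main theorem. -/

open MeasureTheory ProbabilityTheory Finset Filter Topology
open scoped ENNReal

namespace Pool.Agent.MP_c26281_pr

theorem rs_rpow {m : ℕ} (hm : 1 ≤ m) : (m : ℝ) ^ (3 / 2 : ℝ) * rs m ^ 3 = 1 := by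
  have p : (0 : ℝ) < m := by exact_mod_cast hm
  have e : (m : ℝ) ^ (3 / 2 : ℝ) = Real.sqrt m ^ 3 := by
    rw [Real.sqrt_eq_rpow, ← Real.rpow_natCast, ← Real.rpow_mul p.le]; norm_num
  unfold rs
  rw [e, ← mul_pow, mul_inv_cancel₀ (Real.sqrt_pos.2 p).ne', one_pow]

theorem rs_pred {m : ℕ} (hm : 10 ^ 10 + 1 ≤ m) : rs (m - 1) ≤ (1 + 1 / 10 ^ 10) * rs m := by
  have h1 := rs_sq (T := m) (by omega)
  have h2 := rs_sq (T := m - 1) (by omega)
  have p1 := rs_pos (T := m) (by omega)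
  rw [Nat.cast_sub (by omega), Nat.cast_one] at h2
  have hm' : (10 : ℝ) ^ 10 + 1 ≤ m := by exact_mod_cast hm
  refine le_of_pow_le_pow_left₀ (n := 2) (by norm_num) (by positivity) ?_
  refine le_of_mul_le_mul_right ?_ (show (0 : ℝ) < (m - 1) * m by nlinarith)
  calc _ = rs (m - 1) ^ 2 * (m - 1) * m := by ring
    _ ≤ (1 + 1 / 10 ^ 10) ^ 2 * (m - 1) * (rs m ^ 2 * m) := by rw [h1, h2]; linarith
    _ = _ := by ring

theorem K_asy {K : ℕ → ℝ} {c : ℝ} (hc : 0 < c)
    (hT : Tendsto (fun n : ℕ => K n * (n : ℝ) ^ (3 / 2 : ℝ)) atTop (𝓝 c)) :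
    ∃ n1, 1 ≤ n1 ∧ ∀ m, n1 < m → (1 - ep) * c * DD m ≤ K m ∧ K m ≤ (1 + ep) * c * DD m ∧
      Real.exp (Real.log (c / 4) - 3 / 2 * Real.log m) ≤ K m / 2 := by
  have e0 := ep_pos
  have e1 := ep_le
  obtain ⟨n1, h⟩ := eventually_atTop.1 ((hT.eventually (lt_mem_nhds
    (show (1 - ep / 2) * c < c by nlinarith))).and (hT.eventually (gt_mem_nhds
    (show c < (1 + ep) * c by nlinarith))))
  refine ⟨n1 + 10 ^ 10, by omega, fun m hm => ?_⟩
  obtain ⟨h1, h2⟩ := h m (by omega)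
  have m1 : 1 ≤ m := by omega
  have p := rs_pos m1
  have p3 := pow_pos p 3
  have e : K m = K m * (m : ℝ) ^ (3 / 2 : ℝ) * rs m ^ 3 := by rw [mul_assoc, rs_rpow m1, mul_one]
  have l1 : (1 - ep / 2) * c * rs m ^ 3 ≤ K m := by rw [e]; gcongr
  have l2 : K m ≤ (1 + ep) * c * rs m ^ 3 := by rw [e]; gcongr
  obtain ⟨d1, d2⟩ := DD_bounds (m := m) (by omega)
  have d3 : DD m ≤ (1 + 1 / 10 ^ 10) ^ 3 * rs m ^ 3 := by
    rw [← mul_pow]
    exact d2.trans (pow_le_pow_left₀ (rs_pos (by omega)).le (rs_pred (by omega)) 3)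
  have : 0 ≤ 1 - ep := by linarith
  refine ⟨le_trans ?_ l1, l2.trans (by gcongr), ?_⟩
  · calc _ ≤ (1 - ep) * c * ((1 + 1 / 10 ^ 10) ^ 3 * rs m ^ 3) := by gcongr
      _ = (1 - ep) * (1 + 1 / 10 ^ 10) ^ 3 * (c * rs m ^ 3) := by ring
      _ ≤ (1 - ep / 2) * (c * rs m ^ 3) := by gcongr ?_ * _; unfold ep; norm_num
      _ = _ := by ring
  · have mp : (0 : ℝ) < m := by exact_mod_cast m1
    have q := rs_rpow m1
    rw [Real.rpow_def_of_pos mp] at q
    rw [Real.exp_sub, Real.exp_log (by positivity), mul_comm (3 / 2 : ℝ), div_eq_mul_inv _ (Real.exp _),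
      ← eq_inv_of_mul_eq_one_right q]
    nlinarith [mul_pos hc p3]

theorem K_tail {K : ℕ → ℝ} {c : ℝ} {n : ℕ} (hK : ∀ m, 0 ≤ K m) (h0 : K 0 = 0) (hs : HasSum K 1)
    (hc : 0 < c) (h : ∀ m, n < m → K m ≤ (1 + ep) * c * DD m) :
    1 - ∑ m ∈ Ioc 0 n, K m ≤ (1 + ep) * (2 * (c * rs n)) := by
  rw [sub_le_iff_le_add']
  refine le_of_tendsto' hs.tendsto_sum_nat fun N => ?_
  have e0 := ep_pos
  have s1 : ∑ m ∈ range N, K m ≤ ∑ m ∈ insert 0 (Ioc 0 (n + N)), K m :=
    sum_le_sum_of_subset_of_nonneg (fun m hm => by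
      simp only [mem_range, mem_insert, mem_Ioc] at hm ⊢; omega) fun m _ _ => hK m
  rw [sum_insert (by simp), h0, zero_add,
    ← sum_Ioc_consecutive _ (Nat.zero_le n) (Nat.le_add_right n N)] at s1
  have s2 : ∑ m ∈ Ioc n (n + N), K m ≤ ∑ m ∈ Ioc n (n + N), (1 + ep) * c * DD m :=
    sum_le_sum fun m hm => h m (mem_Ioc.1 hm).1
  rw [← mul_sum, sum_DD] at s2
  have : 0 ≤ (1 + ep) * c * rs (n + N) := by unfold rs; positivity
  linarith

theorem main (K : ℕ → ℝ) (c : ℝ) (hK : ∀ n, 0 ≤ K n) (h0 : K 0 = 0) (hs : HasSum K 1)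
    (hc : 0 < c) (hT : Tendsto (fun n : ℕ => K n * (n : ℝ) ^ (3 / 2 : ℝ)) atTop (𝓝 c))
    (ν : Measure (ℕ × Bool)) [IsProbabilityMeasure ν] (hν : ∀ m s, ν.real {(m, s)} = K m / 2)
    (μ : Measure ℝ) [IsProbabilityMeasure μ] (hμ : Ch μ) :
    ∃ lam0 > 0, ∀ lam ∈ Set.Ioo (0 : ℝ) lam0, ∀ h ≤ 73 / 100 * lam, ∃ δ > 0, ∀ᶠ N : ℕ in atTop,
      δ ≤ (1 / (N : ℝ)) * ∫ ω, Real.log (Z ν lam h N ω) ∂(PP μ) := by
  obtain ⟨n1, n11, hn⟩ := K_asy hc hT
  set Mx : ℝ := |∫ x, x ^ 3 ∂μ| + |∫ x, x ^ 4 ∂μ - 3| + |∫ x, x ^ 5 ∂μ - 10 * ∫ x, x ^ 3 ∂μ|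
    + (n1 + 1) with hM
  have a3 := abs_nonneg (∫ x, x ^ 3 ∂μ)
  have a4 := abs_nonneg (∫ x, x ^ 4 ∂μ - 3)
  have a5 := abs_nonneg (∫ x, x ^ 5 ∂μ - 10 * ∫ x, x ^ 3 ∂μ)
  have a0 : (0 : ℝ) ≤ n1 := by positivity
  have Mp : 0 < Mx := by positivity
  refine ⟨1 / 10 ^ 13 / Mx, by positivity, fun lam ⟨l0, l1⟩ h hh => ?_⟩
  rw [lt_div_iff₀ Mp] at l1
  have l2 : 0 < lam ^ 2 := by positivity
  have f1 := Nat.floor_le (a := 1 / 75 / lam ^ 2) (by positivity)
  have f2 := (Nat.lt_floor_add_one (1 / 75 / lam ^ 2)).le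
  have f3 : 10 ^ 6 * (n1 + 1) ≤ ⌊1 / 75 / lam ^ 2⌋₊ := by
    refine Nat.le_floor ?_
    rw [le_div_iff₀ l2]
    have b1 : lam * (n1 + 1) ≤ 1 / 10 ^ 13 := by nlinarith
    have b2 : lam ≤ 1 / 10 ^ 13 := by nlinarith
    push_cast
    nlinarith [mul_le_mul b1 b2 l0.le (by norm_num)]
  generalize ⌊1 / 75 / lam ^ 2⌋₊ = n at f1 f2 f3
  rw [le_div_iff₀ l2] at f1
  rw [div_le_iff₀ l2] at f2
  have H : Hyp μ K c lam Mx n n1 := ⟨hK, hc, l0, by linarith, l1.le, by linarith, by linarith,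
    by linarith, by linarith, by linarith, n11, f3, fun m hm => (hn m hm).1,
    K_tail hK h0 hs hc fun m hm => (hn m (by omega)).2.1⟩
  have kp := H.kpos
  have np := H.npos
  have a1 : 1 < 1 + c * rs n / 10 ^ 4 := by
    have : 0 < c * rs n / 10 ^ 4 := by positivity
    linarith
  have m1 : 1 ≤ 10 ^ 12 * n := by omega
  obtain ⟨δ, hδ, hN⟩ := rare (n0 := n1 + 1) (lc := Real.log (c / 4)) hK (by omega)
    (fun g hg => (hn g (by omega)).2.2) hμ l0.le
    (fun g => sum_le_hasSum _ (fun m _ => hK m) hs) (Real.one_lt_rpow a1 th_pos) m1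
    (grow hK a1.le m1 fun V mV V0 V1 => core H hμ mV V0 V1) (Zx ν lam h)
    (fun N x => (Real.exp_pos _).le.trans (Zx_bd ν lam h N x).1)
    (fun N x _ => Zx_renew ν hν l0.le hh N x) (fun N j x hj => Zx_ge ν hν lam h N j x hj)
    (log_int ν hμ lam h)
  refine ⟨δ, hδ, ?_⟩
  filter_upwards [hN, eventually_ge_atTop 1] with N h1 h2
  have Np : (0 : ℝ) < N := by exact_mod_cast h2
  simp_rw [Z_eq]
  rw [← map_sh μ 1, integral_map (measurable_sh 1).aemeasurable
    (measurable_Zx ν lam h N).log.aestronglyMeasurable] at h1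
  rwa [one_div, ← div_eq_inv_mul, le_div_iff₀ Np]

end Pool.Agent.MP_c26281_pr

end
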